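import Pool.Agent.W_c0up_h14.RSetB

/-!
# MP_c0ce05_co, upper bounds: random set, general partner function (one vertex `y`)

Fixed vertex `y`: `W` = the `w ∈ A` such that the edge `yw` has a partner `g w` inside `A`.
-/

set_option autoImplicit false

namespace C0st

open scoped Classical

variable {α : Type}

/-- `w` is covered: some end point `u` of `g w` is an end point of `g x`, `x ∈ R ∩ W`, and
`s(u, z)`, `z ∈ R`, is a value of `g` -/
def CovR (W : Finset α) (g : α → Sym2 α) (R : Finset α) (w : α) : Prop :=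
  ∃ u ∈ g w, (∃ x ∈ R, x ∈ W ∧ u ∈ g x) ∧ ∃ z ∈ R, ∃ w' ∈ W, g w' = s(u, z)

/-- `w` is special: `g w = g x` for some `x ∈ R ∩ W` -/
def SpcR (W : Finset α) (g : α → Sym2 α) (R : Finset α) (w : α) : Prop :=
  ∃ x ∈ R, x ∈ W ∧ g x = g w

/-- some value of `g` is inside `R` -/
def DetR (W : Finset α) (g : α → Sym2 α) (R : Finset α) : Prop :=
  ∃ w' ∈ W, ∀ x ∈ g w', x ∈ R

/-- number of the `w` which are neither covered nor special, `0` if `DetR` -/
noncomputable def badW (W : Finset α) (g : α → Sym2 α) (R : Finset α) : ℝ :=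
  if DetR W g R then 0 else ((W.filter (fun w => ¬ CovR W g R w ∧ ¬ SpcR W g R w)).card : ℝ)

/-- bound for the expectation -/
noncomputable def xiB (p : ℝ) (n D0 T0 k0 : ℕ) : ℝ :=
  n * (2 * (1 - p) ^ D0) + n * ((p⁻¹ ^ 2 + 2 * D0 * p⁻¹) / T0) + T0 * k0 + n * (1 - p) ^ k0

theorem RA_mono {β : Type} (P : Finset β) (w : β → ℝ) (hw : ∀ R, 0 ≤ w R) (S T : β → Prop)
    [DecidablePred S] [DecidablePred T] (h : ∀ R ∈ P, S R → T R) :
    ∑ R ∈ P.filter S, w R ≤ ∑ R ∈ P.filter T, w R := by
  apply Finset.sum_le_sum_of_subset_of_nonneg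
  · intro R hR
    rw [Finset.mem_filter] at hR ⊢
    exact ⟨hR.1, h R hR.1 hR.2⟩
  · intro R _ _
    exact hw R

theorem RA_or {β : Type} (P : Finset β) (w : β → ℝ) (hw : ∀ R, 0 ≤ w R) (S T U : β → Prop)
    [DecidablePred S] [DecidablePred T] [DecidablePred U] (h : ∀ R ∈ P, S R → T R ∨ U R) :
    ∑ R ∈ P.filter S, w R ≤ ∑ R ∈ P.filter T, w R + ∑ R ∈ P.filter U, w R := by
  simp only [Finset.sum_filter]
  rw [← Finset.sum_add_distrib]
  apply Finset.sum_le_sum
  intro R hR
  have hwR := hw R
  have h1 := h R hR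
  by_cases hS : S R
  · rcases h1 hS with hT | hU
    · rw [if_pos hS, if_pos hT]
      split_ifs <;> linarith
    · rw [if_pos hS, if_pos hU]
      split_ifs <;> linarith
  · rw [if_neg hS]
    split_ifs <;> linarith

theorem RA_disj {p : ℝ} (hp0 : 0 ≤ p) (hp1 : p ≤ 1) (A U : Finset α) (hU : U ⊆ A) (k : ℕ)
    (hk : k ≤ U.card) (S : Finset α → Prop) [DecidablePred S]
    (hS : ∀ R ∈ A.powerset, S R → Disjoint R U) :
    ∑ R ∈ A.powerset.filter S, bw p A R ≤ (1 - p) ^ k := by
  refine (RA_mono A.powerset (bw p A) (fun R => bw_nonneg hp0 hp1 A R) S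
    (fun R => Disjoint R U) hS).trans ?_
  rw [bw_disj p A U hU]
  exact pow_le_pow_of_le_one (by linarith) (by linarith) hk

theorem RA_tot {p : ℝ} (hp0 : 0 ≤ p) (hp1 : p ≤ 1) (A : Finset α) (S : Finset α → Prop)
    [DecidablePred S] : ∑ R ∈ A.powerset.filter S, bw p A R ≤ 1 := by
  rw [← bw_total p A]
  exact Finset.sum_le_sum_of_subset_of_nonneg (Finset.filter_subset _ _)
    (fun R _ _ => bw_nonneg hp0 hp1 A R)

/-- Expectation of `badW`. Proof. `H = W.image g`, `deg u` = number of edges of `H` at `u`. Split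
`W` in three parts.
(1) `w` such that some `u ∈ g w` has `deg u ≥ D0`: if `w` is not covered then `R` misses
`{x ∈ W : u ∈ g x}` (at least `deg u` elements) or the set of the neighbours of `u` in `H`
(`deg u` elements, in `A`): probability at most `2 (1-p)^D0` (`bw_disj`); in total
`|A| * 2 (1-p)^D0`.
(2) the other `w` have `g w ∈ E = {e ∈ H : both end points of degree < D0}`. If `|E| ≥ T0` then
`P(not DetR) ≤ (p⁻² + 2 D0 p⁻¹)/T0` (`second_moment`), and `badW ≤ |A|`.
(3) `|E| < T0`: the `w` with `#{x ∈ W : g x = g w} < k0` are at most `T0 * k0` many; for the others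
`P(not special) ≤ (1-p)^k0` (`bw_disj`). Linearity: `∑_R bw * badW ≤ ∑_w ∑_{R bad for w} bw` in
cases (1), (3). -/
theorem badW_exp {p : ℝ} (hp0 : 0 < p) (hp1 : p ≤ 1) (A W : Finset α) (hW : W ⊆ A)
    (g : α → Sym2 α) (hg : ∀ w ∈ W, ¬ (g w).IsDiag ∧ ∀ x ∈ g w, x ∈ A) (D0 T0 k0 : ℕ)
    (hD0 : 1 ≤ D0) (hT0 : 1 ≤ T0) :
    ∑ R ∈ A.powerset, bw p A R * badW W g R ≤ xiB p A.card D0 T0 k0 := by
  have hq0 : 0 ≤ 1 - p := by linarith
  have hq1 : 1 - p ≤ 1 := by linarith
  have hw : ∀ R, 0 ≤ bw p A R := fun R => bw_nonneg hp0.le hp1 A R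
  let bad : α → Finset α → Prop := fun w R => ¬ DetR W g R ∧ ¬ CovR W g R w ∧ ¬ SpcR W g R w
  have h0 : ∀ R, badW W g R = ∑ w ∈ W, if bad w R then (1 : ℝ) else 0 := by
    intro R
    unfold badW
    by_cases hd : DetR W g R
    · rw [if_pos hd]
      symm
      apply Finset.sum_eq_zero
      intro w _
      rw [if_neg (fun h => h.1 hd)]
    · rw [if_neg hd, Finset.card_filter]
      push_cast
      apply Finset.sum_congr rfl
      intro w _
      by_cases hb : ¬ CovR W g R w ∧ ¬ SpcR W g R w
      · rw [if_pos hb, if_pos ⟨hd, hb⟩]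
      · rw [if_neg hb, if_neg (fun h => hb h.2)]
  have h1 : ∑ R ∈ A.powerset, bw p A R * badW W g R =
      ∑ w ∈ W, ∑ R ∈ A.powerset.filter (bad w), bw p A R := by
    simp only [h0, Finset.mul_sum]
    rw [Finset.sum_comm]
    apply Finset.sum_congr rfl
    intro w _
    rw [Finset.sum_filter]
    apply Finset.sum_congr rfl
    intro R _
    split_ifs <;> simp
  let H : Finset (Sym2 α) := W.image g
  let deg : α → ℕ := fun u => (H.filter (fun e => u ∈ e)).card
  let E : Finset (Sym2 α) := H.filter (fun e => ∀ x ∈ e, deg x < D0)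
  have hHE : ∀ e ∈ H, ¬ e.IsDiag ∧ ∀ x ∈ e, x ∈ A := by
    intro e he
    obtain ⟨w, hwW, rfl⟩ := Finset.mem_image.1 he
    exact hg w hwW
  let X : α → Finset α := fun u => W.filter (fun x => u ∈ g x)
  have hXA : ∀ u, X u ⊆ A := fun u => (Finset.filter_subset _ _).trans hW
  have hXc : ∀ u, deg u ≤ (X u).card := by
    intro u
    have : H.filter (fun e => u ∈ e) ⊆ (X u).image g := by
      intro e he
      rw [Finset.mem_filter] at he
      obtain ⟨w, hwW, rfl⟩ := Finset.mem_image.1 he.1
      exact Finset.mem_image.2 ⟨w, Finset.mem_filter.2 ⟨hwW, he.2⟩, rfl⟩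
    exact (Finset.card_le_card this).trans Finset.card_image_le
  let N : α → Finset α := fun x => A.filter (fun z => s(x, z) ∈ H)
  have hNA : ∀ x, N x ⊆ A := fun x => Finset.filter_subset _ _
  have hNdeg : ∀ x, deg x = (N x).card := by
    intro x
    symm
    apply Finset.card_bij (fun z _ => s(x, z))
    · intro z hz
      rw [Finset.mem_filter] at hz ⊢
      exact ⟨hz.2, Sym2.mem_mk_left _ _⟩
    · intro z _ z' _ hzz
      exact Sym2.congr_right.1 hzz
    · intro e he
      rw [Finset.mem_filter] at he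
      obtain ⟨z, hz⟩ := Sym2.mem_iff_exists.1 he.2
      subst hz
      exact ⟨z, Finset.mem_filter.2 ⟨(hHE _ he.1).2 z (Sym2.mem_mk_right _ _), he.1⟩, rfl⟩
  set c1 : ℝ := 2 * (1 - p) ^ D0 with hc1
  set c2 : ℝ := (p⁻¹ ^ 2 + 2 * D0 * p⁻¹) / T0 with hc2
  set c3 : ℝ := (1 - p) ^ k0 with hc3
  have hc1n : 0 ≤ c1 := by positivity
  have hc2n : 0 ≤ c2 := by positivity
  have hc3n : 0 ≤ c3 := by positivity
  let W3 : Finset α := W.filter (fun w => E.card < T0 ∧ g w ∈ E ∧
    (W.filter (fun x => g x = g w)).card < k0)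
  have hbd : ∀ w ∈ W, ∑ R ∈ A.powerset.filter (bad w), bw p A R ≤
      (c1 + c2 + c3) + (if w ∈ W3 then (1 : ℝ) else 0) := by
    intro w hwW
    have hite : (0 : ℝ) ≤ (if w ∈ W3 then (1 : ℝ) else 0) := by split_ifs <;> norm_num
    by_cases hu : ∃ u ∈ g w, D0 ≤ deg u
    · obtain ⟨u, hug, hud⟩ := hu
      have h2 : ∑ R ∈ A.powerset.filter (bad w), bw p A R ≤
          ∑ R ∈ A.powerset.filter (fun R => Disjoint R (X u)), bw p A R +
            ∑ R ∈ A.powerset.filter (fun R => Disjoint R (N u)), bw p A R := by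
        apply RA_or A.powerset (bw p A) hw
        intro R _ hbad
        by_contra hcon
        rw [not_or, Finset.not_disjoint_iff, Finset.not_disjoint_iff] at hcon
        obtain ⟨⟨x, hxR, hxX⟩, ⟨z, hzR, hzN⟩⟩ := hcon
        apply hbad.2.1
        rw [Finset.mem_filter] at hxX hzN
        obtain ⟨w', hw'W, hw'⟩ := Finset.mem_image.1 hzN.2
        exact ⟨u, hug, ⟨x, hxR, hxX.1, hxX.2⟩, z, hzR, w', hw'W, hw'⟩
      have h3 : ∑ R ∈ A.powerset.filter (fun R => Disjoint R (X u)), bw p A R ≤ (1 - p) ^ D0 :=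
        RA_disj hp0.le hp1 A (X u) (hXA u) D0 (hud.trans (hXc u)) _ (fun R _ h => h)
      have h4 : ∑ R ∈ A.powerset.filter (fun R => Disjoint R (N u)), bw p A R ≤ (1 - p) ^ D0 :=
        RA_disj hp0.le hp1 A (N u) (hNA u) D0 (by rw [← hNdeg]; exact hud) _ (fun R _ h => h)
      linarith
    · push Not at hu
      have hgE : g w ∈ E := Finset.mem_filter.2 ⟨Finset.mem_image_of_mem g hwW, hu⟩
      by_cases hE : T0 ≤ E.card
      · have h2 : ∑ R ∈ A.powerset.filter (bad w), bw p A R ≤
            ∑ R ∈ A.powerset.filter (fun R => ¬ ∃ e ∈ E, ∀ x ∈ e, x ∈ R), bw p A R := by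
          apply RA_mono A.powerset (bw p A) hw
          intro R _ hbad hex
          obtain ⟨e, heE, hin⟩ := hex
          obtain ⟨w', hw'W, rfl⟩ := Finset.mem_image.1 (Finset.mem_filter.1 heE).1
          exact hbad.1 ⟨w', hw'W, hin⟩
        have h3 := second_moment hp0 hp1 A E
          (fun e he => hHE e (Finset.mem_filter.1 he).1) D0 T0 (by
            intro x _
            by_cases hdx : deg x < D0
            · refine le_trans (Finset.card_le_card ?_) hdx.le
              intro e he
              rw [Finset.mem_filter] at he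
              exact Finset.mem_filter.2 ⟨(Finset.mem_filter.1 he.1).1, he.2⟩
            · have h7 : E.filter (fun e => x ∈ e) = ∅ := by
                apply Finset.filter_eq_empty_iff.2
                intro e he hxe
                exact hdx ((Finset.mem_filter.1 he).2 x hxe)
              rw [h7, Finset.card_empty]
              exact Nat.zero_le _) hT0 hE
        linarith
      · by_cases hf : (W.filter (fun x => g x = g w)).card < k0
        · have hw3 : w ∈ W3 := Finset.mem_filter.2 ⟨hwW, not_le.1 hE, hgE, hf⟩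
          rw [if_pos hw3]
          have h2 := RA_tot hp0.le hp1 A (bad w)
          linarith
        · have h2 : ∑ R ∈ A.powerset.filter (bad w), bw p A R ≤ (1 - p) ^ k0 := by
            apply RA_disj hp0.le hp1 A (W.filter (fun x => g x = g w))
              ((Finset.filter_subset _ _).trans hW) k0 (not_lt.1 hf)
            intro R _ hbad
            rw [Finset.disjoint_left]
            intro x hxR hx
            rw [Finset.mem_filter] at hx
            exact hbad.2.2 ⟨x, hxR, hx.1, hx.2⟩
          linarith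
  have hW3 : (W3.card : ℝ) ≤ T0 * k0 := by
    by_cases hE : E.card < T0
    · have h2 : W3.card ≤ k0 * E.card := by
        refine Finset.card_le_mul_card_image_of_maps_to (f := g) (t := E) ?_ k0 ?_
        · intro w hw3
          exact (Finset.mem_filter.1 hw3).2.2.1
        · intro e _
          by_cases hne : (W3.filter (fun w => g w = e)).Nonempty
          · obtain ⟨w, hw3⟩ := hne
            rw [Finset.mem_filter] at hw3
            have h3 := (Finset.mem_filter.1 hw3.1).2.2.2
            refine le_trans (Finset.card_le_card ?_) h3.le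
            intro x hx
            rw [Finset.mem_filter] at hx ⊢
            exact ⟨(Finset.mem_filter.1 hx.1).1, hx.2.trans hw3.2.symm⟩
          · rw [Finset.not_nonempty_iff_eq_empty.1 hne, Finset.card_empty]
            exact Nat.zero_le _
      have h3 : W3.card ≤ T0 * k0 := by
        calc W3.card ≤ k0 * E.card := h2
          _ ≤ k0 * T0 := Nat.mul_le_mul_left _ hE.le
          _ = T0 * k0 := Nat.mul_comm _ _
      exact_mod_cast h3
    · have h2 : W3 = ∅ := by
        apply Finset.filter_eq_empty_iff.2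
        intro w _ h
        exact hE h.1
      rw [h2, Finset.card_empty, Nat.cast_zero]
      exact mul_nonneg (Nat.cast_nonneg _) (Nat.cast_nonneg _)
  have hWA : (W.card : ℝ) ≤ A.card := by exact_mod_cast Finset.card_le_card hW
  have h5 : ∑ w ∈ W, (if w ∈ W3 then (1 : ℝ) else 0) ≤ W3.card := by
    rw [← Finset.sum_filter, Finset.sum_const, nsmul_eq_mul, mul_one]
    exact_mod_cast Finset.card_le_card (fun x hx => (Finset.mem_filter.1 hx).2)
  rw [h1]
  refine (Finset.sum_le_sum hbd).trans ?_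
  rw [Finset.sum_add_distrib, Finset.sum_const, nsmul_eq_mul]
  have h6 : (W.card : ℝ) * (c1 + c2 + c3) ≤ A.card * (c1 + c2 + c3) :=
    mul_le_mul_of_nonneg_right hWA (by positivity)
  have h7 : xiB p A.card D0 T0 k0 = A.card * (c1 + c2 + c3) + T0 * k0 := by
    unfold xiB
    rw [hc1, hc2, hc3]
    ring
  rw [h7]
  linarith

end C0st
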