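import Pool.Agent.W_c0up_h14.DefsG

/-!
# MP_c0ce05_co, upper bounds: greedy extension of `R` and simple facts on determined vertices
-/

set_option autoImplicit false

namespace C0st

open scoped Classical
open C0lo

variable {N : ℕ}

/-- an edge has at most two end points -/
theorem RC_card_mem (e : Sym2 (Fin N)) :
    ((Finset.univ : Finset (Fin N)).filter (fun x => x ∈ e)).card ≤ 2 := by
  induction e using Sym2.ind with
  | _ a b =>
    refine le_trans (Finset.card_le_card (t := {a, b}) ?_) Finset.card_le_two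
    intro x hx
    have h := (Finset.mem_filter.1 hx).2
    rw [Sym2.mem_iff] at h
    rw [Finset.mem_insert, Finset.mem_singleton]
    exact h

/-- at most one partner -/
theorem RC_card_fst (P : GP N) {Dl : ℕ} (hP : P.Valid Dl) (f : Sym2 (Fin N)) :
    (P.db.filter (fun d => d.1 = f)).card ≤ 1 := by
  rw [Finset.card_le_one]
  intro d hd d' hd'
  rw [Finset.mem_filter] at hd hd'
  exact hP.fn d hd.1 d' hd'.1 (hd.2.trans hd'.2.symm)

/-- `NN` has at most `2 + 2 Dl` elements: at most one partner (two end points) and at most `Dl`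
preimages -/
theorem card_NN_le (P : GP N) {Dl : ℕ} (hP : P.Valid Dl) (f : Sym2 (Fin N)) :
    (NN P f).card ≤ 2 + 2 * Dl := by
  have hsub : NN P f ⊆
      ((P.db.filter (fun d => d.1 = f)).biUnion
        (fun d => (Finset.univ : Finset (Fin N)).filter (fun x => x ∈ d.2))) ∪
      ((P.db.filter (fun d => d.2 = f)).biUnion
        (fun d => (Finset.univ : Finset (Fin N)).filter (fun x => x ∈ d.1))) := by
    intro x hx
    unfold NN at hx
    obtain ⟨d, hd, h | h⟩ := (Finset.mem_filter.1 hx).2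
    · exact Finset.mem_union_left _ (Finset.mem_biUnion.2
        ⟨d, Finset.mem_filter.2 ⟨hd, h.1⟩, Finset.mem_filter.2 ⟨Finset.mem_univ _, h.2⟩⟩)
    · exact Finset.mem_union_right _ (Finset.mem_biUnion.2
        ⟨d, Finset.mem_filter.2 ⟨hd, h.1⟩, Finset.mem_filter.2 ⟨Finset.mem_univ _, h.2⟩⟩)
  have h1 := Finset.card_biUnion_le_card_mul (P.db.filter (fun d => d.1 = f))
    (fun d => (Finset.univ : Finset (Fin N)).filter (fun x => x ∈ d.2)) 2
    (fun d _ => RC_card_mem d.2)
  have h2 := Finset.card_biUnion_le_card_mul (P.db.filter (fun d => d.2 = f))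
    (fun d => (Finset.univ : Finset (Fin N)).filter (fun x => x ∈ d.1)) 2
    (fun d _ => RC_card_mem d.1)
  have h3 := RC_card_fst P hP f
  have h4 := hP.indeg f
  have h5 := (Finset.card_le_card hsub).trans (Finset.card_union_le _ _)
  omega

/-- `NP` has at most `2 Dl` elements -/
theorem card_NP_le (P : GP N) {Dl : ℕ} (hP : P.Valid Dl) (f : Sym2 (Fin N)) :
    (NP P f).card ≤ 2 * Dl := by
  have hsub : NP P f ⊆
      (P.db.filter (fun d => d.1 = f)).biUnion
        (fun d => (P.db.filter (fun d' => d'.2 = d.2)).biUnion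
          (fun d' => (Finset.univ : Finset (Fin N)).filter (fun x => x ∈ d'.1))) := by
    intro x hx
    unfold NP at hx
    obtain ⟨d, hd, h1, d', hd', h2, h3⟩ := (Finset.mem_filter.1 hx).2
    exact Finset.mem_biUnion.2 ⟨d, Finset.mem_filter.2 ⟨hd, h1⟩, Finset.mem_biUnion.2
      ⟨d', Finset.mem_filter.2 ⟨hd', h2⟩, Finset.mem_filter.2 ⟨Finset.mem_univ _, h3⟩⟩⟩
  have h1 := Finset.card_biUnion_le_card_mul (P.db.filter (fun d => d.1 = f))
    (fun d => (P.db.filter (fun d' => d'.2 = d.2)).biUnion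
          (fun d' => (Finset.univ : Finset (Fin N)).filter (fun x => x ∈ d'.1))) (Dl * 2)
    (fun d _ => (Finset.card_biUnion_le_card_mul (P.db.filter (fun d' => d'.2 = d.2))
      (fun d' => (Finset.univ : Finset (Fin N)).filter (fun x => x ∈ d'.1)) 2
      (fun d' _ => RC_card_mem d'.1)).trans (Nat.mul_le_mul_right _ (hP.indeg d.2)))
  have h3 := RC_card_fst P hP f
  have h4 := Nat.mul_le_mul_right (Dl * 2) h3
  have h5 := Finset.card_le_card hsub
  omega

/-- union over the at most `|S|²` pairs -/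
theorem card_Lam_le (P : GP N) {Dl : ℕ} (hP : P.Valid Dl) (S : Finset (Fin N)) :
    (Lam P S).card ≤ S.card ^ 2 * (2 + 4 * Dl) := by
  have hsub : Lam P S ⊆ (S ×ˢ S).biUnion (fun p => NN P s(p.1, p.2) ∪ NP P s(p.1, p.2)) := by
    intro x hx
    unfold Lam at hx
    obtain ⟨u, hu, v, hv, h⟩ := (Finset.mem_filter.1 hx).2
    exact Finset.mem_biUnion.2 ⟨(u, v), Finset.mem_product.2 ⟨hu, hv⟩, Finset.mem_union.2 h⟩
  have h1 := Finset.card_biUnion_le_card_mul (S ×ˢ S)
    (fun p => NN P s(p.1, p.2) ∪ NP P s(p.1, p.2)) (2 + 4 * Dl) (fun p _ => by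
      have h1 := Finset.card_union_le (NN P s(p.1, p.2)) (NP P s(p.1, p.2))
      have h2 := card_NN_le P hP s(p.1, p.2)
      have h3 := card_NP_le P hP s(p.1, p.2)
      omega)
  rw [Finset.card_product, ← pow_two] at h1
  exact (Finset.card_le_card hsub).trans h1

theorem Lam_mono (P : GP N) {S T : Finset (Fin N)} (h : S ⊆ T) : Lam P S ⊆ Lam P T := by
  intro x hx
  unfold Lam at hx ⊢
  obtain ⟨u, hu, v, hv, h1⟩ := (Finset.mem_filter.1 hx).2
  exact Finset.mem_filter.2 ⟨Finset.mem_univ _, u, h hu, v, h hv, h1⟩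

theorem Ar_mono (P : GP N) {S T : Finset (Fin N)} (h : S ⊆ T) {a b : Fin N} (hab : Ar P S a b) :
    Ar P T a b := by
  obtain ⟨x, hx, h1⟩ := hab
  exact ⟨x, h hx, h1⟩

/-- if `a ∈ R` and `a → b` then `b ∈ Lam R` -/
theorem Ar_Lam (P : GP N) {R : Finset (Fin N)} {a b : Fin N} (ha : a ∈ R) (hab : Ar P R a b) :
    b ∈ Lam P R := by
  obtain ⟨x, hx, h1⟩ := hab
  unfold Lam
  exact Finset.mem_filter.2 ⟨Finset.mem_univ _, a, ha, x, hx, Or.inl h1⟩

/-- out-degree: union over `R` -/
theorem card_Ar_le (P : GP N) {Dl : ℕ} (hP : P.Valid Dl) (R : Finset (Fin N)) (a : Fin N) :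
    ((Finset.univ : Finset (Fin N)).filter (fun b => Ar P R a b)).card ≤
      R.card * (2 + 2 * Dl) := by
  have hsub : (Finset.univ : Finset (Fin N)).filter (fun b => Ar P R a b) ⊆
      R.biUnion (fun x => NN P s(a, x)) := by
    intro b hb
    obtain ⟨x, hx, h1⟩ := (Finset.mem_filter.1 hb).2
    exact Finset.mem_biUnion.2 ⟨x, hx, h1⟩
  exact (Finset.card_le_card hsub).trans
    (Finset.card_biUnion_le_card_mul R (fun x => NN P s(a, x)) (2 + 2 * Dl)
      (fun x _ => card_NN_le P hP s(a, x)))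

/-- reachable vertices: `c 0 = 1`, `c (n+1) ≤ c n (1 + |R| (2 + 2 Dl))` -/
theorem card_Rch_le (P : GP N) {Dl : ℕ} (hP : P.Valid Dl) (R : Finset (Fin N)) (n : ℕ)
    (a : Fin N) :
    ((Finset.univ : Finset (Fin N)).filter (fun b => Rch P R n a b)).card ≤
      (1 + R.card * (2 + 2 * Dl)) ^ n := by
  induction n with
  | zero =>
    rw [pow_zero]
    refine le_trans (Finset.card_le_card (t := {a}) ?_) (Finset.card_singleton a).le
    intro b hb
    have h := (Finset.mem_filter.1 hb).2
    rw [Finset.mem_singleton]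
    exact h.symm
  | succ n ih =>
    set X := (Finset.univ : Finset (Fin N)).filter (fun b => Rch P R n a b) with hX
    have hsub : (Finset.univ : Finset (Fin N)).filter (fun b => Rch P R (n + 1) a b) ⊆
        X ∪ X.biUnion (fun c => (Finset.univ : Finset (Fin N)).filter (fun b => Ar P R c b)) := by
      intro b hb
      have h := (Finset.mem_filter.1 hb).2
      rcases h with h | ⟨c, hc, hcb⟩
      · exact Finset.mem_union_left _ (Finset.mem_filter.2 ⟨Finset.mem_univ _, h⟩)
      · exact Finset.mem_union_right _ (Finset.mem_biUnion.2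
          ⟨c, Finset.mem_filter.2 ⟨Finset.mem_univ _, hc⟩,
            Finset.mem_filter.2 ⟨Finset.mem_univ _, hcb⟩⟩)
    have h1 := Finset.card_biUnion_le_card_mul X
      (fun c => (Finset.univ : Finset (Fin N)).filter (fun b => Ar P R c b))
      (R.card * (2 + 2 * Dl)) (fun c _ => card_Ar_le P hP R c)
    have h2 := (Finset.card_le_card hsub).trans (Finset.card_union_le _ _)
    calc ((Finset.univ : Finset (Fin N)).filter (fun b => Rch P R (n + 1) a b)).card
        ≤ X.card + X.card * (R.card * (2 + 2 * Dl)) := h2.trans (Nat.add_le_add_left h1 _)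
      _ = X.card * (1 + R.card * (2 + 2 * Dl)) := by ring
      _ ≤ (1 + R.card * (2 + 2 * Dl)) ^ n * (1 + R.card * (2 + 2 * Dl)) :=
          Nat.mul_le_mul_right _ ih
      _ = (1 + R.card * (2 + 2 * Dl)) ^ (n + 1) := (pow_succ _ _).symm

theorem RC_greedy (P : GP N) (A : Finset (Fin N)) (e2 : ℕ) (m : ℕ) :
    ∀ R ⊆ A, A.card < (A ∩ Lam P R).card + (e2 + 1) * (m + 1) →
      ∃ R' ⊆ A, R ⊆ R' ∧ R'.card ≤ R.card + m ∧
        ∀ y ∈ A, ((A ∩ Lam P (insert y R')) \ Lam P R').card ≤ e2 := by
  induction m with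
  | zero =>
    intro R hR h
    refine ⟨R, hR, le_rfl, le_rfl, ?_⟩
    intro y _
    have h1 : (A ∩ Lam P (insert y R)) \ Lam P R ⊆ A \ (A ∩ Lam P R) := by
      intro x hx
      rw [Finset.mem_sdiff, Finset.mem_inter] at hx
      rw [Finset.mem_sdiff, Finset.mem_inter]
      exact ⟨hx.1.1, fun h2 => hx.2 h2.2⟩
    have h2 := Finset.card_le_card h1
    rw [Finset.card_sdiff_of_subset Finset.inter_subset_left] at h2
    omega
  | succ m ih =>
    intro R hR h
    by_cases hy : ∀ y ∈ A, ((A ∩ Lam P (insert y R)) \ Lam P R).card ≤ e2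
    · exact ⟨R, hR, le_rfl, Nat.le_add_right _ _, hy⟩
    · push_neg at hy
      obtain ⟨y, hyA, hyc⟩ := hy
      have h1 : (A ∩ Lam P R).card + ((A ∩ Lam P (insert y R)) \ Lam P R).card ≤
          (A ∩ Lam P (insert y R)).card := by
        rw [← Finset.card_union_of_disjoint]
        · refine Finset.card_le_card (Finset.union_subset ?_ Finset.sdiff_subset)
          exact Finset.inter_subset_inter_left (Lam_mono P (Finset.subset_insert _ _))
        · rw [Finset.disjoint_left]
          intro x hx hx2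
          exact (Finset.mem_sdiff.1 hx2).2 (Finset.mem_inter.1 hx).2
      have h2 : (e2 + 1) * (m + 1 + 1) = (e2 + 1) * (m + 1) + (e2 + 1) := by ring
      obtain ⟨R', hR'A, hR', hc, hq⟩ := ih (insert y R)
        (Finset.insert_subset hyA hR) (by omega)
      refine ⟨R', hR'A, (Finset.subset_insert _ _).trans hR', ?_, hq⟩
      have h3 := Finset.card_insert_le y R
      omega

/-- Greedy extension. Proof: as long as some `y ∈ A` violates the last condition replace `R` by
`insert y R`; then `A ∩ Lam R` grows by at least `e2 + 1` elements (`Lam_mono`), so this happens at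
most `m2` times if `|A| < (e2 + 1)(m2 + 1)`. -/
theorem exists_greedy (P : GP N) (A R0 : Finset (Fin N)) (hR : R0 ⊆ A) (e2 m2 : ℕ)
    (h : A.card < (e2 + 1) * (m2 + 1)) :
    ∃ R ⊆ A, R0 ⊆ R ∧ R.card ≤ R0.card + m2 ∧
      ∀ y ∈ A, ((A ∩ Lam P (insert y R)) \ Lam P R).card ≤ e2 :=
  RC_greedy P A e2 m2 R0 hR (h.trans_le (Nat.le_add_left _ _))

end C0st
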