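import Pool.Agent.W_c0up_h14.RB
import Pool.Agent.W_c0up_h14.RC

/-!
# MP_c0ce05_co, upper bounds: the good set `R` of a clique (proofs row 505, B1')
-/

set_option autoImplicit false

namespace C0st

open scoped Classical
open C0lo

variable {N : ℕ}

/-- the exceptional pairs outside `Lam P R` -/
noncomputable def excS (P : GP N) (A R : Finset (Fin N)) : Finset (Fin N × Fin N) :=
  (A ×ˢ A).filter (fun p => p.1 ∉ Lam P R ∧ p.2 ∉ Lam P R ∧ Exc P A R p.1 p.2)

/-- `w` has a partner inside `A` not containing `y` -/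
def RD_P (P : GP N) (A : Finset (Fin N)) (y w : Fin N) (g : Sym2 (Fin N)) : Prop :=
  (s(y, w), g) ∈ P.db ∧ (∀ x ∈ g, x ∈ A) ∧ y ∉ g

/-- the `w` which have such a partner -/
noncomputable def RD_W (P : GP N) (A : Finset (Fin N)) (y : Fin N) : Finset (Fin N) :=
  A.filter (fun w => ∃ g, RD_P P A y w g)

/-- the partner -/
noncomputable def RD_g (P : GP N) (A : Finset (Fin N)) (y w : Fin N) : Sym2 (Fin N) :=
  if h : ∃ g, RD_P P A y w g then h.choose else s(y, y)

theorem RD_spec (P : GP N) (A : Finset (Fin N)) (y w : Fin N) (hw : w ∈ RD_W P A y) :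
    RD_P P A y w (RD_g P A y w) := by
  have h : ∃ g, RD_P P A y w g := (Finset.mem_filter.1 hw).2
  unfold RD_g
  rw [dif_pos h]
  exact h.choose_spec

theorem RD_uniq (P : GP N) {Dl : ℕ} (hP : P.Valid Dl) (A : Finset (Fin N)) (y w : Fin N)
    (g : Sym2 (Fin N)) (hg : RD_P P A y w g) : RD_g P A y w = g := by
  have h : ∃ g, RD_P P A y w g := ⟨g, hg⟩
  have h1 : RD_P P A y w (RD_g P A y w) := by
    unfold RD_g
    rw [dif_pos h]
    exact h.choose_spec
  have h2 := hP.fn _ h1.1 _ hg.1 rfl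
  exact congrArg Prod.snd h2

/-- the elements of one row -/
theorem RD_row (P : GP N) {Dl : ℕ} (hP : P.Valid Dl) (A R0 R : Finset (Fin N)) (hRR : R0 ⊆ R)
    (e2 : ℕ) (y : Fin N)
    (hgr : ((A ∩ Lam P (insert y R)) \ Lam P R).card ≤ e2) :
    ((A.filter (fun w => (y, w) ∈ excS P A R)).card : ℝ) ≤
      badW (RD_W P A y) (RD_g P A y) R0 + e2 := by
  have hb0 : 0 ≤ badW (RD_W P A y) (RD_g P A y) R0 := by
    unfold badW
    split_ifs
    · exact le_refl _
    · exact Nat.cast_nonneg _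
  by_cases hy : y ∈ Lam P R
  · have : A.filter (fun w => (y, w) ∈ excS P A R) = ∅ := by
      apply Finset.filter_eq_empty_iff.2
      intro w _ h
      exact (Finset.mem_filter.1 h).2.1 hy
    rw [this]
    simp only [Finset.card_empty, Nat.cast_zero]
    positivity
  · have hdet : ¬ DetR (RD_W P A y) (RD_g P A y) R0 := by
      rintro ⟨w', hw', hall⟩
      have hs := RD_spec P A y w' hw'
      generalize hge : RD_g P A y w' = e at hs hall
      induction e using Sym2.ind with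
      | _ u v =>
        apply hy
        unfold Lam
        rw [Finset.mem_filter]
        refine ⟨Finset.mem_univ _, u, hRR (hall u (Sym2.mem_mk_left u v)), v,
          hRR (hall v (Sym2.mem_mk_right u v)), Or.inl ?_⟩
        unfold NN
        rw [Finset.mem_filter]
        exact ⟨Finset.mem_univ _, _, hs.1, Or.inr ⟨rfl, Sym2.mem_mk_left y w'⟩⟩
    have hbad : badW (RD_W P A y) (RD_g P A y) R0 =
        (((RD_W P A y).filter (fun w => ¬ CovR (RD_W P A y) (RD_g P A y) R0 w ∧
          ¬ SpcR (RD_W P A y) (RD_g P A y) R0 w)).card : ℝ) := by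
      unfold badW
      rw [if_neg hdet]
    rw [hbad]
    have hsub : A.filter (fun w => (y, w) ∈ excS P A R) ⊆
        ((RD_W P A y).filter (fun w => ¬ CovR (RD_W P A y) (RD_g P A y) R0 w ∧
          ¬ SpcR (RD_W P A y) (RD_g P A y) R0 w)) ∪ ((A ∩ Lam P (insert y R)) \ Lam P R) := by
      intro w hw
      obtain ⟨hwA, hwe⟩ := Finset.mem_filter.1 hw
      obtain ⟨_, _, hwL, g, hg1, hg2, hg3, hg4⟩ := Finset.mem_filter.1 hwe
      simp only at hwL hg1 hg2 hg3 hg4
      have hPg : RD_P P A y w g := ⟨hg1, hg2, hg3⟩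
      have hwW : w ∈ RD_W P A y := Finset.mem_filter.2 ⟨hwA, g, hPg⟩
      have hgeq := RD_uniq P hP A y w g hPg
      have hcov : ¬ CovR (RD_W P A y) (RD_g P A y) R0 w := by
        rintro ⟨u, hu, ⟨x, hx, hxW, hux⟩, z, hz, w', hw', hgz⟩
        apply hg4
        refine ⟨u, hgeq ▸ hu, ⟨z, hRR hz, ?_⟩, ⟨x, hRR hx, ?_⟩⟩
        · have hs := RD_spec P A y w' hw'
          unfold NN
          rw [Finset.mem_filter]
          exact ⟨Finset.mem_univ _, _, hs.1, Or.inr ⟨hgz, Sym2.mem_mk_left y w'⟩⟩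
        · have hs := RD_spec P A y x hxW
          unfold NN
          rw [Finset.mem_filter]
          exact ⟨Finset.mem_univ _, _, hs.1, Or.inl ⟨rfl, hux⟩⟩
      by_cases hspc : SpcR (RD_W P A y) (RD_g P A y) R0 w
      · apply Finset.mem_union_right
        obtain ⟨x, hx, hxW, hxg⟩ := hspc
        rw [Finset.mem_sdiff, Finset.mem_inter]
        refine ⟨⟨hwA, ?_⟩, hwL⟩
        have hs := RD_spec P A y x hxW
        have hs' := RD_spec P A y w hwW
        unfold Lam
        rw [Finset.mem_filter]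
        refine ⟨Finset.mem_univ _, y, Finset.mem_insert_self _ _, x,
          Finset.mem_insert_of_mem (hRR hx), Or.inr ?_⟩
        unfold NP
        rw [Finset.mem_filter]
        exact ⟨Finset.mem_univ _, _, hs.1, rfl, _, hs'.1, hxg.symm, Sym2.mem_mk_right y w⟩
      · apply Finset.mem_union_left
        exact Finset.mem_filter.2 ⟨hwW, hcov, hspc⟩
    have h1 := (Finset.card_le_card hsub).trans (Finset.card_union_le _ _)
    have h2 := h1.trans (Nat.add_le_add_left hgr _)
    exact_mod_cast h2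

/-- the rows of `excS` -/
theorem RD_fib (P : GP N) (A R : Finset (Fin N)) :
    (excS P A R).card = ∑ y ∈ A, (A.filter (fun w => (y, w) ∈ excS P A R)).card := by
  have hmaps : ∀ p ∈ excS P A R, p.1 ∈ A := by
    intro p hp
    exact (Finset.mem_product.1 (Finset.mem_filter.1 hp).1).1
  rw [Finset.card_eq_sum_card_fiberwise hmaps]
  apply Finset.sum_congr rfl
  intro y hy
  refine Finset.card_bij' (fun p _ => p.2) (fun w _ => (y, w)) ?_ ?_ ?_ ?_
  · intro p hp
    obtain ⟨h1, h2⟩ := Finset.mem_filter.1 hp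
    have h3 := (Finset.mem_product.1 (Finset.mem_filter.1 h1).1).2
    refine Finset.mem_filter.2 ⟨h3, ?_⟩
    have : p = (y, p.2) := by rw [← h2]
    rw [← this]
    exact h1
  · intro w hw
    exact Finset.mem_filter.2 ⟨(Finset.mem_filter.1 hw).2, rfl⟩
  · intro p hp
    obtain ⟨_, h2⟩ := Finset.mem_filter.1 hp
    rw [← h2]
  · intro w _
    rfl

/-- The good set. Proof. For `y ∈ A` let `W y` be the set of the `w ∈ A` such that `s(y, w)` has a
partner `g y w` inside `A` not containing `y` (unique by `Valid.fn`). Take `R0` from `exists_R0` and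
`R ⊇ R0` from `exists_greedy`. Let `(y, w)` be in `excS`. Then `w ∈ W y`. `DetR (W y) (g y) R0`
fails: otherwise `g y w' = s(x, x')`, `x, x' ∈ R0`, and `y` is an end point of its preimage
`s(y, w')`, so `y ∈ Lam P R`. `w` is not covered for `R0`: `u ∈ g y x`, `x ∈ R0`, means
`u ∈ NN P s(y, x)`, so `Ar P R y u`; `g y w' = s(u, z)`, `z ∈ R0`, means `y ∈ NN P s(u, z)`, so
`Ar P R u y`; both together contradict `Exc`. If `w` is special, `g y w = g y x` with `x ∈ R0`:
then `w ∈ NP P s(y, x)`, so `w ∈ Lam P (insert y R)`, `w ∉ Lam P R`: at most `e2` such `w` for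
every `y`. Hence `|excS| ≤ ∑_y badW (W y) (g y) R0 + |A| e2`. -/
theorem exists_goodG (P : GP N) {Dl : ℕ} (hP : P.Valid Dl) (A : Finset (Fin N)) {p : ℝ}
    (hp0 : 0 < p) (hp1 : p ≤ 1) (D0 T0 k0 e2 m2 : ℕ) (hD0 : 1 ≤ D0) (hT0 : 1 ≤ T0)
    (h : A.card < (e2 + 1) * (m2 + 1)) :
    ∃ R ⊆ A, (R.card : ℝ) ≤ 3 * p * A.card + m2 ∧
      ((excS P A R).card : ℝ) ≤ 3 * (A.card * xiB p A.card D0 T0 k0) + A.card * e2 := by
  obtain ⟨R0, hR0A, hR0c, hR0s⟩ := exists_R0 hp0 hp1 A (RD_W P A)
    (fun y _ => Finset.filter_subset _ _) (RD_g P A)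
    (fun y _ w hw => ⟨hP.snd _ (RD_spec P A y w hw).1, (RD_spec P A y w hw).2.1⟩) D0 T0 k0
    hD0 hT0
  obtain ⟨R, hRA, hRR, hRc, hgr⟩ := exists_greedy P A R0 hR0A e2 m2 h
  refine ⟨R, hRA, ?_, ?_⟩
  · have : (R.card : ℝ) ≤ R0.card + m2 := by exact_mod_cast hRc
    linarith
  · rw [RD_fib, Nat.cast_sum]
    have h1 : ∑ y ∈ A, ((A.filter (fun w => (y, w) ∈ excS P A R)).card : ℝ) ≤
        ∑ y ∈ A, (badW (RD_W P A y) (RD_g P A y) R0 + (e2 : ℝ)) :=
      Finset.sum_le_sum (fun y hy => RD_row P hP A R0 R hRR e2 y (hgr y hy))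
    rw [Finset.sum_add_distrib, Finset.sum_const, nsmul_eq_mul] at h1
    linarith

end C0st
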