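import Pool.Agent.W_c0up_h14.AM

/-!
# MP_c0ce05_co, upper bounds: parameters of the random sets
-/

set_option autoImplicit false

namespace C0st

open Filter

/-- Choice of `p, D1 = k0, T0`. Proof: `p = η / 10 ^ 5`; `D1 = k0 ≥ 1` with
`(1 - p) ^ D1 ≤ η / 10 ^ 6`; `T0 ≥ 1` with `(p⁻² + 2 D1 p⁻¹) / T0 ≤ η / 10 ^ 6`. Then for `q ≤ 3 L`
`3 q xiB ≤ 3 q² * 4 η / 10 ^ 6 + 3 q T0 k0 ≤ .00011 η L² + 9 T0 k0 L`; `L_small`, `sqrt_small`. -/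
theorem exc_small {η : ℝ} (h0 : 0 < η) (h1 : η ≤ 1 / 200) :
    ∃ (D1 T0 k0 : ℕ), 1 ≤ D1 ∧ 1 ≤ T0 ∧ ∀ᶠ N : ℕ in atTop,
      3 * (qf η N * xiB (η / 10 ^ 5) (qf η N) D1 T0 k0) +
        qf η N * (Nat.sqrt (qf η N) : ℝ) ≤ η / 1000 * Real.logb 2 N ^ 2 := by
  have hp0 : 0 < η / 10 ^ 5 := by positivity
  have he0 : 0 < η / 10 ^ 6 := by positivity
  have hp1 : η / 10 ^ 5 < 1 := by
    have : η / 10 ^ 5 ≤ η := div_le_self h0.le (by norm_num)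
    linarith
  obtain ⟨D, hD⟩ := exists_pow_lt_of_lt_one he0 (show 1 - η / 10 ^ 5 < 1 by linarith)
  have hx1 : (1 - η / 10 ^ 5) ^ (D + 1) ≤ η / 10 ^ 6 := by
    have : (1 - η / 10 ^ 5) ^ (D + 1) ≤ (1 - η / 10 ^ 5) ^ D :=
      pow_le_pow_of_le_one (by linarith) (by linarith) (Nat.le_succ D)
    linarith
  have hx0 : 0 ≤ (1 - η / 10 ^ 5) ^ (D + 1) := pow_nonneg (by linarith) _
  obtain ⟨T, hT⟩ := exists_nat_gt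
    (((η / 10 ^ 5)⁻¹ ^ 2 + 2 * ((D + 1 : ℕ) : ℝ) * (η / 10 ^ 5)⁻¹) / (η / 10 ^ 6))
  have hT0 : (0 : ℝ) < ((T + 1 : ℕ) : ℝ) := by exact_mod_cast Nat.succ_pos T
  have hx2 : ((η / 10 ^ 5)⁻¹ ^ 2 + 2 * ((D + 1 : ℕ) : ℝ) * (η / 10 ^ 5)⁻¹) / ((T + 1 : ℕ) : ℝ) ≤
      η / 10 ^ 6 := by
    rw [div_lt_iff₀ he0] at hT
    rw [div_le_iff₀ hT0, Nat.cast_add T 1, Nat.cast_one]
    nlinarith
  refine ⟨D + 1, T + 1, D + 1, by omega, by omega, ?_⟩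
  filter_upwards [qf_le h0 h1,
    L_small (9 * ((T + 1 : ℕ) : ℝ) * ((D + 1 : ℕ) : ℝ)) (δ := η / 10 ^ 4) (by positivity),
    sqrt_small h0 h1 (δ := η / 10 ^ 4) (by positivity)] with N hq hL hs
  unfold xiB
  generalize ((η / 10 ^ 5)⁻¹ ^ 2 + 2 * ((D + 1 : ℕ) : ℝ) * (η / 10 ^ 5)⁻¹) / ((T + 1 : ℕ) : ℝ) = x2
    at hx2 ⊢
  generalize (1 - η / 10 ^ 5) ^ (D + 1) = x1 at hx1 hx0 ⊢
  generalize hkk : ((D + 1 : ℕ) : ℝ) = k at hL ⊢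
  generalize ((T + 1 : ℕ) : ℝ) = t at hT0 hL ⊢
  have hk0 : 0 ≤ k := by rw [← hkk]; positivity
  have hq0 : (0 : ℝ) ≤ (qf η N : ℝ) := Nat.cast_nonneg _
  generalize (Nat.sqrt (qf η N) : ℝ) = sq at hs ⊢
  generalize (qf η N : ℝ) = q at hq hq0 hs ⊢
  generalize Real.logb 2 (N : ℝ) = L at hq hL hs ⊢
  have hL0 : 0 ≤ L := by linarith
  have hq2 : q ^ 2 ≤ 9 * L ^ 2 := by nlinarith
  have e1 : 3 * (q * (q * (2 * x1) + q * x2 + t * k + q * x1)) =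
      3 * q ^ 2 * (3 * x1 + x2) + 3 * q * (t * k) := by ring
  have e2 : 3 * q ^ 2 * (3 * x1 + x2) ≤ 3 * q ^ 2 * (4 * (η / 10 ^ 6)) :=
    mul_le_mul_of_nonneg_left (by linarith) (by positivity)
  have e3 : 3 * q ^ 2 * (4 * (η / 10 ^ 6)) ≤ 3 * (9 * L ^ 2) * (4 * (η / 10 ^ 6)) :=
    mul_le_mul_of_nonneg_right (by linarith) (by positivity)
  have e4 : 3 * q * (t * k) ≤ 3 * (3 * L) * (t * k) :=
    mul_le_mul_of_nonneg_right (by linarith) (by positivity)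
  have e5 : 0 ≤ t * k := by positivity
  have e6 : 0 ≤ η * L ^ 2 := by positivity
  rw [e1]
  have e7 : 3 * (3 * L) * (t * k) ≤ η / 10 ^ 4 * L ^ 2 := by nlinarith
  have e8 : 3 * (9 * L ^ 2) * (4 * (η / 10 ^ 6)) + η / 10 ^ 4 * L ^ 2 + η / 10 ^ 4 * L ^ 2 ≤
      η / 1000 * L ^ 2 := by
    have : η / 1000 * L ^ 2 - (3 * (9 * L ^ 2) * (4 * (η / 10 ^ 6)) + η / 10 ^ 4 * L ^ 2 +
      η / 10 ^ 4 * L ^ 2) = η * L ^ 2 * (692 / 10 ^ 6) := by ring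
    nlinarith
  linarith

end C0st
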