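import Pool.Agent.W_c0up_h14.AE
import Pool.Agent.W_c0up_h14.AX

/-!
# MP_c0ce05_co, upper bounds: choice of the parameters
-/

set_option autoImplicit false

namespace C0st

open Filter

theorem AS_Df_le (N : ℕ) : (Df N : ℝ) ≤ 10 * Real.logb 2 N ^ 2 :=
  Nat.floor_le (by positivity)

theorem AS_x0 {L q D M : ℝ} (hL : 1 ≤ L) (hq0 : 0 ≤ q) (hq : q ≤ 3 * L) (hD0 : 0 ≤ D)
    (hD : D ≤ 10 * L ^ 2) (hM : 6048 * L ^ 4 ≤ M) (hM1 : 1 ≤ M) :
    16 * (q ^ 2 * (2 + 4 * D)) ≤ M ^ 2 := by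
  have hq2 : q ^ 2 ≤ 9 * L ^ 2 := by nlinarith
  have hL2 : 1 ≤ L ^ 2 := by nlinarith
  have h2 : 2 + 4 * D ≤ 42 * L ^ 2 := by nlinarith
  have h3 : q ^ 2 * (2 + 4 * D) ≤ 9 * L ^ 2 * (42 * L ^ 2) :=
    mul_le_mul hq2 h2 (by linarith) (by positivity)
  have h4 : 16 * (q ^ 2 * (2 + 4 * D)) ≤ 6048 * L ^ 4 := by nlinarith
  have h5 : M ≤ M ^ 2 := by nlinarith
  linarith

theorem AS_errP {η L q n0 eps n2 : ℝ} (h0 : 0 < η) (hL : 0 ≤ L) (hq0 : 0 ≤ q)
    (hq : q ≤ 3 * L) (hn0 : 30000 / η ≤ n0) (heps : eps = η / 30000) (hn2 : 2000 / η ≤ n2)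
    (hs : 3 * L + 3 ≤ η / 1000 * L ^ 2) :
    q + 16 * q ^ 2 / n0 + 16 * (eps * q ^ 2) + η / 1000 * L ^ 2 + q ^ 2 / n2 ≤
      3 / 100 * η * L ^ 2 := by
  have hq2 : q ^ 2 ≤ 9 * L ^ 2 := by nlinarith
  have hp0 : 0 < n0 := lt_of_lt_of_le (by positivity) hn0
  have hp2 : 0 < n2 := lt_of_lt_of_le (by positivity) hn2
  have hA : 30000 ≤ η * n0 := by
    rw [div_le_iff₀ h0] at hn0
    linarith
  have hB : 2000 ≤ η * n2 := by
    rw [div_le_iff₀ h0] at hn2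
    linarith
  have hL2 : 0 ≤ L ^ 2 := by positivity
  have h1 : 16 * q ^ 2 / n0 ≤ 144 / 30000 * (η * L ^ 2) := by
    rw [div_le_iff₀ hp0]
    have : 144 * L ^ 2 ≤ 144 / 30000 * (η * L ^ 2) * n0 := by
      have := mul_le_mul_of_nonneg_left hA hL2
      nlinarith
    linarith
  have h2 : q ^ 2 / n2 ≤ 9 / 2000 * (η * L ^ 2) := by
    rw [div_le_iff₀ hp2]
    have : 9 * L ^ 2 ≤ 9 / 2000 * (η * L ^ 2) * n2 := by
      have := mul_le_mul_of_nonneg_left hB hL2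
      nlinarith
    linarith
  have h3 : 16 * (eps * q ^ 2) ≤ 144 / 30000 * (η * L ^ 2) := by
    rw [heps]
    have := mul_le_mul_of_nonneg_left hq2 h0.le
    nlinarith
  have h4 : 0 ≤ η * L ^ 2 := by positivity
  linarith

theorem AS_errG {η L q l N1 X Y : ℝ} (h0 : 0 < η) (h1 : η ≤ 1 / 200) (hL : 0 ≤ L) (hl : 0 < l)
    (hN : N1 ≤ (L + 1) * l) (hX : X ≤ 1 / 1000 * η * L ^ 2 * l)
    (hY : Y ≤ 1 / 1000 * η * l * L ^ 2) (hs : 5 * L + 5 ≤ η / 1000 * L ^ 2) :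
    57 / 100 * η * L * N1 + X + Y + 4 * l ≤ 575 / 1000 * η * L ^ 2 * l := by
  have h2 : 57 / 100 * η * L * N1 ≤ 57 / 100 * η * L * ((L + 1) * l) :=
    mul_le_mul_of_nonneg_left hN (by positivity)
  have h3 : (5 * L + 5) * l ≤ η / 1000 * L ^ 2 * l := mul_le_mul_of_nonneg_right hs hl.le
  have h4 : 57 / 100 * η * L * l ≤ L * l := by
    have : 57 / 100 * η * (L * l) ≤ 1 * (L * l) :=
      mul_le_mul_of_nonneg_right (by linarith) (by positivity)
    linarith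
  have h5 : 0 ≤ L * l := by positivity
  nlinarith

theorem AS_cost {η L q s l N1 P np : ℝ} (h0 : 0 < η) (h1 : η ≤ 1 / 200) (hL : 0 ≤ L) (hl : 0 < l)
    (hq0 : 0 ≤ q) (hq : q ≤ 3 * L) (hN : N1 ≤ (L + 1) * l) (hP : P = η / 10 ^ 5)
    (hS : s * N1 ≤ 1 / 1000 * η * l * L ^ 2) (hs : (1 + np) * L + (1 + np) ≤ η / 1000 * L ^ 2)
    (hnp : 0 ≤ np) (hN0 : 0 ≤ N1) :
    (3 * P * q + s) * N1 + np * (L * l) ≤ 5 / 1000 * η * L ^ 2 * l := by
  have h2 : 3 * P * q ≤ 9 * η / 10 ^ 5 * L := by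
    rw [hP]
    have := mul_le_mul_of_nonneg_left hq h0.le
    nlinarith
  have h3 : 3 * P * q * N1 ≤ 9 * η / 10 ^ 5 * L * ((L + 1) * l) :=
    mul_le_mul h2 hN hN0 (by positivity)
  have h4 : ((1 + np) * L + (1 + np)) * l ≤ η / 1000 * L ^ 2 * l :=
    mul_le_mul_of_nonneg_right hs hl.le
  have h5 : 0 ≤ L * l := by positivity
  have h6 : 9 * η / 10 ^ 5 * (L * l) ≤ L * l := by
    have : 9 * η / 10 ^ 5 * (L * l) ≤ 1 * (L * l) :=
      mul_le_mul_of_nonneg_right (by linarith) (by positivity)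
    linarith
  have h7 : 0 ≤ np * l := by positivity
  have h8 : 0 ≤ η * L ^ 2 * l := by positivity
  nlinarith

/-- Choice of the parameters. Proof: `n0 = ⌈30000/η⌉₊`, `n = 2 ⌈2000/η⌉₊`, `eps = η/30000`,
`r = ⌈200000 n0/η⌉₊`, `p = η/10^5`, `D1, T0, k0` from `exc_small`, `np = ⌈4 r/eps⌉₊`.
`errP`: `q ≤ 3 L`, `16 q²/n0 ≤ .0048 η L²`, `16 eps q² ≤ .0048 η L²`, `E0 = .001 η L²`,
`q²/(n/2+1) ≤ .0045 η L²`, `q ≤ .001 η L²` (`L_small`). `errS`, `errG`: `hub_small`, `deg_small`,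
`log_succ_le`, `L_small`. `errT`: `err_small`. `x0`: `Mf_large`. `pin2`: `q > 4 r/eps`.
`pin1`: `log M = log N / r → ∞`. `cost`: `3 p q log (N+1) ≤ .0001 η L² ` etc., `sqrt_small2`,
`L_small`. -/
theorem exists_params {η : ℝ} (h0 : 0 < η) (h1 : η ≤ 1 / 200) :
    ∃ (r n0 n D1 T0 k0 np : ℕ) (p eps : ℝ), ∀ᶠ N : ℕ in atTop,
      Big η (Mf r N) eps (η / 1000 * Real.logb 2 N ^ 2) N r n0 n (qf η N)
        ⌊η * Real.logb 2 N ^ 2⌋₊ (Df N) (D0f η n N) ∧
      Fam η (Mf r N) eps (η / 1000 * Real.logb 2 N ^ 2) p N (qf η N) D1 T0 k0 np := by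
  obtain ⟨D1, T0, k0, hD1, hT0, hexc⟩ := exc_small h0 h1
  set n0 : ℕ := ⌈30000 / η⌉₊ with hn0d
  set n : ℕ := 2 * ⌈2000 / η⌉₊ with hnd
  set eps : ℝ := η / 30000 with hepsd
  set r : ℕ := ⌈200000 * (n0 : ℝ) / η⌉₊ with hrd
  set np : ℕ := ⌈4 * (r : ℝ) / eps⌉₊ with hnpd
  have heps0 : 0 < eps := by positivity
  have hn0le : 30000 / η ≤ (n0 : ℝ) := Nat.le_ceil _
  have hn0pos : (1 : ℝ) ≤ n0 := by
    have : (1 : ℝ) ≤ 30000 / η := by
      rw [le_div_iff₀ h0]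
      linarith
    linarith
  have hn01 : 1 ≤ n0 := by exact_mod_cast hn0pos
  have hrle : 200000 * (n0 : ℝ) / η ≤ (r : ℝ) := Nat.le_ceil _
  have hrle' : 200000 * (n0 : ℝ) ≤ r * η := by
    rwa [div_le_iff₀ h0] at hrle
  have hr2' : (2 : ℝ) ≤ r := by
    have h2 : (200000 : ℝ) ≤ r * η := by nlinarith
    have hr0 : (0 : ℝ) ≤ r := Nat.cast_nonneg _
    nlinarith
  have hr2 : 2 ≤ r := by exact_mod_cast hr2'
  have hr1 : 1 ≤ r := by omega
  have hr0 : (0 : ℝ) < r := by linarith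
  have hnple : 4 * (r : ℝ) / eps ≤ (np : ℝ) := Nat.le_ceil _
  have hnple' : 4 * (r : ℝ) ≤ np * eps := by
    rwa [div_le_iff₀ heps0] at hnple
  have hn2 : 2000 / η ≤ ((n / 2 + 1 : ℕ) : ℝ) := by
    have : n / 2 = ⌈2000 / η⌉₊ := by omega
    rw [this]
    push_cast
    have := Nat.le_ceil (2000 / η)
    linarith
  have hlog2 : 0 < Real.log 2 := Real.log_pos (by norm_num)
  refine ⟨r, n0, n, D1, T0, k0, np, η / 10 ^ 5, eps, ?_⟩
  have hL1 : ∀ᶠ N : ℕ in atTop, 1 ≤ Real.logb 2 N := L_tendsto.eventually_ge_atTop 1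
  have hLb : ∀ᶠ N : ℕ in atTop, 2 * r / (eps * Real.log 2) ≤ Real.logb 2 N :=
    L_tendsto.eventually_ge_atTop _
  have hLc : ∀ᶠ N : ℕ in atTop, 4 * r / eps < Real.logb 2 N :=
    L_tendsto.eventually_gt_atTop _
  have hη3 : 0 < η / 1000 := by positivity
  have hub : 81 * (n0 : ℝ) ≤ η / 1000 / 2 * r := by nlinarith
  have hδ : 0 < 1 / 1000 * η * Real.log 2 := by positivity
  have hδ2 : 0 < 1 / 100 * η * Real.log 2 := by positivity
  filter_upwards [eventually_ge_atTop 2, hL1, hLb, hLc, qf_le h0 h1, qf_ge h0,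
    Mf_large hr1 16 0, Mf_large hr1 6048 4, L_small 3 hη3, L_small 5 hη3,
    L_small (1 + (np : ℝ)) hη3, hub_small h0 h1 r n0 hr1 hη3 hub, deg_small h0 h1 n hδ,
    err_small h0 h1 r n0 n hr1 hn01 hδ2, hexc, sqrt_small2 h0 h1 hδ,
    L_small 1 (show 0 < 1 / 100 * η by positivity)] with N hN2 hL1 hLb hLc hq hq' hM16 hMx hs3 hs5
    hsnp hhub hdeg herr hexc hsq hs1
  have hN1 : 1 ≤ N := by omega
  have hNR : (2 : ℝ) ≤ N := by exact_mod_cast hN2
  set L := Real.logb 2 N with hLd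
  have hL0 : 0 ≤ L := by linarith
  have hq0 : (0 : ℝ) ≤ (qf η N : ℝ) := Nat.cast_nonneg _
  have hq1' : (1 : ℝ) ≤ (qf η N : ℝ) := by linarith
  have hq1 : 1 ≤ qf η N := by exact_mod_cast hq1'
  have hM16' : 16 ≤ Mf r N := by simpa using hM16
  have hlogN : Real.log N = L * Real.log 2 := log_eq N
  have hlogM : Real.log (Mf r N) = Real.log N / r := log_Mf hN1
  have hlogpos : 0 < Real.log N := by
    rw [hlogN]
    positivity
  have hlogs := log_succ_le hN1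
  have hlog16 : Real.log 16 = 4 * Real.log 2 := by
    rw [show (16 : ℝ) = 2 ^ 4 by norm_num, Real.log_pow]
    norm_num
  have hlsn : 0 ≤ Real.log ((N : ℝ) + 1) := Real.log_nonneg (by linarith)
  constructor
  · constructor
    · exact h0
    · exact h1
    · exact hN2
    · exact hr2
    · exact hn01
    · exact hM16'
    · exact Mf_pow hr1
    · exact hq1
    · exact le_refl _
    · exact AS_x0 hL1 hq0 hq (Nat.cast_nonneg _) (AS_Df_le N) hMx (by linarith)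
    · exact Nat.le_ceil _
    · exact Nat.floor_le (by positivity)
    · exact AS_errP h0 hL0 hq0 hq hn0le hepsd hn2 hs3
    · calc (qf η N : ℝ) * Real.log (qf η N * Mf r N ^ (27 * n0) + 1) ≤
          η / 1000 * L ^ 2 * Real.log 2 := hhub
        _ = 1 / 1000 * η * L ^ 2 * Real.log 2 := by ring
    · rw [hlog16]
      exact AS_errG (q := (qf η N : ℝ)) h0 h1 hL0 hlog2 hlogs
        (le_trans hhub (le_of_eq (by ring))) hdeg hs5
    · calc (r : ℝ) * errK (Mf r N) N r n0 r (D0f η n N) (Df N) (qf η N) ≤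
          1 / 100 * η * Real.log 2 * L ^ 2 := herr
        _ = 1 / 100 * η * L ^ 2 * Real.log 2 := by ring
    · linarith
  · constructor
    · exact hN2
    · exact hq1
    · linarith
    · positivity
    · rw [div_le_one (by norm_num)]
      linarith
    · exact hD1
    · exact hT0
    · exact hexc
    · exact heps0
    · rw [hlogM, hlogN]
      rw [div_le_iff₀ (by positivity)] at hLb
      rw [← mul_div_assoc, le_div_iff₀ hr0]
      linarith
    · rw [hlogM]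
      rw [div_lt_iff₀ heps0] at hLc
      have h2 : 4 * (r : ℝ) < qf η N * eps := by nlinarith
      have h3 : (qf η N : ℝ) * (eps / 4) * (Real.log N / r) =
        (qf η N * eps / (4 * r)) * Real.log N := by
        field_simp
      rw [h3]
      have h4 : 1 < qf η N * eps / (4 * r) := by
        rw [lt_div_iff₀ (by positivity)]
        linarith
      nlinarith
    · rw [hlogM]
      have h3 : (np : ℝ) * (eps * (Real.log N / r)) = (np * eps / r) * Real.log N := by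
        field_simp
      rw [h3]
      have h4 : 4 ≤ np * eps / r := by
        rw [le_div_iff₀ hr0]
        linarith
      nlinarith
    · rw [hlogN]
      exact AS_cost h0 h1 hL0 hlog2 hq0 hq hlogs rfl hsq hsnp (Nat.cast_nonneg _) hlsn

end C0st
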