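import Pool.Agent.W_c0up_h14.MN
import Pool.Agent.W_c0up_h14.FR
import Pool.Agent.W_c0up_h14.AS

/-!
# MP_c0ce05_co, upper bounds: the static theorem
-/

set_option autoImplicit false

namespace C0st

open scoped Classical
open C0lo

/-- Legal positions are legal for a larger in-degree. -/
theorem Valid_mono {N : ℕ} {P : GP N} {Dl Dm : ℕ} (h : P.Valid Dl) (hle : Dl ≤ Dm) :
    P.Valid Dm :=
  { h with indeg := fun g => (h.indeg g).trans hle }

/-- The static theorem. Proof: `exists_params`, `static_main` for `Dm = ⌊10 L²⌋₊` (`Valid_mono`). If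
`near` is empty, clear; otherwise `exists_family` and
`log |near| ≤ (575 + 5)/1000 η L² log 2`. -/
theorem static {η : ℝ} (h0 : 0 < η) (h1 : η ≤ 1 / 200) :
    ∀ᶠ N : ℕ in Filter.atTop, ∃ (ι : Type) (_ : Fintype ι) (Z : ι → Finset (Sym2 (Fin N)))
      (a : ι → ℝ), (∀ i, 0 ≤ a i) ∧ ∑ i, a i * (1 / 2 : ℝ) ^ (Z i).card ≤ 1 / 4 ∧
      ∀ Dl : ℕ, (Dl : ℝ) ≤ 10 * Real.logb 2 N ^ 2 → ∀ P : GP N, P.Valid Dl →
        ∑ i, a i * P.mass (Z i) < 1 →
        ((P.near ⌈(2 + 20 * η) * Real.logb 2 N⌉₊ ⌊η * Real.logb 2 N ^ 2⌋₊).card : ℝ) ≤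
          2 ^ (58 / 100 * η * Real.logb 2 N ^ 2) := by
  obtain ⟨r, n0, n, D1, T0, k0, np, p, eps, hev⟩ := exists_params h0 h1
  filter_upwards [hev] with N hN
  obtain ⟨hB, hF⟩ := hN
  obtain ⟨ι, inst, Z, a, ha, hs, hmain⟩ := static_main hB
  refine ⟨ι, inst, Z, a, ha, hs, ?_⟩
  intro Dl hDl P hP hm
  have hDl' : Dl ≤ Df N := Nat.le_floor hDl
  have hV : P.Valid (Df N) := Valid_mono hP hDl'
  change ((P.near (qf η N) ⌊η * Real.logb 2 N ^ 2⌋₊).card : ℝ) ≤ _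
  by_cases hne : (P.near (qf η N) ⌊η * Real.logb 2 N ^ 2⌋₊).Nonempty
  · obtain ⟨C, R, hCsub, hCne, hR, hexc, hbad, hlog⟩ := exists_family hF P hV hne
    have h2 := hmain P hV hm C R hCsub hCne hR hexc hbad
    have hc : (0 : ℝ) < ((P.near (qf η N) ⌊η * Real.logb 2 N ^ 2⌋₊).card : ℝ) := by
      exact_mod_cast Finset.card_pos.2 hne
    have hpos : (0 : ℝ) < 2 ^ (58 / 100 * η * Real.logb 2 N ^ 2) :=
      Real.rpow_pos_of_pos (by norm_num) _
    rw [← Real.log_le_log_iff hc hpos, Real.log_rpow (by norm_num)]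
    calc Real.log ((P.near (qf η N) ⌊η * Real.logb 2 N ^ 2⌋₊).card : ℝ)
        ≤ Real.log (C.card : ℝ) + 5 / 1000 * η * Real.logb 2 N ^ 2 * Real.log 2 := hlog
      _ ≤ 575 / 1000 * η * Real.logb 2 N ^ 2 * Real.log 2 +
          5 / 1000 * η * Real.logb 2 N ^ 2 * Real.log 2 := by linarith
      _ = 58 / 100 * η * Real.logb 2 N ^ 2 * Real.log 2 := by ring
  · rw [Finset.not_nonempty_iff_eq_empty] at hne
    rw [hne, Finset.card_empty, Nat.cast_zero]
    positivity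

end C0st
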