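import Pool.Agent.W_c0up_h14.Defs

/-!
# MP_c0ce05_co, upper bounds for both numbers: general positions

A general position `(C, K, db)`: `C` = edges of Maker (Avoider), `K` = edges of Breaker (Forcer),
`db` = graph of a partner function `e ↦ p(e)` defined on a part of `C`; every edge is the partner
of at most `Dl` edges; `p(e)` is claimed later than `e` or never.
-/

set_option autoImplicit false

namespace C0st

open scoped Classical
open C0lo

variable {N r : ℕ}

/-- general positions -/
structure GP (N : ℕ) where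
  /-- the edges of Maker (Avoider) -/
  C : Finset (Sym2 (Fin N))
  /-- the edges of Breaker (Forcer) -/
  K : Finset (Sym2 (Fin N))
  /-- the pairs `(e, p(e))` -/
  db : Finset (Sym2 (Fin N) × Sym2 (Fin N))

/-- legal general positions -/
structure GP.Valid (P : GP N) (Dl : ℕ) : Prop where
  /-- no loops -/
  ndC : ∀ e ∈ P.C, ¬ e.IsDiag
  /-- no loops -/
  ndK : ∀ e ∈ P.K, ¬ e.IsDiag
  /-- disjoint -/
  disj : Disjoint P.C P.K
  /-- the first edge is claimed -/
  fst : ∀ d ∈ P.db, d.1 ∈ P.C
  /-- the partner is not a loop -/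
  snd : ∀ d ∈ P.db, ¬ d.2.IsDiag
  /-- at most one partner -/
  fn : ∀ d ∈ P.db, ∀ d' ∈ P.db, d.1 = d'.1 → d = d'
  /-- in-degree -/
  indeg : ∀ g, (P.db.filter (fun d => d.2 = g)).card ≤ Dl
  /-- acyclic -/
  acyc : ∃ t : Sym2 (Fin N) → ℕ, ∀ d ∈ P.db, t d.1 < t d.2

/-- the discounted mass of an edge set -/
noncomputable def GP.mass (P : GP N) (Z : Finset (Sym2 (Fin N))) : ℝ :=
  if Disjoint Z P.K then (1 / 2) ^ (Z \ P.C).card *
    (3 / 4) ^ (P.db.filter (fun d => d.1 ∈ Z ∧ d.2 ∈ Z)).card else 0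

/-- the alive cliques with at most `h` unclaimed edges -/
noncomputable def GP.near (P : GP N) (q h : ℕ) : Finset (Finset (Fin N)) :=
  Finset.univ.filter (fun A => A.card = q ∧ Disjoint (ed A) P.K ∧ (ed A \ P.C).card ≤ h)

/-- end points of the partner and of the preimages of an edge -/
noncomputable def NN (P : GP N) (f : Sym2 (Fin N)) : Finset (Fin N) :=
  Finset.univ.filter (fun x => ∃ d ∈ P.db, (d.1 = f ∧ x ∈ d.2) ∨ (d.2 = f ∧ x ∈ d.1))

/-- end points of the preimages of the partner of an edge -/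
noncomputable def NP (P : GP N) (f : Sym2 (Fin N)) : Finset (Fin N) :=
  Finset.univ.filter (fun x => ∃ d ∈ P.db, d.1 = f ∧ ∃ d' ∈ P.db, d'.2 = d.2 ∧ x ∈ d'.1)

/-- the vertices determined by pairs of vertices of `S` -/
noncomputable def Lam (P : GP N) (S : Finset (Fin N)) : Finset (Fin N) :=
  Finset.univ.filter (fun x => ∃ u ∈ S, ∃ v ∈ S, x ∈ NN P s(u, v) ∨ x ∈ NP P s(u, v))

/-- `a → b` relative to `R` -/
def Ar (P : GP N) (R : Finset (Fin N)) (a b : Fin N) : Prop := ∃ x ∈ R, b ∈ NN P s(a, x)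

/-- `b` is reached from `a` in at most `n` steps -/
def Rch (P : GP N) (R : Finset (Fin N)) : ℕ → Fin N → Fin N → Prop
  | 0, a, b => a = b
  | (n + 1), a, b => Rch P R n a b ∨ ∃ c, Rch P R n a c ∧ Ar P R c b

/-- the exceptional ordered pairs `(y, w)`: the partner of the edge `yw` is inside `A`, does not
contain `y` and has no end point `u` with `u → y` and `y → u` -/
def Exc (P : GP N) (A R : Finset (Fin N)) (y w : Fin N) : Prop :=
  ∃ g, (s(y, w), g) ∈ P.db ∧ (∀ x ∈ g, x ∈ A) ∧ y ∉ g ∧ ¬ ∃ u ∈ g, Ar P R u y ∧ Ar P R y u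

/-- the order of the vertices by type, then by number -/
def Bef (ty : Fin N → Fin (r + 2)) (a b : Fin N) : Prop :=
  ty a < ty b ∨ (ty a = ty b ∧ a < b)

/-- the state of a general position, typed by the family `C`, relation by `R` and `n` steps -/
noncomputable def stG (M : ℝ) (r : ℕ) (P : GP N) (C : Finset (Finset (Fin N)))
    (R : Finset (Fin N)) (n : ℕ) : St N r where
  ty := typ M r C
  rel := Finset.univ.filter (fun p => Bef (typ M r C) p.1 p.2 ∧ Rch P R n p.1 p.2)
  dead := P.K
  clm := P.C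
  db := P.db

end C0st
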