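import Pool.Agent.W_c0up_h14.AM

/-!
# MP_c0ce05_co, upper bounds: the error of the steps
-/

set_option autoImplicit false

namespace C0st

open Filter

/-- The error of the steps. Proof: `q ≤ 3 L`, `Df N ≤ 10 L²`, `D0f ≤ (100 L³)^n`; the numerators of
the first and the last summand of `errK` are at most polynomials in `L` (for fixed `n, r, n0`),
`M ^ 3, M ^ 4 ≥ M` is larger (`Mf_large`); the other summands: `L_small`, `deg_small`. -/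
theorem err_small {η : ℝ} (h0 : 0 < η) (h1 : η ≤ 1 / 200) (r n0 n : ℕ) (hr : 1 ≤ r)
    (hn0 : 1 ≤ n0) {δ : ℝ} (hδ : 0 < δ) :
    ∀ᶠ N : ℕ in atTop, r * errK (Mf r N) N r n0 r (D0f η n N) (Df N) (qf η N) ≤
      δ * Real.logb 2 N ^ 2 := by
  have hr0 : (0 : ℝ) < r := by exact_mod_cast hr
  have hr1 : (1 : ℝ) ≤ r := by exact_mod_cast hr
  have hn1 : (1 : ℝ) ≤ n0 := by exact_mod_cast hn0
  have ha1 : 0 ≤ Real.log (4 * n0 * r) := Real.log_nonneg (by nlinarith)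
  have ha2 : 0 ≤ Real.log (16 * ((r : ℝ) + 3)) := Real.log_nonneg (by linarith)
  have hlog2 : Real.log 2 ≤ 1 := by
    have := Real.log_two_lt_d9
    linarith
  have hlog0 : 0 ≤ Real.log 2 := Real.log_nonneg (by norm_num)
  filter_upwards [qf_le h0 h1, D0f_le h0 h1 n, Mf_large hr 1 0,
    Mf_large hr (Real.log (4 * n0 * r) + 36 * 100 ^ n * ((r : ℝ) + 1) ^ 2 *
      (Real.log (16 * ((r : ℝ) + 3)) + 11)) (3 * n + 3),
    Mf_large hr (2 ^ (r + 1) * 99) 4, deg_small h0 h1 n (δ := δ / (2 * r)) (by positivity),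
    L_small ((r : ℝ) * (r + 3)) (δ := δ / 2) (by positivity),
    L_tendsto.eventually_ge_atTop 1] with N hq hD0 hM1 hMA hMD hdeg hLs hL1
  have hDf : (Df N : ℝ) ≤ 10 * Real.logb 2 N ^ 2 := Nat.floor_le (by positivity)
  have hDf0 : (0 : ℝ) ≤ (Df N : ℝ) := Nat.cast_nonneg _
  have hq0 : (0 : ℝ) ≤ (qf η N : ℝ) := Nat.cast_nonneg _
  have hD00 : (0 : ℝ) ≤ (D0f η n N : ℝ) := Nat.cast_nonneg _
  unfold errK
  rw [log_eq N]
  generalize Real.log (4 * n0 * r) = a1 at ha1 hMA ⊢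
  generalize Real.log (16 * ((r : ℝ) + 3)) = a2 at ha2 hMA ⊢
  generalize (qf η N : ℝ) * Real.log (qf η N * D0f η n N + 1) = QL at hdeg ⊢
  generalize (Df N : ℝ) = dl at hDf hDf0 ⊢
  generalize (D0f η n N : ℝ) = d0 at hD0 hD00 ⊢
  generalize (qf η N : ℝ) = q at hq hq0 ⊢
  generalize Real.logb 2 (N : ℝ) = L at hq hD0 hM1 hMA hMD hdeg hLs hL1 hDf ⊢
  generalize Mf r N = M at hM1 hMA hMD ⊢
  rw [pow_zero, mul_one] at hM1
  have hL0 : 0 ≤ L := by linarith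
  have hq2 : q ^ 2 ≤ 9 * L ^ 2 := by nlinarith
  have hL3 : 1 ≤ L ^ (3 * n) := one_le_pow₀ hL1
  have h100 : (1 : ℝ) ≤ 100 ^ n := one_le_pow₀ (by norm_num)
  have hprod : 1 ≤ (100 : ℝ) ^ n * L ^ (3 * n) := by nlinarith
  have hD1 : d0 + 1 ≤ 2 * (100 ^ n * L ^ (3 * n)) := by
    rw [mul_pow, ← pow_mul] at hD0
    linarith
  have hM3 : M ≤ M ^ 3 := by
    have := pow_le_pow_right₀ hM1 (show 1 ≤ 3 by norm_num)
    rwa [pow_one] at this
  have hM4 : M ≤ M ^ 4 := by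
    have := pow_le_pow_right₀ hM1 (show 1 ≤ 4 by norm_num)
    rwa [pow_one] at this
  have hM3p : 0 < M ^ 3 := by positivity
  have hM4p : 0 < M ^ 4 := by positivity
  have hfac : a2 + 11 * (L * Real.log 2) ≤ (a2 + 11) * L := by nlinarith
  have hfac0 : 0 ≤ a2 + 11 * (L * Real.log 2) := by positivity
  have hA : a1 + 2 * ((d0 + 1) * ((r : ℝ) + 1) ^ 2 * q ^ 2) * (a2 + 11 * (L * Real.log 2)) ≤
      (a1 + 36 * 100 ^ n * ((r : ℝ) + 1) ^ 2 * (a2 + 11)) * L ^ (3 * n + 3) := by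
    have e1 : (d0 + 1) * ((r : ℝ) + 1) ^ 2 * q ^ 2 ≤
        (2 * (100 ^ n * L ^ (3 * n))) * ((r : ℝ) + 1) ^ 2 * (9 * L ^ 2) := by
      apply mul_le_mul _ hq2 (by positivity) (by positivity)
      exact mul_le_mul_of_nonneg_right hD1 (by positivity)
    have e2 : 2 * ((d0 + 1) * ((r : ℝ) + 1) ^ 2 * q ^ 2) * (a2 + 11 * (L * Real.log 2)) ≤
        2 * ((2 * (100 ^ n * L ^ (3 * n))) * ((r : ℝ) + 1) ^ 2 * (9 * L ^ 2)) *
          ((a2 + 11) * L) := by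
      apply mul_le_mul _ hfac hfac0 (by positivity)
      linarith
    have e3 : 2 * ((2 * (100 ^ n * L ^ (3 * n))) * ((r : ℝ) + 1) ^ 2 * (9 * L ^ 2)) *
          ((a2 + 11) * L) = 36 * 100 ^ n * ((r : ℝ) + 1) ^ 2 * (a2 + 11) * L ^ (3 * n + 3) := by
      rw [pow_add]; ring
    have e4 : a1 ≤ a1 * L ^ (3 * n + 3) := le_mul_of_one_le_right ha1 (one_le_pow₀ hL1)
    rw [add_mul]
    linarith
  have hA1 : (a1 + 2 * ((d0 + 1) * ((r : ℝ) + 1) ^ 2 * q ^ 2) * (a2 + 11 * (L * Real.log 2))) /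
      M ^ 3 ≤ 1 := by
    rw [div_le_one hM3p]
    linarith
  have hD : 2 ^ (r + 1) * ((dl + 1) * q ^ 2) ≤ 2 ^ (r + 1) * 99 * L ^ 4 := by
    have e1 : (dl + 1) * q ^ 2 ≤ (11 * L ^ 2) * (9 * L ^ 2) := by
      apply mul_le_mul _ hq2 (by positivity) (by positivity)
      nlinarith
    have e2 : (2 : ℝ) ^ (r + 1) * ((dl + 1) * q ^ 2) ≤
        2 ^ (r + 1) * ((11 * L ^ 2) * (9 * L ^ 2)) :=
      mul_le_mul_of_nonneg_left e1 (by positivity)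
    calc (2 : ℝ) ^ (r + 1) * ((dl + 1) * q ^ 2) ≤ 2 ^ (r + 1) * ((11 * L ^ 2) * (9 * L ^ 2)) := e2
      _ = 2 ^ (r + 1) * 99 * L ^ 4 := by ring
  have hD2 : 2 ^ (r + 1) * ((dl + 1) * q ^ 2) / M ^ 4 ≤ 1 := by
    rw [div_le_one hM4p]
    linarith
  have hdeg' : (r : ℝ) * QL ≤ δ / 2 * L ^ 2 := by
    calc (r : ℝ) * QL ≤ r * (δ / (2 * r) * L ^ 2) := mul_le_mul_of_nonneg_left hdeg hr0.le
      _ = δ / 2 * L ^ 2 := by field_simp
  have hc0 : 0 ≤ (r : ℝ) * (r + 3) * L := by positivity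
  calc (r : ℝ) * ((a1 + 2 * ((d0 + 1) * ((r : ℝ) + 1) ^ 2 * q ^ 2) *
          (a2 + 11 * (L * Real.log 2))) / M ^ 3 + ((r : ℝ) + 1) + QL +
          2 ^ (r + 1) * ((dl + 1) * q ^ 2) / M ^ 4)
      ≤ (r : ℝ) * (1 + ((r : ℝ) + 1) + QL + 1) :=
        mul_le_mul_of_nonneg_left (by linarith) hr0.le
    _ = (r : ℝ) * (r + 3) + r * QL := by ring
    _ ≤ δ * L ^ 2 := by linarith

end C0st
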