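import Pool.Agent.W_c0up_h14.DefB

/-!
# MP_c0ce05_co, upper bounds: parameters and their growth
-/

set_option autoImplicit false

namespace C0st

open Filter

/-- size of the cliques -/
noncomputable def qf (η : ℝ) (N : ℕ) : ℕ := ⌈(2 + 20 * η) * Real.logb 2 N⌉₊

/-- bound for the in-degrees -/
noncomputable def Df (N : ℕ) : ℕ := ⌊10 * Real.logb 2 N ^ 2⌋₊

/-- bound for the out-degrees -/
noncomputable def D0f (η : ℝ) (n N : ℕ) : ℕ := (1 + qf η N * (2 + 2 * Df N)) ^ n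

/-- `N ^ (1/r)` -/
noncomputable def Mf (r N : ℕ) : ℝ := (N : ℝ) ^ ((1 : ℝ) / r)

theorem L_tendsto : Tendsto (fun N : ℕ => Real.logb 2 N) atTop atTop :=
  (Real.tendsto_logb_atTop (by norm_num)).comp tendsto_natCast_atTop_atTop

theorem log_eq (N : ℕ) : Real.log N = Real.logb 2 N * Real.log 2 := by
  have h : Real.log 2 ≠ 0 := (Real.log_pos (by norm_num)).ne'
  unfold Real.logb
  field_simp

theorem AL_ev (c : ℝ) : ∀ᶠ N : ℕ in atTop, c ≤ Real.logb 2 N :=
  L_tendsto.eventually_ge_atTop c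

/-- `(2 + 20 η) L ≤ 2.1 L`, `⌈x⌉₊ ≤ x + 1` -/
theorem qf_le {η : ℝ} (h0 : 0 < η) (h1 : η ≤ 1 / 200) :
    ∀ᶠ N : ℕ in atTop, (qf η N : ℝ) ≤ 3 * Real.logb 2 N := by
  filter_upwards [AL_ev 2] with N hN
  unfold qf
  have h2 : (0 : ℝ) ≤ (2 + 20 * η) * Real.logb 2 N := by positivity
  have h3 := (Nat.ceil_lt_add_one h2).le
  nlinarith

theorem qf_ge {η : ℝ} (h0 : 0 < η) : ∀ᶠ N : ℕ in atTop, Real.logb 2 N ≤ qf η N := by
  filter_upwards [AL_ev 0] with N hN
  unfold qf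
  refine le_trans ?_ (Nat.le_ceil _)
  nlinarith

/-- `D0f ≤ (100 L^3)^n` -/
theorem D0f_le {η : ℝ} (h0 : 0 < η) (h1 : η ≤ 1 / 200) (n : ℕ) :
    ∀ᶠ N : ℕ in atTop, (D0f η n N : ℝ) ≤ (100 * Real.logb 2 N ^ 3) ^ n := by
  filter_upwards [AL_ev 1, qf_le h0 h1] with N hN hq
  unfold D0f
  push_cast
  set L := Real.logb 2 N with hL
  have hD : (Df N : ℝ) ≤ 10 * L ^ 2 := by
    unfold Df
    exact Nat.floor_le (by positivity)
  have hD0 : (0 : ℝ) ≤ Df N := Nat.cast_nonneg _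
  have hq0 : (0 : ℝ) ≤ qf η N := Nat.cast_nonneg _
  refine pow_le_pow_left₀ (by positivity) ?_ n
  have h1 : (qf η N : ℝ) * (2 + 2 * Df N) ≤ 3 * L * (2 + 2 * (10 * L ^ 2)) := by
    apply mul_le_mul hq (by linarith) (by positivity) (by linarith)
  have h2 : L ≤ L ^ 3 := by
    have h3 : 1 ≤ L ^ 2 := one_le_pow₀ hN
    nlinarith
  have h4 : 1 ≤ L ^ 3 := one_le_pow₀ hN
  nlinarith

/-- `M ^ r = N` -/
theorem Mf_pow {r : ℕ} (hr : 1 ≤ r) {N : ℕ} : Mf r N ^ r = N := by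
  unfold Mf
  have h : (r : ℝ) ≠ 0 := by positivity
  rw [← Real.rpow_natCast, ← Real.rpow_mul (Nat.cast_nonneg N), one_div_mul_cancel h, Real.rpow_one]

/-- `log M = log N / r` -/
theorem log_Mf {r N : ℕ} (hN : 1 ≤ N) : Real.log (Mf r N) = Real.log N / r := by
  unfold Mf
  have h : (0 : ℝ) < N := by exact_mod_cast hN
  rw [Real.log_rpow h]
  ring

/-- `M = 2 ^ (L / r)` is larger than every polynomial in `L` -/
theorem Mf_large {r : ℕ} (hr : 1 ≤ r) (c : ℝ) (k : ℕ) :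
    ∀ᶠ N : ℕ in atTop, c * Real.logb 2 N ^ k ≤ Mf r N := by
  have hr0 : (0 : ℝ) < r := by exact_mod_cast hr
  have hs : (0 : ℝ) < (1 : ℝ) / r := by positivity
  have h := isLittleO_log_rpow_rpow_atTop (k : ℝ) hs
  have hl2 : 0 < Real.log 2 := Real.log_pos (by norm_num)
  set c' : ℝ := |c| / Real.log 2 ^ k + 1 with hc'
  have hc0 : 0 < c' := by positivity
  have h1 := (h.def (inv_pos.mpr hc0))
  have h2 : ∀ᶠ N : ℕ in atTop, ‖Real.log (N : ℝ) ^ (k : ℝ)‖ ≤ c'⁻¹ * ‖(N : ℝ) ^ ((1 : ℝ) / r)‖ :=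
    tendsto_natCast_atTop_atTop.eventually h1
  filter_upwards [h2, eventually_ge_atTop 1] with N hN hN1
  have hNr : (1 : ℝ) ≤ N := by exact_mod_cast hN1
  have hlog : 0 ≤ Real.log (N : ℝ) := Real.log_nonneg hNr
  rw [Real.rpow_natCast, Real.norm_of_nonneg (by positivity),
    Real.norm_of_nonneg (by positivity)] at hN
  unfold Mf
  have h3 : c' * Real.log (N : ℝ) ^ k ≤ (N : ℝ) ^ ((1 : ℝ) / r) := by
    have := mul_le_mul_of_nonneg_left hN hc0.le
    rwa [← mul_assoc, mul_inv_cancel₀ hc0.ne', one_mul] at this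
  refine le_trans ?_ h3
  unfold Real.logb
  rw [div_pow, hc', add_mul]
  have h4 : c * (Real.log (N : ℝ) ^ k / Real.log 2 ^ k) ≤
      |c| / Real.log 2 ^ k * Real.log (N : ℝ) ^ k := by
    have : c * (Real.log (N : ℝ) ^ k / Real.log 2 ^ k) =
        c / Real.log 2 ^ k * Real.log (N : ℝ) ^ k := by ring
    rw [this]
    apply mul_le_mul_of_nonneg_right _ (by positivity)
    exact div_le_div_of_nonneg_right (le_abs_self c) (by positivity)
  have h5 : 0 ≤ 1 * Real.log (N : ℝ) ^ k := by positivity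
  linarith

/-- `L log (polynomial in L)` is small compared to `L²` -/
theorem Llog_small {c : ℝ} (hc : 0 ≤ c) (k : ℕ) {δ : ℝ} (hδ : 0 < δ) :
    ∀ᶠ N : ℕ in atTop, Real.logb 2 N * Real.log (c * Real.logb 2 N ^ k + 1) ≤
      δ * Real.logb 2 N ^ 2 := by
  have hd : 0 < δ / (2 * (k + 1)) := by positivity
  have h1 := Real.isLittleO_log_id_atTop.def hd
  have h2 : ∀ᶠ N : ℕ in atTop, ‖Real.log (Real.logb 2 N)‖ ≤
      δ / (2 * (k + 1)) * ‖id (Real.logb 2 N)‖ := L_tendsto.eventually h1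
  filter_upwards [h2, AL_ev 1, AL_ev (2 * Real.log (c + 1) / δ)] with N hN hL1 hL2
  set L := Real.logb 2 N with hL
  have hlogL : 0 ≤ Real.log L := Real.log_nonneg hL1
  rw [Real.norm_of_nonneg hlogL, id, Real.norm_of_nonneg (by linarith)] at hN
  have h3 : Real.log (c * L ^ k + 1) ≤ Real.log (c + 1) + k * Real.log L := by
    have h4 : 1 ≤ L ^ k := one_le_pow₀ hL1
    rw [← Real.log_pow, ← Real.log_mul (by positivity) (by positivity)]
    apply Real.log_le_log (by positivity)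
    nlinarith
  have h5 : Real.log (c + 1) ≤ δ / 2 * L := by
    rw [div_le_iff₀ hδ] at hL2
    linarith
  have h6 : (k : ℝ) * Real.log L ≤ δ / 2 * L := by
    have hk : (0 : ℝ) ≤ k := Nat.cast_nonneg k
    calc (k : ℝ) * Real.log L ≤ (k + 1) * (δ / (2 * (k + 1)) * L) := by
          apply mul_le_mul (by linarith) hN hlogL (by positivity)
      _ = δ / 2 * L := by field_simp
  have h7 : Real.log (c * L ^ k + 1) ≤ δ * L := by linarith
  calc L * Real.log (c * L ^ k + 1) ≤ L * (δ * L) :=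
        mul_le_mul_of_nonneg_left h7 (by linarith)
    _ = δ * L ^ 2 := by ring

/-- lower order terms -/
theorem L_small (c : ℝ) {δ : ℝ} (hδ : 0 < δ) :
    ∀ᶠ N : ℕ in atTop, c * Real.logb 2 N + c ≤ δ * Real.logb 2 N ^ 2 := by
  filter_upwards [AL_ev 1, AL_ev (2 * |c| / δ)] with N h1 h2
  set L := Real.logb 2 N with hL
  rw [div_le_iff₀ hδ] at h2
  have hc := le_abs_self c
  have hc0 := abs_nonneg c
  have h3 : c * L + c ≤ 2 * |c| * L := by nlinarith
  nlinarith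

/-- `log (N + 1) ≤ log N + log 2` -/
theorem log_succ_le {N : ℕ} (hN : 1 ≤ N) :
    Real.log ((N : ℝ) + 1) ≤ (Real.logb 2 N + 1) * Real.log 2 := by
  have hN' : (1 : ℝ) ≤ N := by exact_mod_cast hN
  rw [add_mul, ← log_eq, one_mul, ← Real.log_mul (by positivity) (by norm_num)]
  apply Real.log_le_log (by positivity)
  linarith

end C0st
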