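import Pool.Agent.W_c0up_h14.AL

/-!
# MP_c0ce05_co, upper bounds: growth of the error terms
-/

set_option autoImplicit false

namespace C0st

open Filter

theorem AM_sqrt {η : ℝ} {N : ℕ} (hq : (qf η N : ℝ) ≤ 3 * Real.logb 2 N) :
    (Nat.sqrt (qf η N) : ℝ) ^ 2 ≤ 3 * Real.logb 2 N := by
  have h : ((Nat.sqrt (qf η N) * Nat.sqrt (qf η N) : ℕ) : ℝ) ≤ (qf η N : ℝ) := by
    exact_mod_cast Nat.sqrt_le (qf η N)
  push_cast at h
  rw [pow_two]
  linarith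

theorem AM_root {a s L δ : ℝ} (ha : 0 ≤ a) (hδ : 0 < δ) (hL : 1 ≤ L) (hs : 0 ≤ s)
    (h : s ^ 2 ≤ 3 * L) (hb : a ^ 2 * 3 ≤ L * δ ^ 2) : a * s ≤ δ * L := by
  have h1 : (a * s) ^ 2 ≤ (δ * L) ^ 2 := by
    have h2 : (a * s) ^ 2 = a ^ 2 * s ^ 2 := by ring
    have h3 : (δ * L) ^ 2 = L * δ ^ 2 * L := by ring
    rw [h2, h3]
    have h4 : a ^ 2 * s ^ 2 ≤ a ^ 2 * (3 * L) := mul_le_mul_of_nonneg_left h (by positivity)
    have h5 : a ^ 2 * 3 * L ≤ L * δ ^ 2 * L := mul_le_mul_of_nonneg_right hb (by linarith)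
    linarith
  exact (pow_le_pow_iff_left₀ (by positivity) (by positivity) two_ne_zero).1 h1

/-- `q √q` is small compared to `L²` -/
theorem sqrt_small {η : ℝ} (h0 : 0 < η) (h1 : η ≤ 1 / 200) {δ : ℝ} (hδ : 0 < δ) :
    ∀ᶠ N : ℕ in atTop, (qf η N : ℝ) * (Nat.sqrt (qf η N) : ℝ) ≤ δ * Real.logb 2 N ^ 2 := by
  filter_upwards [qf_le h0 h1, L_tendsto.eventually_ge_atTop 1,
    L_tendsto.eventually_ge_atTop (27 / δ ^ 2)] with N hq hL hL2
  have hs := AM_sqrt hq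
  have hs0 : (0 : ℝ) ≤ (Nat.sqrt (qf η N) : ℝ) := Nat.cast_nonneg _
  have hb : 27 ≤ Real.logb 2 N * δ ^ 2 := (div_le_iff₀ (by positivity)).1 hL2
  have h3 := AM_root (a := 3) (by norm_num) hδ hL hs0 hs (by linarith)
  calc (qf η N : ℝ) * (Nat.sqrt (qf η N) : ℝ)
      ≤ (3 * Real.logb 2 N) * (Nat.sqrt (qf η N) : ℝ) := mul_le_mul_of_nonneg_right hq hs0
    _ = Real.logb 2 N * (3 * (Nat.sqrt (qf η N) : ℝ)) := by ring
    _ ≤ Real.logb 2 N * (δ * Real.logb 2 N) := mul_le_mul_of_nonneg_left h3 (by linarith)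
    _ = δ * Real.logb 2 N ^ 2 := by ring

/-- `√q log (N+1)` is small compared to `L²` -/
theorem sqrt_small2 {η : ℝ} (h0 : 0 < η) (h1 : η ≤ 1 / 200) {δ : ℝ} (hδ : 0 < δ) :
    ∀ᶠ N : ℕ in atTop, (Nat.sqrt (qf η N) : ℝ) * Real.log ((N : ℝ) + 1) ≤
      δ * Real.logb 2 N ^ 2 := by
  filter_upwards [qf_le h0 h1, L_tendsto.eventually_ge_atTop 1,
    L_tendsto.eventually_ge_atTop (12 / δ ^ 2), eventually_ge_atTop 1] with N hq hL hL2 hN
  have hs := AM_sqrt hq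
  have hs0 : (0 : ℝ) ≤ (Nat.sqrt (qf η N) : ℝ) := Nat.cast_nonneg _
  have hb : 12 ≤ Real.logb 2 N * δ ^ 2 := (div_le_iff₀ (by positivity)).1 hL2
  have h3 := AM_root (a := 2) (by norm_num) hδ hL hs0 hs (by linarith)
  have hl := log_succ_le hN
  have h2 : Real.log 2 ≤ 1 := by
    have := Real.log_two_lt_d9
    linarith
  have h4 : Real.log ((N : ℝ) + 1) ≤ 2 * Real.logb 2 N := by
    have h5 : (Real.logb 2 N + 1) * Real.log 2 ≤ (Real.logb 2 N + 1) * 1 :=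
      mul_le_mul_of_nonneg_left h2 (by linarith)
    linarith
  calc (Nat.sqrt (qf η N) : ℝ) * Real.log ((N : ℝ) + 1)
      ≤ (Nat.sqrt (qf η N) : ℝ) * (2 * Real.logb 2 N) := mul_le_mul_of_nonneg_left h4 hs0
    _ = Real.logb 2 N * (2 * (Nat.sqrt (qf η N) : ℝ)) := by ring
    _ ≤ Real.logb 2 N * (δ * Real.logb 2 N) := mul_le_mul_of_nonneg_left h3 (by linarith)
    _ = δ * Real.logb 2 N ^ 2 := by ring

/-- `log (q M^(27 n0) + 1) ≤ log (3 L + 1) + 27 n0 (log N) / r`; `q ≤ 3 L` -/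
theorem hub_small {η : ℝ} (h0 : 0 < η) (h1 : η ≤ 1 / 200) (r n0 : ℕ) (hr : 1 ≤ r) {δ : ℝ}
    (hδ : 0 < δ) (h : 81 * (n0 : ℝ) ≤ δ / 2 * r) :
    ∀ᶠ N : ℕ in atTop, (qf η N : ℝ) * Real.log (qf η N * Mf r N ^ (27 * n0) + 1) ≤
      δ * Real.logb 2 N ^ 2 * Real.log 2 := by
  have hl2 : 0 < Real.log 2 := Real.log_pos (by norm_num)
  filter_upwards [qf_le h0 h1, L_tendsto.eventually_ge_atTop 1, eventually_ge_atTop 1,
    Llog_small (c := 3) (by norm_num) 1 (δ := δ * Real.log 2 / 6) (by positivity)]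
    with N hq hL hN hLl
  have hN' : (1 : ℝ) ≤ N := by exact_mod_cast hN
  have hM1 : 1 ≤ Mf r N := by
    unfold Mf
    exact Real.one_le_rpow hN' (by positivity)
  have hMp : 1 ≤ Mf r N ^ (27 * n0) := one_le_pow₀ hM1
  have hq0 : (0 : ℝ) ≤ qf η N := Nat.cast_nonneg _
  have hr' : (0 : ℝ) < r := by exact_mod_cast (by omega : 0 < r)
  have h3 : Real.log (qf η N * Mf r N ^ (27 * n0) + 1) ≤
      Real.log (3 * Real.logb 2 N ^ 1 + 1) + 27 * n0 * (Real.logb 2 N * Real.log 2 / r) := by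
    have h4 : (qf η N : ℝ) * Mf r N ^ (27 * n0) + 1 ≤
        (3 * Real.logb 2 N ^ 1 + 1) * Mf r N ^ (27 * n0) := by
      rw [pow_one]
      nlinarith
    refine (Real.log_le_log (by positivity) h4).trans (le_of_eq ?_)
    rw [Real.log_mul (by positivity) (by positivity), Real.log_pow, log_Mf hN, log_eq]
    push_cast
    ring
  have h5 : (qf η N : ℝ) * Real.log (3 * Real.logb 2 N ^ 1 + 1) ≤
      δ / 2 * Real.logb 2 N ^ 2 * Real.log 2 := by
    have h6 : 0 ≤ Real.log (3 * Real.logb 2 N ^ 1 + 1) := Real.log_nonneg (by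
      rw [pow_one]; linarith)
    have h7 := mul_le_mul_of_nonneg_right hq h6
    nlinarith
  have h8 : (qf η N : ℝ) * (27 * n0 * (Real.logb 2 N * Real.log 2 / r)) ≤
      δ / 2 * Real.logb 2 N ^ 2 * Real.log 2 := by
    have h9 : 0 ≤ 27 * (n0 : ℝ) * (Real.logb 2 N * Real.log 2 / r) := by positivity
    refine (mul_le_mul_of_nonneg_right hq h9).trans ?_
    have h10 : 3 * Real.logb 2 N * (27 * n0 * (Real.logb 2 N * Real.log 2 / r)) =
        (81 * (n0 : ℝ)) / r * (Real.logb 2 N ^ 2 * Real.log 2) := by ring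
    rw [h10]
    have h11 : (81 * (n0 : ℝ)) / r ≤ δ / 2 := (div_le_iff₀ hr').2 h
    have h12 : 0 ≤ Real.logb 2 N ^ 2 * Real.log 2 := by positivity
    calc _ ≤ δ / 2 * (Real.logb 2 N ^ 2 * Real.log 2) := mul_le_mul_of_nonneg_right h11 h12
      _ = _ := by ring
  have h13 := mul_le_mul_of_nonneg_left h3 hq0
  rw [mul_add] at h13
  calc _ ≤ _ := h13
    _ ≤ δ / 2 * Real.logb 2 N ^ 2 * Real.log 2 + δ / 2 * Real.logb 2 N ^ 2 * Real.log 2 :=
      add_le_add h5 h8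
    _ = _ := by ring

/-- `q log (q D0 + 1)` is small compared to `L²` (`D0f_le`, `Llog_small`) -/
theorem deg_small {η : ℝ} (h0 : 0 < η) (h1 : η ≤ 1 / 200) (n : ℕ) {δ : ℝ} (hδ : 0 < δ) :
    ∀ᶠ N : ℕ in atTop, (qf η N : ℝ) * Real.log (qf η N * D0f η n N + 1) ≤
      δ * Real.logb 2 N ^ 2 := by
  filter_upwards [qf_le h0 h1, L_tendsto.eventually_ge_atTop 1, D0f_le h0 h1 n,
    Llog_small (c := 3 * 100 ^ n) (by positivity) (3 * n + 1) (δ := δ / 3) (by positivity)]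
    with N hq hL hD hLl
  have hq0 : (0 : ℝ) ≤ qf η N := Nat.cast_nonneg _
  have hD0 : (0 : ℝ) ≤ D0f η n N := Nat.cast_nonneg _
  have h3 : (qf η N : ℝ) * D0f η n N + 1 ≤
      3 * 100 ^ n * Real.logb 2 N ^ (3 * n + 1) + 1 := by
    have h4 : (qf η N : ℝ) * D0f η n N ≤ (3 * Real.logb 2 N) * (100 * Real.logb 2 N ^ 3) ^ n :=
      mul_le_mul hq hD hD0 (by linarith)
    have h5 : (3 * Real.logb 2 N) * (100 * Real.logb 2 N ^ 3) ^ n =
        3 * 100 ^ n * Real.logb 2 N ^ (3 * n + 1) := by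
      rw [mul_pow, ← pow_mul, pow_succ]
      ring
    linarith
  have h6 : Real.log (qf η N * D0f η n N + 1) ≤
      Real.log (3 * 100 ^ n * Real.logb 2 N ^ (3 * n + 1) + 1) :=
    Real.log_le_log (by positivity) h3
  have h7 : 0 ≤ Real.log (3 * 100 ^ n * Real.logb 2 N ^ (3 * n + 1) + 1) :=
    Real.log_nonneg (by
      have : 0 ≤ 3 * 100 ^ n * Real.logb 2 N ^ (3 * n + 1) := by positivity
      linarith)
  calc (qf η N : ℝ) * Real.log (qf η N * D0f η n N + 1)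
      ≤ (3 * Real.logb 2 N) * Real.log (3 * 100 ^ n * Real.logb 2 N ^ (3 * n + 1) + 1) :=
        mul_le_mul hq h6 (Real.log_nonneg (by
          have : 0 ≤ (qf η N : ℝ) * D0f η n N := mul_nonneg hq0 hD0
          linarith)) (by linarith)
    _ = 3 * (Real.logb 2 N * Real.log (3 * 100 ^ n * Real.logb 2 N ^ (3 * n + 1) + 1)) := by ring
    _ ≤ 3 * (δ / 3 * Real.logb 2 N ^ 2) := by linarith
    _ = δ * Real.logb 2 N ^ 2 := by ring

end C0st
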