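import Pool.Agent.W_c0up_h86.B1
import Pool.Agent.W_c0up_h86.D1

/-!
# MP_c0ce05_co, upper bounds: branching numbers and the error of one step
-/

set_option autoImplicit false

namespace C0st

open scoped Classical
open C0lo

variable {N r : ℕ}

/-- the branching numbers -/
noncomputable def br (M : ℝ) (lv : ℕ → ℕ) (Sg : ℕ) : ℕ → ℕ
  | 0 => ⌈M ^ lv 0⌉₊
  | (_ + 1) => ⌈M ^ Sg⌉₊

theorem br_pos {M : ℝ} (hM : 1 ≤ M) (lv : ℕ → ℕ) (Sg k : ℕ) : 0 < br M lv Sg k := by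
  cases k with
  | zero => exact Nat.ceil_pos.2 (by positivity)
  | succ k => exact Nat.ceil_pos.2 (by positivity)

/-- induction on `k`, `x ≤ ⌈x⌉₊` -/
theorem mm_lower {M : ℝ} (hM : 1 ≤ M) (lv : ℕ → ℕ) (Sg : ℕ) (hlv : ∀ k, lv (k + 1) = lv k + Sg)
    (k : ℕ) : M ^ lv k ≤ (mm (br M lv Sg) (k + 1) : ℝ) := by
  induction k with
  | zero =>
    unfold mm
    rw [zero_add, Finset.prod_range_one]
    exact Nat.le_ceil _
  | succ k ih =>
    rw [mm_succ, hlv k, pow_add, Nat.cast_mul]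
    exact mul_le_mul ih (Nat.le_ceil _) (by positivity) (Nat.cast_nonneg _)

theorem BB_ceil {x : ℝ} (hx : 1 ≤ x) : (⌈x⌉₊ : ℝ) ≤ 2 * x := by
  have := (Nat.ceil_lt_add_one (by linarith : (0 : ℝ) ≤ x)).le
  linarith

/-- induction on `k`, `⌈x⌉₊ ≤ 2 x` for `x ≥ 1` -/
theorem mm_upper {M : ℝ} (hM : 1 ≤ M) (lv : ℕ → ℕ) (Sg : ℕ) (hlv : ∀ k, lv (k + 1) = lv k + Sg)
    (k : ℕ) : (mm (br M lv Sg) (k + 1) : ℝ) ≤ 2 ^ (k + 1) * M ^ lv k := by
  induction k with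
  | zero =>
    unfold mm
    rw [zero_add, Finset.prod_range_one]
    have h := BB_ceil (one_le_pow₀ (n := lv 0) hM)
    rw [pow_one]
    exact h
  | succ k ih =>
    rw [mm_succ, hlv k, pow_add M, Nat.cast_mul]
    have h : (br M lv Sg (k + 1) : ℝ) ≤ 2 * M ^ Sg := BB_ceil (one_le_pow₀ hM)
    calc (mm (br M lv Sg) (k + 1) : ℝ) * (br M lv Sg (k + 1) : ℝ)
        ≤ (2 ^ (k + 1) * M ^ lv k) * (2 * M ^ Sg) :=
          mul_le_mul ih h (Nat.cast_nonneg _) (by positivity)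
      _ = 2 ^ (k + 1 + 1) * (M ^ lv k * M ^ Sg) := by ring

/-- size of the data of level `t` -/
noncomputable def nd (M : ℝ) (r D0 q t : ℕ) : ℕ :=
  ⌈((D0 : ℝ) + 1) * ((r : ℝ) + 1) ^ 2 * (q : ℝ) ^ 2 * M ^ (t - 3)⌉₊

/-- the error of one step -/
noncomputable def errK (M : ℝ) (N r n0 K D0 Dl q : ℕ) : ℝ :=
  (Real.log (4 * n0 * K) + 2 * (((D0 : ℝ) + 1) * ((r : ℝ) + 1) ^ 2 * (q : ℝ) ^ 2) *
      (Real.log (16 * ((r : ℝ) + 3)) + 11 * Real.log N)) / M ^ 3 +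
    ((r : ℝ) + 1) + q * Real.log (q * D0 + 1) +
    2 ^ (K + 1) * (((Dl : ℝ) + 1) * (q : ℝ) ^ 2) / M ^ 4

/-- The error of step `k < K`. Proof: with `x = (D0+1)(r+1)² q²`, `m = mm .. (k+1)`:
`log (4 n0 K |Data|) ≤ log (4 n0 K) + nd * (log (16 (r+3)) + 11 log N)` (`Data_card`),
`nd ≤ 2 x M^(lv k - 3)` (the number under the ceiling is at least `1`), `m ≥ M^(lv k) ≥ M^3`
(`mm_lower`, `3 ≤ lv k`), so the first summand is at most the first summand of `errK`. The last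
one: `mm_upper`, `2^(k+1) ≤ 2^K`. -/
theorem step_err {M : ℝ} (hM : 1 ≤ M) (hN : 1 ≤ N) (n0 K D0 Dl q : ℕ) (hn0 : 1 ≤ n0)
    (hq : 1 ≤ q) (lv : ℕ → ℕ) (Sg : ℕ) (hlv : ∀ k, lv (k + 1) = lv k + Sg) (h3 : ∀ k, 3 ≤ lv k)
    (k : ℕ) (hk : k < K) (hD : 0 < (Data N r (nd M r D0 q (lv k))).card) :
    Real.log (4 * (n0 : ℝ) * (K : ℝ) * ((Data N r (nd M r D0 q (lv k))).card : ℝ)) /
          (mm (br M lv Sg) (k + 1) : ℝ) +
        ((r : ℝ) + 1) + (q : ℝ) * Real.log ((q : ℝ) * D0 + 1) +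
        (mm (br M lv Sg) (k + 1) : ℝ) *
          (2 / M ^ (lv k + 4) * ((Dl : ℝ) + 1) * (q : ℝ) ^ 2) ≤
      errK M N r n0 K D0 Dl q := by
  have hm1 := mm_lower hM lv Sg hlv k
  have hm2 := mm_upper hM lv Sg hlv k
  have hM0 : (0 : ℝ) < M := by linarith
  set m : ℝ := (mm (br M lv Sg) (k + 1) : ℝ) with hm
  have hMk : (0 : ℝ) < M ^ lv k := by positivity
  have hmpos : 0 < m := lt_of_lt_of_le hMk hm1
  have hM3 : (0 : ℝ) < M ^ 3 := by positivity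
  have hM3m : M ^ 3 ≤ m := (pow_le_pow_right₀ hM (h3 k)).trans hm1
  have hsplit : M ^ lv k = M ^ (lv k - 3) * M ^ 3 := by
    rw [← pow_add]; congr 1; have := h3 k; omega
  have hn0' : (1 : ℝ) ≤ n0 := by exact_mod_cast hn0
  have hK' : (1 : ℝ) ≤ K := by exact_mod_cast (by omega : 1 ≤ K)
  have hN' : (1 : ℝ) ≤ N := by exact_mod_cast hN
  have hq' : (1 : ℝ) ≤ q := by exact_mod_cast hq
  have hnK : (1 : ℝ) ≤ n0 * K := by nlinarith
  set x : ℝ := ((D0 : ℝ) + 1) * ((r : ℝ) + 1) ^ 2 * (q : ℝ) ^ 2 with hx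
  have hx1 : 1 ≤ x := by
    have e1 : (1 : ℝ) ≤ (D0 : ℝ) + 1 := by
      have : (0 : ℝ) ≤ D0 := Nat.cast_nonneg _
      linarith
    have e2 : (1 : ℝ) ≤ ((r : ℝ) + 1) ^ 2 := one_le_pow₀ (by
      have : (0 : ℝ) ≤ r := Nat.cast_nonneg _
      linarith)
    have e3 : (1 : ℝ) ≤ (q : ℝ) ^ 2 := one_le_pow₀ hq'
    exact one_le_mul_of_one_le_of_one_le (one_le_mul_of_one_le_of_one_le e1 e2) e3
  set L : ℝ := Real.log (16 * ((r : ℝ) + 3)) + 11 * Real.log N with hL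
  have hr0 : (0 : ℝ) ≤ r := Nat.cast_nonneg _
  have hLnn : 0 ≤ L := by
    have e1 : 0 ≤ Real.log (16 * ((r : ℝ) + 3)) := Real.log_nonneg (by linarith)
    have e2 : 0 ≤ Real.log N := Real.log_nonneg hN'
    rw [hL]; positivity
  have hlog : Real.log (4 * (n0 : ℝ) * (K : ℝ) * ((Data N r (nd M r D0 q (lv k))).card : ℝ)) ≤
      Real.log (4 * n0 * K) + 2 * x * M ^ (lv k - 3) * L := by
    have hDpos : (0 : ℝ) < ((Data N r (nd M r D0 q (lv k))).card : ℝ) := by exact_mod_cast hD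
    rw [Real.log_mul (by positivity) hDpos.ne']
    have e1 : Real.log ((Data N r (nd M r D0 q (lv k))).card : ℝ) ≤
        (nd M r D0 q (lv k) : ℝ) * L := by
      have e2 : ((Data N r (nd M r D0 q (lv k))).card : ℝ) ≤
          (16 * ((r : ℝ) + 3) * (N : ℝ) ^ 11) ^ (nd M r D0 q (lv k)) := by
        exact_mod_cast Data_card (r := r) hN (nd M r D0 q (lv k))
      refine (Real.log_le_log hDpos e2).trans (le_of_eq ?_)
      rw [Real.log_pow, Real.log_mul (by positivity) (by positivity), Real.log_pow, hL]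
      norm_num
    have e3 : (nd M r D0 q (lv k) : ℝ) ≤ 2 * x * M ^ (lv k - 3) := by
      unfold nd
      rw [← hx]
      refine (BB_ceil ?_).trans (le_of_eq (by ring))
      exact one_le_mul_of_one_le_of_one_le hx1 (one_le_pow₀ hM)
    have e4 := mul_le_mul_of_nonneg_right e3 hLnn
    linarith
  have hlog0 : 0 ≤ Real.log (4 * (n0 : ℝ) * K) := Real.log_nonneg (by linarith)
  have hfirst : Real.log (4 * (n0 : ℝ) * (K : ℝ) *
      ((Data N r (nd M r D0 q (lv k))).card : ℝ)) / m ≤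
      (Real.log (4 * n0 * K) + 2 * x * L) / M ^ 3 := by
    rw [div_le_div_iff₀ hmpos hM3]
    have e1 := mul_le_mul_of_nonneg_right hlog hM3.le
    refine e1.trans ?_
    have e5 : (Real.log (4 * n0 * K) + 2 * x * M ^ (lv k - 3) * L) * M ^ 3 =
        Real.log (4 * n0 * K) * M ^ 3 + 2 * x * L * M ^ lv k := by
      rw [hsplit]; ring
    rw [e5, add_mul]
    refine add_le_add (mul_le_mul_of_nonneg_left hM3m hlog0) ?_
    exact mul_le_mul_of_nonneg_left hm1 (by positivity)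
  have hlast : m * (2 / M ^ (lv k + 4) * ((Dl : ℝ) + 1) * (q : ℝ) ^ 2) ≤
      2 ^ (K + 1) * (((Dl : ℝ) + 1) * (q : ℝ) ^ 2) / M ^ 4 := by
    have hnn : 0 ≤ 2 / M ^ (lv k + 4) * ((Dl : ℝ) + 1) * (q : ℝ) ^ 2 := by positivity
    refine (mul_le_mul_of_nonneg_right hm2 hnn).trans ?_
    have e1 : (2 : ℝ) ^ (k + 1) * M ^ lv k * (2 / M ^ (lv k + 4) * ((Dl : ℝ) + 1) * (q : ℝ) ^ 2) =
        2 ^ (k + 1 + 1) * (((Dl : ℝ) + 1) * (q : ℝ) ^ 2) / M ^ 4 := by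
      rw [pow_add M (lv k) 4]
      field_simp
      ring
    rw [e1]
    refine div_le_div_of_nonneg_right ?_ (by positivity)
    refine mul_le_mul_of_nonneg_right ?_ (by positivity)
    exact pow_le_pow_right₀ (by norm_num) (by omega)
  unfold errK
  rw [← hx, ← hL]
  linarith

end C0st
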