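import Mathlib

/-!
# MP_c0ce05_co, upper bounds: sparse vertices of a graph
-/

set_option autoImplicit false

namespace C0st

open scoped Classical

variable {V : Type} [Fintype V]

/-- the elements of `S` which are alone in their component (with respect to `S ∪ X`) -/
noncomputable def Cln (Gr : SimpleGraph V) (S X : Finset V) : Finset V :=
  S.filter (fun g => ∀ x ∈ S ∪ X, x ≠ g → ¬ Gr.Reachable g x)

/-- the ball around `g` inside `A` -/
noncomputable def CA_ball (Gr : SimpleGraph V) (A : Finset V) (n : ℕ) (g : V) : Finset V :=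
  A.filter (fun v => Gr.Reachable g v ∧ Gr.dist g v ≤ n / 2)

omit [Fintype V] in
theorem CA_tri (Gr : SimpleGraph V) {a b c : V} (h : Gr.Reachable a b) (h' : Gr.Reachable b c) :
    Gr.dist a c ≤ Gr.dist a b + Gr.dist b c := by
  obtain ⟨p, hp⟩ := h.exists_walk_length_eq_dist
  obtain ⟨q, hq⟩ := h'.exists_walk_length_eq_dist
  rw [← hp, ← hq, ← SimpleGraph.Walk.length_append]
  exact SimpleGraph.dist_le _

theorem CA_card (Gr : SimpleGraph V) (A : Finset V) (hA : ∀ a b, Gr.Adj a b → a ∈ A ∧ b ∈ A)
    (n : ℕ) (g x : V) (hr : Gr.Reachable g x) (hlt : n < Gr.dist g x) :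
    n / 2 + 1 ≤ (CA_ball Gr A n g).card := by
  obtain ⟨p, hp⟩ := hr.exists_walk_length_eq_dist
  have hlen : n < p.length := by omega
  have hdist : ∀ i, i ≤ n / 2 → Gr.dist g (p.getVert i) = i := by
    intro i hi
    have h1 : Gr.dist g (p.getVert i) ≤ i := by
      have := SimpleGraph.dist_le (p.take i)
      rw [SimpleGraph.Walk.take_length] at this
      exact this.trans (min_le_left _ _)
    have h2 : Gr.dist (p.getVert i) x ≤ p.length - i := by
      have := SimpleGraph.dist_le (p.drop i)
      rw [SimpleGraph.Walk.drop_length] at this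
      exact this
    have h3 := CA_tri Gr (a := g) (b := p.getVert i) (c := x) ⟨p.take i⟩ ⟨p.drop i⟩
    omega
  have hsub : (Finset.range (n / 2 + 1)).image (fun i => p.getVert i) ⊆ CA_ball Gr A n g := by
    intro v hv
    rw [Finset.mem_image] at hv
    obtain ⟨i, hi, rfl⟩ := hv
    rw [Finset.mem_range] at hi
    have hi' : i ≤ n / 2 := by omega
    refine Finset.mem_filter.mpr ⟨?_, ⟨p.take i⟩, ?_⟩
    · exact (hA _ _ (p.adj_getVert_succ (by omega : i < p.length))).1
    · rw [hdist i hi']
      exact hi'
  have hinj : Set.InjOn (fun i => p.getVert i) (Finset.range (n / 2 + 1) : Set ℕ) := by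
    intro i hi j hj hij
    rw [Finset.coe_range, Set.mem_Iio] at hi hj
    have h1 := hdist i (by omega)
    have h2 := hdist j (by omega)
    have h3 : p.getVert i = p.getVert j := hij
    rw [h3, h2] at h1
    exact h1.symm
  calc n / 2 + 1 = (Finset.range (n / 2 + 1)).card := (Finset.card_range _).symm
    _ = ((Finset.range (n / 2 + 1)).image (fun i => p.getVert i)).card :=
        (Finset.card_image_of_injOn hinj).symm
    _ ≤ _ := Finset.card_le_card hsub

/-- Disjoint balls. Proof. Let `B g` be the set of the vertices reachable from `g` with distance at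
most `n / 2` from `g`. For different `g, g' ∈ S` the sets `B g`, `B g'` are disjoint: otherwise
`g, g'` are reachable with distance at most `n` (contradiction to `hd`). If `g ∈ S` is not in `Cln`
then some `x ∈ S ∪ X`, `x ≠ g` is reachable, `n < dist g x`, and the vertices number `0, …, n / 2`
of a shortest path from `g` to `x` are different elements of `B g`; they are in `A` (end points of
edges, or `g`). So the `S \ Cln` many sets `B g ∩ A` are disjoint and have at least `n / 2 + 1`
elements. -/
theorem balls (Gr : SimpleGraph V) (A S X : Finset V) (hA : ∀ a b, Gr.Adj a b → a ∈ A ∧ b ∈ A)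
    (hS : S ⊆ A) (n : ℕ)
    (hd : ∀ g ∈ S, ∀ x ∈ S ∪ X, x ≠ g → Gr.Reachable g x → n < Gr.dist g x) :
    S.card * (n / 2 + 1) ≤ (Cln Gr S X).card * (n / 2 + 1) + A.card := by
  have h0 : S.card = (S \ Cln Gr S X).card + (Cln Gr S X).card := by
    have hsub : Cln Gr S X ⊆ S := Finset.filter_subset _ _
    exact (Finset.card_sdiff_add_card_eq_card hsub).symm
  have h1 : (S \ Cln Gr S X).card * (n / 2 + 1) ≤ A.card := by
    have hsub : ((S \ Cln Gr S X).biUnion (fun g => CA_ball Gr A n g)) ⊆ A := by
      intro v hv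
      rw [Finset.mem_biUnion] at hv
      obtain ⟨g, _, hv⟩ := hv
      exact (Finset.mem_filter.mp hv).1
    have hdis : ((S \ Cln Gr S X : Finset V) : Set V).PairwiseDisjoint
        (fun g => CA_ball Gr A n g) := by
      intro g hg g' hg' hne
      rw [Function.onFun, Finset.disjoint_left]
      intro v hv hv'
      have hgS : g ∈ S := (Finset.mem_sdiff.mp (Finset.mem_coe.mp hg)).1
      have hgS' : g' ∈ S := (Finset.mem_sdiff.mp (Finset.mem_coe.mp hg')).1
      obtain ⟨_, hr, hle⟩ := Finset.mem_filter.mp hv
      obtain ⟨_, hr', hle'⟩ := Finset.mem_filter.mp hv'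
      have hrr : Gr.Reachable g g' := hr.trans hr'.symm
      have h2 := hd g hgS g' (Finset.mem_union_left _ hgS') (Ne.symm hne) hrr
      have h3 : Gr.dist g g' ≤ Gr.dist g v + Gr.dist v g' := CA_tri Gr hr hr'.symm
      rw [Gr.dist_comm (u := v) (v := g')] at h3
      omega
    calc (S \ Cln Gr S X).card * (n / 2 + 1)
        = ∑ _g ∈ S \ Cln Gr S X, (n / 2 + 1) := by rw [Finset.sum_const, smul_eq_mul]
      _ ≤ ∑ g ∈ S \ Cln Gr S X, (CA_ball Gr A n g).card := by
          apply Finset.sum_le_sum
          intro g hg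
          obtain ⟨hgS, hgC⟩ := Finset.mem_sdiff.mp hg
          have : ¬ ∀ x ∈ S ∪ X, x ≠ g → ¬ Gr.Reachable g x := by
            intro h
            exact hgC (Finset.mem_filter.mpr ⟨hgS, h⟩)
          push Not at this
          obtain ⟨x, hx, hxg, hr⟩ := this
          exact CA_card Gr A hA n g x hr (hd g hgS x hx hxg hr)
      _ = ((S \ Cln Gr S X).biUnion (fun g => CA_ball Gr A n g)).card :=
          (Finset.card_biUnion hdis).symm
      _ ≤ A.card := Finset.card_le_card hsub
  calc S.card * (n / 2 + 1)
      = (S \ Cln Gr S X).card * (n / 2 + 1) + (Cln Gr S X).card * (n / 2 + 1) := by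
        rw [← add_mul, ← h0]
    _ ≤ A.card + (Cln Gr S X).card * (n / 2 + 1) := Nat.add_le_add_right h1 _
    _ = (Cln Gr S X).card * (n / 2 + 1) + A.card := by ring

end C0st
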