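import Pool.Agent.W_c0up_h14.DefsG

/-!
# MP_c0ce05_co, upper bounds: the mutual graph and its blocks
-/

set_option autoImplicit false

namespace C0st

open scoped Classical
open C0lo

variable {N : ℕ}

/-- the mutual graph of `A` -/
def Mg (P : GP N) (A R : Finset (Fin N)) : SimpleGraph (Fin N) where
  Adj a b := a ≠ b ∧ a ∈ A ∧ b ∈ A ∧ Ar P R a b ∧ Ar P R b a
  symm := ⟨fun _ _ h => ⟨h.1.symm, h.2.2.1, h.2.1, h.2.2.2.2, h.2.2.2.1⟩⟩
  loopless := ⟨fun _ h => h.1 rfl⟩

/-- paths of the mutual graph are paths of arrows (induction on the length of a shortest walk;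
`Rch` is monotone in the number of steps) -/
theorem Rch_of_dist (P : GP N) (A R : Finset (Fin N)) {a b : Fin N} (n : ℕ)
    (hr : (Mg P A R).Reachable a b) (hd : (Mg P A R).dist a b ≤ n) : Rch P R n a b := by
  sorry

/-- An edge of the block of two components whose partner is not inside `A` or which is
exceptional. Proof. Suppose not. Take a time function `t` from `Valid.acyc` and among the
pairs `(a, b)`, `a` reachable from `g`, `b` from `g'`, both in `A` (for instance `(g, g')`), one
with maximal `t s(a, b)`; let `f` be the partner of `s(a, b)`, it is inside `A`, no loop, and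
`t s(a, b) < t f`. As `(a, b)` is not exceptional, `a ∈ f` or some `u ∈ f` has `u → a`, `a → u`; so
some `u ∈ f` is reachable from `g` (and is in `A`). In the same way (`s(b, a) = s(a, b)`) some
`u' ∈ f` is reachable from `g'`. `u ≠ u'`, so `f = s(u, u')`, contradiction to the choice. -/
theorem block (P : GP N) {Dl : ℕ} (hP : P.Valid Dl) (A R : Finset (Fin N)) {g g' : Fin N}
    (hg : g ∈ A) (hg' : g' ∈ A) (hn : ¬ (Mg P A R).Reachable g g') :
    ∃ a b, (Mg P A R).Reachable g a ∧ (Mg P A R).Reachable g' b ∧ a ∈ A ∧ b ∈ A ∧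
      ¬ ∃ f, (s(a, b), f) ∈ P.db ∧ (∀ x ∈ f, x ∈ A) ∧ ¬ Exc P A R a b ∧ ¬ Exc P A R b a := by
  sorry

end C0st
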