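import Pool.Agent.W_c0up_h14.RD

/-!
# MP_c0ce05_co, upper bounds: number of discounted edges of a clique (proofs row 505, B4')
-/

set_option autoImplicit false

namespace C0st

open scoped Classical
open C0lo

variable {N r : ℕ}

/-- hub vertices come first -/
theorem Bef_of_hub (lv : ℕ → ℕ) (s : St N r) {x y : Fin N} (hx : x ∈ Vs lv s 0)
    (hy : y ∉ Vs lv s 0) : Bef s.ty x y := by
  unfold Vs at hx hy
  simp only [Finset.mem_filter, Finset.mem_univ, true_and] at hx hy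
  left
  by_contra hcon
  rw [not_lt, Fin.le_def] at hcon
  exact hy ⟨by omega, by omega⟩

/-- a loop free edge inside `F` is `Fine`; an edge from a hub vertex to a generator is `Fine`; a
`Fine` edge of `A` with an end point in the hub has its other end point in `Ge` -/
theorem Fine_out (lv : ℕ → ℕ) (s : St N r) (A : Finset (Fin N)) {x y : Fin N}
    (hx : x ∉ Vs lv s 0) (hy : y ∉ Vs lv s 0) : Fine lv s A s(x, y) := by
  refine ⟨⟨x, Sym2.mem_mk_left x y, hx⟩, ?_⟩
  rintro ⟨a, ha, _, _, haH, _⟩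
  rcases Sym2.mem_iff.1 ha with h | h
  · exact hx (h ▸ haH)
  · exact hy (h ▸ haH)

theorem Fine_hub (lv : ℕ → ℕ) (s : St N r) (A : Finset (Fin N)) {x y : Fin N}
    (hx : x ∈ Vs lv s 0) (hy : y ∈ A) : Fine lv s A s(x, y) ↔ y ∈ Ge lv s A := by
  constructor
  · rintro ⟨⟨z, hz, hzH⟩, h2⟩
    have hzy : z = y := by
      rcases Sym2.mem_iff.1 hz with h | h
      · exact absurd (h ▸ hx) hzH
      · exact h
    subst hzy
    unfold Ge
    rw [Finset.mem_filter]
    exact ⟨hy, hzH, fun hD => h2 ⟨x, Sym2.mem_mk_left x z, z, Sym2.mem_mk_right x z, hx, hD⟩⟩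
  · intro hG
    unfold Ge at hG
    rw [Finset.mem_filter] at hG
    refine ⟨⟨y, Sym2.mem_mk_right x y, hG.2.1⟩, ?_⟩
    rintro ⟨_, _, b, hb, _, hbD⟩
    rcases Sym2.mem_iff.1 hb with h | h
    · subst h
      unfold Dr at hbD
      rw [Finset.mem_filter] at hbD
      exact hbD.2.1 hx
    · subst h
      exact hG.2.2 hbD

theorem CC_hub_card (lv : ℕ → ℕ) (s : St N r) (A : Finset (Fin N)) :
    ((ed A).filter (fun e => Fine lv s A e ∧ ∃ x ∈ e, x ∈ Vs lv s 0)).card =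
      (Ge lv s A).card * (A ∩ Vs lv s 0).card := by
  rw [← Finset.card_product]
  symm
  refine Finset.card_bij (fun p _ => s(p.2, p.1)) ?_ ?_ ?_
  · rintro ⟨g, h⟩ hp
    rw [Finset.mem_product, Finset.mem_inter] at hp
    simp only at hp
    obtain ⟨hg, hhA, hhH⟩ := hp
    have hgA : g ∈ A := (Finset.mem_filter.1 hg).1
    have hgH : g ∉ Vs lv s 0 := (Finset.mem_filter.1 hg).2.1
    have hne : h ≠ g := fun h1 => hgH (h1 ▸ hhH)
    rw [Finset.mem_filter, mem_ed]
    refine ⟨⟨?_, ?_⟩, (Fine_hub lv s A hhH hgA).2 hg, h, Sym2.mem_mk_left _ _, hhH⟩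
    · intro v hv
      rcases Sym2.mem_iff.1 hv with h1 | h1
      · exact h1 ▸ hhA
      · exact h1 ▸ hgA
    · rw [Sym2.mk_isDiag_iff]
      exact hne
  · rintro ⟨g, h⟩ hp ⟨g', h'⟩ hp' heq
    rw [Finset.mem_product, Finset.mem_inter] at hp hp'
    simp only at hp hp' heq
    have hgH : g ∉ Vs lv s 0 := (Finset.mem_filter.1 hp.1).2.1
    have hgH' : g' ∉ Vs lv s 0 := (Finset.mem_filter.1 hp'.1).2.1
    rw [Sym2.eq_iff] at heq
    rcases heq with ⟨h1, h2⟩ | ⟨h1, h2⟩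
    · rw [h1, h2]
    · exact absurd (h1 ▸ hp.2.2) hgH'
  · intro e he
    rw [Finset.mem_filter, mem_ed] at he
    obtain ⟨⟨h1, h2⟩, h3, x, hx, hxH⟩ := he
    obtain ⟨y, rfl⟩ := Sym2.mem_iff_exists.1 hx
    have hyA : y ∈ A := h1 y (Sym2.mem_mk_right x y)
    have hyG := (Fine_hub lv s A hxH hyA).1 h3
    refine ⟨(y, x), ?_, rfl⟩
    rw [Finset.mem_product, Finset.mem_inter]
    exact ⟨hyG, h1 x hx, hxH⟩

/-- Number of the `Fine` edges. Proof: the two-element subsets of `A \ Vs` and the edges between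
`A ∩ Vs` and `Ge` (`Fine_out`, `Fine_hub`). -/
theorem card_Fine (lv : ℕ → ℕ) (s : St N r) (A : Finset (Fin N)) :
    ((ed A).filter (fun e => Fine lv s A e)).card =
      (A \ Vs lv s 0).card.choose 2 + (Ge lv s A).card * (A ∩ Vs lv s 0).card := by
  have hsplit : (ed A).filter (fun e => Fine lv s A e) =
      ed (A \ Vs lv s 0) ∪ (ed A).filter (fun e => Fine lv s A e ∧ ∃ x ∈ e, x ∈ Vs lv s 0) := by
    ext e
    rw [Finset.mem_union, Finset.mem_filter, Finset.mem_filter, mem_ed, mem_ed]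
    constructor
    · rintro ⟨⟨h1, h2⟩, h3⟩
      by_cases h4 : ∃ x ∈ e, x ∈ Vs lv s 0
      · exact Or.inr ⟨⟨h1, h2⟩, h3, h4⟩
      · left
        push Not at h4
        exact ⟨fun v hv => Finset.mem_sdiff.2 ⟨h1 v hv, h4 v hv⟩, h2⟩
    · rintro (⟨h1, h2⟩ | ⟨h1, h2, _⟩)
      · refine ⟨⟨fun v hv => (Finset.mem_sdiff.1 (h1 v hv)).1, h2⟩, ?_⟩
        induction e using Sym2.ind with
        | _ x y =>
          exact Fine_out lv s A (Finset.mem_sdiff.1 (h1 x (Sym2.mem_mk_left x y))).2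
            (Finset.mem_sdiff.1 (h1 y (Sym2.mem_mk_right x y))).2
      · exact ⟨h1, h2⟩
  have hdisj : Disjoint (ed (A \ Vs lv s 0))
      ((ed A).filter (fun e => Fine lv s A e ∧ ∃ x ∈ e, x ∈ Vs lv s 0)) := by
    rw [Finset.disjoint_left]
    intro e he he'
    rw [mem_ed] at he
    obtain ⟨_, _, x, hx, hxH⟩ := Finset.mem_filter.1 he'
    exact (Finset.mem_sdiff.1 (he.1 x hx)).2 hxH
  rw [hsplit, Finset.card_union_of_disjoint hdisj, card_ed, CC_hub_card]

end C0st
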