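import Pool.Agent.W_c0up_h38.Pos

/-!
# MP_c0ce05_co: upper bound `A(N) ≤ (2 + o(1)) log₂ N`, definitions of the static part
(proofs row 505, tree weights of helper86)

`N` = number of vertices, `r` = number of types (`N = M ^ r`), `lv k` = thresholds
(`lv (k + 1) = lv k + Sg`), `b k` = branching numbers.
-/

set_option autoImplicit false

namespace C0st

open scoped Classical
open C0lo C0up

variable {N r : ℕ}

/-- A (partially described) position with typed vertices. `ty x ≤ r` is the type of the vertex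
`x`, `ty x = r + 1` means: no type. `rel` = the relation `a → b` with `a` before `b`;
`dead` = edges of Breaker, `clm` = edges of Maker, `db` = the turns of Maker. -/
@[ext] structure St (N r : ℕ) where
  /-- the types -/
  ty : Fin N → Fin (r + 2)
  /-- the relation `a → b`, `a` before `b` -/
  rel : Finset (Fin N × Fin N)
  /-- the edges of Breaker -/
  dead : Finset (Sym2 (Fin N))
  /-- the edges of Maker -/
  clm : Finset (Sym2 (Fin N))
  /-- the turns of Maker -/
  db : Finset (Sym2 (Fin N) × Sym2 (Fin N))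

noncomputable instance : Fintype (St N r) :=
  Fintype.ofInjective (fun s : St N r => (s.ty, s.rel, s.dead, s.clm, s.db)) (by
    intro s t h
    simp only [Prod.mk.injEq] at h
    exact St.ext h.1 h.2.1 h.2.2.1 h.2.2.2.1 h.2.2.2.2)

/-- the type level of an edge -/
def tau (s : St N r) (e : Sym2 (Fin N)) : ℕ :=
  Sym2.lift ⟨fun x y => ((s.ty x : ℕ) + (s.ty y : ℕ)), fun _ _ => Nat.add_comm _ _⟩ e

/-- the described vertices of step `k`; the hub is `Vs lv s 0` -/
noncomputable def Vs (lv : ℕ → ℕ) (s : St N r) (k : ℕ) : Finset (Fin N) :=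
  Finset.univ.filter (fun x => (s.ty x : ℕ) + 4 < lv k ∧ (s.ty x : ℕ) ≤ r)

/-- the dropped vertices of `S` -/
noncomputable def Dr (lv : ℕ → ℕ) (s : St N r) (S : Finset (Fin N)) : Finset (Fin N) :=
  S.filter (fun b => b ∉ Vs lv s 0 ∧ ∃ a ∈ S, (a, b) ∈ s.rel)

/-- the generators of `S` -/
noncomputable def Ge (lv : ℕ → ℕ) (s : St N r) (S : Finset (Fin N)) : Finset (Fin N) :=
  S.filter (fun x => x ∉ Vs lv s 0 ∧ x ∉ Dr lv s S)

/-- an edge which is not inside the hub and does not join the hub to a dropped vertex of `S` -/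
def Fine (lv : ℕ → ℕ) (s : St N r) (S : Finset (Fin N)) (e : Sym2 (Fin N)) : Prop :=
  (∃ x ∈ e, x ∉ Vs lv s 0) ∧ ¬ ∃ x ∈ e, ∃ y ∈ e, x ∈ Vs lv s 0 ∧ y ∈ Dr lv s S

/-- the level window of step `k` -/
def Win (lv : ℕ → ℕ) (k t : ℕ) : Prop := lv k + 5 ≤ t ∧ t + 5 ≤ lv (k + 1)

/-- the edges of `S` charged at step `k` -/
noncomputable def Pairs (lv : ℕ → ℕ) (s : St N r) (k : ℕ) (S : Finset (Fin N)) :
    Finset (Sym2 (Fin N)) :=
  (ed S).filter (fun e => Win lv k (tau s e) ∧ Fine lv s S e)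

/-- a leaf of a structure: old vertices and new generators with their types -/
abbrev Leaf (N r : ℕ) : Type := Finset (Fin N) × Finset (Fin N × Fin (r + 1))

/-- the edges of a leaf charged at step `k` -/
noncomputable def EE (lv : ℕ → ℕ) (s : St N r) (k : ℕ) (c : Leaf N r) : Finset (Sym2 (Fin N)) :=
  Pairs lv s k c.1 ∪ Finset.univ.filter (fun e => ¬ e.IsDiag ∧ ∃ h ∈ c.1, h ∈ Vs lv s 0 ∧
    ∃ g ∈ c.2, e = s(h, g.1) ∧ Win lv k ((s.ty h : ℕ) + (g.2 : ℕ)))

/-- number of turns inside `Q` -/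
noncomputable def dbl (s : St N r) (Q : Finset (Sym2 (Fin N))) : ℕ :=
  (s.db.filter (fun d => d.1 ∈ Q ∧ d.2 ∈ Q)).card

/-- normalised weight: `2 ^ |Q|` times the discounted weight of `Q` -/
noncomputable def wt (s : St N r) (Q : Finset (Sym2 (Fin N))) : ℝ :=
  if Disjoint Q s.dead then 2 ^ (Q ∩ s.clm).card * (3 / 4 : ℝ) ^ (dbl s Q) else 0

/-- leaves of the tree of depth `k` with branching numbers `b` -/
def Idx (b : ℕ → ℕ) : ℕ → Type
  | 0 => Unit
  | (k + 1) => Fin (b k) × Idx b k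

noncomputable instance instFintypeIdx (b : ℕ → ℕ) : (k : ℕ) → Fintype (Idx b k)
  | 0 => inferInstanceAs (Fintype Unit)
  | (k + 1) =>
    haveI := instFintypeIdx b k
    inferInstanceAs (Fintype (Fin (b k) × Idx b k))

/-- the number of leaves -/
def mm (b : ℕ → ℕ) (k : ℕ) : ℕ := ∏ i ∈ Finset.range k, b i

/-- the hierarchical weight of a tree of vertex sets -/
noncomputable def WW (lv b : ℕ → ℕ) (s : St N r) : (k : ℕ) → (Idx b k → Finset (Fin N)) → ℝ
  | 0, _ => 1
  | (k + 1), W => wt s (Finset.univ.biUnion (fun i : Idx b (k + 1) => Pairs lv s k (W i))) *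
      ∏ j : Fin (b k), WW lv b s k (fun i => W (j, i))

/-- the possible leaves of depth `k` -/
noncomputable def Sub (lv : ℕ → ℕ) (q : ℕ) (s : St N r) (k : ℕ) : Finset (Finset (Fin N)) :=
  (Vs lv s k).powerset.filter (fun S => S.card ≤ q)

/-- the partition function of depth `k` -/
noncomputable def Z (lv b : ℕ → ℕ) (q : ℕ) (s : St N r) (k : ℕ) : ℝ :=
  ∑ W ∈ Fintype.piFinset (fun _ : Idx b k => Sub lv q s k),
    (∏ i, ((N : ℝ)⁻¹) ^ (Ge lv s (W i)).card) * WW lv b s k W

/-- the structures of step `k` -/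
noncomputable def Om (lv b : ℕ → ℕ) (q : ℕ) (s : St N r) (k : ℕ) :
    Finset (Idx b (k + 1) → Leaf N r) :=
  Fintype.piFinset (fun _ : Idx b (k + 1) => Sub lv q s k ×ˢ Finset.univ)

/-- the probability weight of a structure of step `k` -/
noncomputable def rho (lv b : ℕ → ℕ) (q : ℕ) (s : St N r) (k : ℕ)
    (om : Idx b (k + 1) → Leaf N r) : ℝ :=
  (∏ j : Fin (b k), ((∏ i : Idx b k, ((N : ℝ)⁻¹) ^ (Ge lv s (om (j, i)).1).card) *
      WW lv b s k (fun i => (om (j, i)).1)) / Z lv b q s k) *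
    ∏ i : Idx b (k + 1), (((N : ℝ)⁻¹) ^ (om i).2.card / Real.exp ((r : ℝ) + 1))

/-- the edge set of a structure of step `k` -/
noncomputable def QQ (lv b : ℕ → ℕ) (s : St N r) (k : ℕ) (om : Idx b (k + 1) → Leaf N r) :
    Finset (Sym2 (Fin N)) :=
  Finset.univ.biUnion (fun i : Idx b (k + 1) => EE lv s k (om i))

/-- an edge described at step `k` -/
def Low (lv : ℕ → ℕ) (s : St N r) (k : ℕ) (e : Sym2 (Fin N)) : Prop :=
  (∀ x ∈ e, x ∈ Vs lv s k) ∧ tau s e + 5 ≤ lv k

/-- the data of step `k` -/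
noncomputable def restr (lv : ℕ → ℕ) (k : ℕ) (s : St N r) : St N r where
  ty := fun x => if x ∈ Vs lv s k then s.ty x else Fin.last (r + 1)
  rel := s.rel.filter (fun p => p.1 ∈ Vs lv s k ∧ p.2 ∈ Vs lv s k)
  dead := s.dead.filter (fun e => Low lv s k e)
  clm := s.clm.filter (fun e => Low lv s k e)
  db := s.db.filter (fun d => Low lv s k d.1 ∧ Low lv s k d.2)

/-- partner edges: `e` and `f` were claimed by Maker in the same turn -/
def Par (P : Pos N) (e f : Sym2 (Fin N)) : Prop := (e, f) ∈ P.D ∨ (f, e) ∈ P.D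

/-- `a → b` relative to `R`: `b` is an end point of the partner of an edge `ar`, `r ∈ R` -/
def Arr (P : Pos N) (R : Finset (Fin N)) (a b : Fin N) : Prop :=
  ∃ x ∈ R, ∃ f, Par P s(a, x) f ∧ b ∈ f

/-- number of members of `C` containing `x` -/
noncomputable def cnt (C : Finset (Finset (Fin N))) (x : Fin N) : ℕ :=
  (C.filter (fun A => x ∈ A)).card

/-- number of members of `C` containing `x` and `y` -/
noncomputable def cnt2 (C : Finset (Finset (Fin N))) (x y : Fin N) : ℕ :=
  (C.filter (fun A => x ∈ A ∧ y ∈ A)).card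

/-- correlated pairs: `P(xy) > M P(x) P(y)` for the uniform law `P` on `C` -/
def Bad (M : ℝ) (C : Finset (Finset (Fin N))) (x y : Fin N) : Prop :=
  M * (cnt C x : ℝ) * (cnt C y : ℝ) < (cnt2 C x y : ℝ) * (C.card : ℝ)

/-- the type of a vertex: `M ^ (-(j+1)) < P(x) ≤ M ^ (-j)` -/
noncomputable def typ (M : ℝ) (r : ℕ) (C : Finset (Finset (Fin N))) (x : Fin N) : Fin (r + 2) :=
  if cnt C x = 0 then Fin.last (r + 1)
  else ⟨min (Nat.floor (Real.logb M ((C.card : ℝ) / (cnt C x : ℝ)))) (r + 1), by omega⟩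

/-- the state of a position, typed by the family `C`, with the relation given by `R` -/
noncomputable def stOf (M : ℝ) (r : ℕ) (P : Pos N) (C : Finset (Finset (Fin N)))
    (R : Finset (Fin N)) : St N r where
  ty := typ M r C
  rel := Finset.univ.filter (fun p =>
    ((typ M r C p.1 : ℕ) < typ M r C p.2 ∨ (typ M r C p.1 = typ M r C p.2 ∧ p.1 < p.2)) ∧
      Arr P R p.1 p.2)
  dead := P.K
  clm := P.C
  db := P.D

end C0st
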