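import Mathlib

/-!
# MP_c0ce05_co, upper bound: sets generated by a relation of small degree (fibres)
-/

set_option autoImplicit false

namespace C0st

open scoped Classical

variable {N : ℕ}

/-- the sets of `n` elements -/
noncomputable def Fib_F (rel : Finset (Fin N × Fin N)) (q : ℕ) (B : Finset (Fin N)) (n : ℕ) :
    Finset (Finset (Fin N)) :=
  (Finset.univ : Finset (Finset (Fin N))).filter (fun D => Disjoint D B ∧ D.card = n ∧
    D.card + B.card ≤ q ∧ ∀ b ∈ D, ∃ a ∈ B ∪ D, (a, b) ∈ rel)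

/-- the successors of `B ∪ D` -/
noncomputable def Fib_S (rel : Finset (Fin N × Fin N)) (B D : Finset (Fin N)) : Finset (Fin N) :=
  (B ∪ D).biUnion (fun a => (rel.filter (fun p => p.1 = a)).image Prod.snd)

theorem Fib_mem_S {rel : Finset (Fin N × Fin N)} {B D : Finset (Fin N)} {b : Fin N} :
    b ∈ Fib_S rel B D ↔ ∃ a ∈ B ∪ D, (a, b) ∈ rel := by
  unfold Fib_S
  simp only [Finset.mem_biUnion, Finset.mem_image, Finset.mem_filter]
  constructor
  · rintro ⟨a, ha, p, ⟨hp, hpa⟩, hpb⟩
    refine ⟨a, ha, ?_⟩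
    rw [← hpa, ← hpb]
    exact hp
  · rintro ⟨a, ha, hab⟩
    exact ⟨a, ha, (a, b), ⟨hab, rfl⟩, rfl⟩

theorem Fib_card_S (rel : Finset (Fin N × Fin N)) (D0 : ℕ)
    (hD : ∀ a, (rel.filter (fun p => p.1 = a)).card ≤ D0) (q : ℕ) (B D : Finset (Fin N))
    (h : D.card + B.card ≤ q) : (Fib_S rel B D).card ≤ q * D0 := by
  unfold Fib_S
  calc _ ≤ ∑ a ∈ B ∪ D, ((rel.filter (fun p => p.1 = a)).image Prod.snd).card :=
        Finset.card_biUnion_le
    _ ≤ ∑ a ∈ B ∪ D, D0 := Finset.sum_le_sum fun a _ => Finset.card_image_le.trans (hD a)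
    _ = (B ∪ D).card * D0 := by rw [Finset.sum_const, smul_eq_mul]
    _ ≤ q * D0 := by
        refine Nat.mul_le_mul_right _ ((Finset.card_union_le _ _).trans ?_)
        omega

theorem Fib_geom (x q : ℕ) : ∑ n ∈ Finset.range (q + 1), x ^ n ≤ (x + 1) ^ q := by
  rw [add_pow]
  refine Finset.sum_le_sum fun n hn => ?_
  have h1 : 0 < q.choose n := Nat.choose_pos (by rw [Finset.mem_range] at hn; omega)
  simp only [one_pow, mul_one]
  exact Nat.le_mul_of_pos_right _ h1

theorem Fib_card_F (rel : Finset (Fin N × Fin N)) (key : Fin N → ℕ)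
    (hkey : ∀ p ∈ rel, key p.1 < key p.2) (D0 : ℕ)
    (hD : ∀ a, (rel.filter (fun p => p.1 = a)).card ≤ D0) (q : ℕ) (B : Finset (Fin N)) (n : ℕ) :
    (Fib_F rel q B n).card ≤ (q * D0) ^ n := by
  induction n with
  | zero =>
    rw [pow_zero, Finset.card_le_one]
    intro D1 h1 D2 h2
    unfold Fib_F at h1 h2
    rw [Finset.mem_filter] at h1 h2
    rw [Finset.card_eq_zero.1 h1.2.2.1, Finset.card_eq_zero.1 h2.2.2.1]
  | succ n ih =>
    have hsub : Fib_F rel q B (n + 1) ⊆ (Fib_F rel q B n).biUnion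
        (fun D => (Fib_S rel B D).image (fun b => insert b D)) := by
      intro D hDm
      unfold Fib_F at hDm
      rw [Finset.mem_filter] at hDm
      obtain ⟨-, h1, h2, h3, h4⟩ := hDm
      have hne : D.Nonempty := Finset.card_pos.1 (by omega)
      obtain ⟨b, hb, hmax⟩ := Finset.exists_max_image D key hne
      have hpre : ∀ b' ∈ D, ∃ a ∈ B ∪ D.erase b, (a, b') ∈ rel := by
        intro b' hb'
        obtain ⟨a, ha, hab⟩ := h4 b' hb'
        refine ⟨a, ?_, hab⟩
        have h5 : key a < key b' := hkey _ hab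
        have h6 : a ≠ b := by
          rintro rfl
          exact absurd (hmax b' hb') (by omega)
        rw [Finset.mem_union] at ha ⊢
        rcases ha with ha | ha
        · exact Or.inl ha
        · exact Or.inr (Finset.mem_erase.2 ⟨h6, ha⟩)
      have hcard : (D.erase b).card = n := by
        rw [Finset.card_erase_of_mem hb, h2]
        rfl
      rw [Finset.mem_biUnion]
      refine ⟨D.erase b, ?_, ?_⟩
      · unfold Fib_F
        rw [Finset.mem_filter]
        refine ⟨Finset.mem_univ _, Finset.disjoint_of_subset_left (Finset.erase_subset _ _) h1,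
          hcard, by omega, fun b' hb' => hpre b' (Finset.mem_of_mem_erase hb')⟩
      · rw [Finset.mem_image]
        exact ⟨b, Fib_mem_S.2 (hpre b hb), Finset.insert_erase hb⟩
    calc (Fib_F rel q B (n + 1)).card ≤ _ := Finset.card_le_card hsub
      _ ≤ ∑ D ∈ Fib_F rel q B n, ((Fib_S rel B D).image (fun b => insert b D)).card :=
          Finset.card_biUnion_le
      _ ≤ ∑ D ∈ Fib_F rel q B n, q * D0 := by
          refine Finset.sum_le_sum fun D hDm => Finset.card_image_le.trans ?_
          unfold Fib_F at hDm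
          rw [Finset.mem_filter] at hDm
          exact Fib_card_S rel D0 hD q B D hDm.2.2.2.1
      _ = (Fib_F rel q B n).card * (q * D0) := by rw [Finset.sum_const, smul_eq_mul]
      _ ≤ (q * D0) ^ n * (q * D0) := Nat.mul_le_mul_right _ ih
      _ = (q * D0) ^ (n + 1) := (pow_succ _ _).symm

/-- The sets `D` (disjoint from `B`, `|D| + |B| ≤ q`) in which every element has a predecessor in
`B ∪ D` are at most `(q D0 + 1) ^ q` many.
Proof. Let `c n` be the number of such `D` with `|D| = n`. `c (n+1) ≤ c n * (q D0)`: remove from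
`D` an element `b` of maximal `key`; the predecessors `a` of the other elements `b'` have
`key a < key b' ≤ key b`, so `a ≠ b` and `D.erase b` is of the same kind; and `b` is one of the at
most `(|B| + n) D0 ≤ q D0` elements with a predecessor in `B ∪ D.erase b`. So `c n ≤ (q D0)^n`,
`∑_{n ≤ q} (q D0)^n ≤ (q D0 + 1)^q`. -/
theorem fib_card (rel : Finset (Fin N × Fin N)) (key : Fin N → ℕ)
    (hkey : ∀ p ∈ rel, key p.1 < key p.2) (D0 : ℕ)
    (hD : ∀ a, (rel.filter (fun p => p.1 = a)).card ≤ D0) (q : ℕ) (B : Finset (Fin N)) :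
    ((Finset.univ : Finset (Finset (Fin N))).filter (fun D => Disjoint D B ∧
      D.card + B.card ≤ q ∧ ∀ b ∈ D, ∃ a ∈ B ∪ D, (a, b) ∈ rel)).card ≤ (q * D0 + 1) ^ q := by
  have hsub : ((Finset.univ : Finset (Finset (Fin N))).filter (fun D => Disjoint D B ∧
      D.card + B.card ≤ q ∧ ∀ b ∈ D, ∃ a ∈ B ∪ D, (a, b) ∈ rel)) ⊆
      (Finset.range (q + 1)).biUnion (fun n => Fib_F rel q B n) := by
    intro D hDm
    rw [Finset.mem_filter] at hDm
    rw [Finset.mem_biUnion]
    refine ⟨D.card, Finset.mem_range.2 (by have := hDm.2.2.1; omega), ?_⟩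
    unfold Fib_F
    rw [Finset.mem_filter]
    exact ⟨Finset.mem_univ _, hDm.2.1, rfl, hDm.2.2.1, hDm.2.2.2⟩
  calc _ ≤ _ := Finset.card_le_card hsub
    _ ≤ ∑ n ∈ Finset.range (q + 1), (Fib_F rel q B n).card := Finset.card_biUnion_le
    _ ≤ ∑ n ∈ Finset.range (q + 1), (q * D0) ^ n :=
        Finset.sum_le_sum fun n _ => Fib_card_F rel key hkey D0 hD q B n
    _ ≤ (q * D0 + 1) ^ q := Fib_geom _ _

end C0st
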