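import Pool.Agent.W_c0up_h14.RSetC
import Pool.Agent.W_c0up_h14.Defs

/-!
# MP_c0ce05_co, upper bound: Lemma R for a position (proofs row 505, B1)
-/

set_option autoImplicit false

namespace C0st

open scoped Classical
open C0lo C0up

variable {N : ℕ}

/-- the edges of `A` not containing `y` which are partners of an edge `yw`, `w ∈ A` -/
noncomputable def Hy (P : Pos N) (A : Finset (Fin N)) (y : Fin N) : Finset (Sym2 (Fin N)) :=
  (ed A).filter (fun f => y ∉ f ∧ ∃ w ∈ A, Par P s(y, w) f)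

/-- `y` is good for `R`: `x → y` for some `x ∈ R`, or less than `h` of the edges in `Hy` have no
end point `x` with `x → y` -/
def GoodY (P : Pos N) (A R : Finset (Fin N)) (h : ℕ) (y : Fin N) : Prop :=
  (∃ x ∈ R, Arr P R x y) ∨ ((Hy P A y).filter (fun f => ∀ x ∈ f, ¬ Arr P R x y)).card < h

theorem mem_filter_any {β : Type} (s : Finset β) (q : β → Prop) (inst : DecidablePred q) (a : β) :
    a ∈ @Finset.filter β q inst s ↔ a ∈ s ∧ q a := Finset.mem_filter

theorem hed {A : Finset (Fin N)} {e : Sym2 (Fin N)} (he : e ∈ ed A) :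
    ¬ e.IsDiag ∧ ∀ x ∈ e, x ∈ A := by
  unfold ed at he
  have h := Finset.mem_filter.1 he
  exact ⟨h.2, fun x hx => Finset.mem_sym2_iff.1 h.1 x hx⟩

/-- Lemma R. Proof: `exists_goodR` with `H = Hy P A`. If `y` is not `BadR`: either some
`f = s(x, x')` in `Hy P A y` has `x, x' ∈ R`; `f` is the partner of `s(y, w)`, so `Arr P R x y`
(`Par` is symmetric). Or less than `h` edges of `Hy` have no end point joined in `Hy` to `R`; if
`z ∈ R`, `s(x, z) ∈ Hy P A y` then `Arr P R x y`, so the filter in `GoodY` is contained in the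
filter in `BadR`. -/
theorem exists_good (P : Pos N) (A : Finset (Fin N)) {p : ℝ} (hp0 : 0 < p) (hp1 : p ≤ 1)
    (D0 h : ℕ) (hh : 1 ≤ h) :
    ∃ R ⊆ A, (R.card : ℝ) ≤ 3 * p * A.card ∧
      ((A.filter (fun y => ¬ GoodY P A R h y)).card : ℝ) ≤
        3 * (A.card * (A.card * (1 - p) ^ D0 + (p⁻¹ ^ 2 + 2 * D0 * p⁻¹) / h)) := by
  have hH : ∀ y ∈ A, ∀ e ∈ Hy P A y, ¬ e.IsDiag ∧ ∀ x ∈ e, x ∈ A := by
    intro y _ e he
    have he' : e ∈ ed A := (Finset.mem_filter.1 he).1
    exact hed he'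
  obtain ⟨R, hRA, hR1, hR2⟩ := exists_goodR hp0 hp1 A (Hy P A) hH D0 h hh
  refine ⟨R, hRA, hR1, le_trans ?_ hR2⟩
  have hsub : A.filter (fun y => ¬ GoodY P A R h y) ⊆ A.filter (fun y => BadR (Hy P A y) h R) := by
    intro y hy
    obtain ⟨hyA, hyG⟩ := Finset.mem_filter.1 hy
    refine Finset.mem_filter.2 ⟨hyA, ?_⟩
    have key : ∀ x z : Fin N, z ∈ R → s(x, z) ∈ Hy P A y → Arr P R x y := by
      intro x z hz hf
      obtain ⟨_, _, w, _, hw⟩ := Finset.mem_filter.1 hf
      refine ⟨z, hz, s(y, w), ?_, Sym2.mem_mk_left y w⟩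
      rcases hw with hw | hw
      · exact Or.inr hw
      · exact Or.inl hw
    constructor
    · rintro ⟨e, he, hR⟩
      induction e using Sym2.ind with
      | _ x z =>
        exact hyG (Or.inl ⟨x, hR x (Sym2.mem_mk_left x z),
          key x z (hR z (Sym2.mem_mk_right x z)) he⟩)
    · by_contra hlt
      rw [not_le] at hlt
      refine hyG (Or.inr (lt_of_le_of_lt (Finset.card_le_card ?_) hlt))
      intro f hf
      obtain ⟨hf1, hf2⟩ := (mem_filter_any _ _ _ _).1 hf
      refine (mem_filter_any _ _ _ _).2 ⟨hf1, ?_⟩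
      rintro x hx ⟨z, hz, hxz⟩
      exact hf2 x hx (key x z hz hxz)
  exact_mod_cast Finset.card_le_card hsub

end C0st
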