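import Pool.Agent.W_c0up_h14.Defs

/-!
# MP_c0ce05_co, upper bound: the choice of the offset (proofs row 505, B3)
-/

set_option autoImplicit false

namespace C0st

open scoped Classical
open C0lo C0up

variable {N r : ℕ}

/-- the thresholds: `Sg = 9 n0`, offset `9 i` -/
def lvo (n0 i k : ℕ) : ℕ := (2 + k) * (9 * n0) + 9 * i

/-- `t` is close to one of the thresholds `0, …, K` -/
def Zone (lv : ℕ → ℕ) (K t : ℕ) : Prop := ∃ k ≤ K, lv k ≤ t + 4 ∧ t ≤ lv k + 4

/-- In the zone of the offset `i < n0`: `(t + 4) / 9 = (2 + k) n0 + i`, so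
`i = ((t + 4) / 9) % n0`. -/
theorem zone_unique {n0 K t i : ℕ} (hi : i < n0) (h : Zone (lvo n0 i) K t) :
    i = ((t + 4) / 9) % n0 := by
  obtain ⟨k, _, h1, h2⟩ := h
  unfold lvo at h1 h2
  have e1 : (2 + k) * (9 * n0) + 9 * i = 9 * ((2 + k) * n0 + i) := by ring
  rw [e1] at h1 h2
  have h3 : (t + 4) / 9 = (2 + k) * n0 + i := by omega
  rw [h3, Nat.mul_comm (2 + k) n0, Nat.mul_add_mod, Nat.mod_eq_of_lt hi]

/-- Some offset has few zone edges on average. Proof: by `zone_unique` every edge is in the zone of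
at most one `i < n0`, so the sum over `i < n0` of the left sides is at most the right side. -/
theorem exists_offset (n0 K : ℕ) (hn0 : 1 ≤ n0) (s : St N r) (C : Finset (Finset (Fin N))) :
    ∃ i < n0, n0 * ∑ A ∈ C, ((ed A).filter (fun e => Zone (lvo n0 i) K (tau s e))).card ≤
      ∑ A ∈ C, (ed A).card := by
  have key : ∑ i ∈ Finset.range n0,
      ∑ A ∈ C, ((ed A).filter (fun e => Zone (lvo n0 i) K (tau s e))).card ≤
      ∑ A ∈ C, (ed A).card := by
    rw [Finset.sum_comm]
    refine Finset.sum_le_sum fun A _ => ?_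
    rw [← Finset.card_biUnion]
    · apply Finset.card_le_card
      intro e he
      rw [Finset.mem_biUnion] at he
      obtain ⟨i, _, h⟩ := he
      exact (Finset.mem_filter.1 h).1
    · intro i hi j hj hij
      have hi' := Finset.mem_range.1 (Finset.mem_coe.1 hi)
      have hj' := Finset.mem_range.1 (Finset.mem_coe.1 hj)
      refine Finset.disjoint_left.2 ?_
      intro e h1 h2
      have h3 := zone_unique hi' (Finset.mem_filter.1 h1).2
      have h4 := zone_unique hj' (Finset.mem_filter.1 h2).2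
      exact hij (h3.trans h4.symm)
  by_contra hcon
  push Not at hcon
  have h1 : ∑ i ∈ Finset.range n0, ∑ A ∈ C, (ed A).card <
      ∑ i ∈ Finset.range n0, n0 *
        ∑ A ∈ C, ((ed A).filter (fun e => Zone (lvo n0 i) K (tau s e))).card := by
    apply Finset.sum_lt_sum_of_nonempty
    · exact Finset.nonempty_range_iff.2 (by omega)
    · intro i hi
      exact hcon i (Finset.mem_range.1 hi)
  rw [← Finset.mul_sum, Finset.sum_const, Finset.card_range, smul_eq_mul] at h1
  exact absurd h1 (not_lt.2 (Nat.mul_le_mul_left n0 key))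

/-- Outside the zone there is a window. Proof: take the largest `k ≤ K` with `lv k ≤ t + 4`
(`k = 0` is possible, `k = K` is not, as `t + 5 ≤ lv K`). -/
theorem win_of_not_zone (lv : ℕ → ℕ) (K t : ℕ) (h0 : lv 0 ≤ t + 4) (hK : t + 5 ≤ lv K)
    (hz : ¬ Zone lv K t) : ∃ k < K, Win lv k t := by
  have h1 : lv (Nat.findGreatest (fun k => lv k ≤ t + 4) K) ≤ t + 4 :=
    Nat.findGreatest_spec (P := fun k => lv k ≤ t + 4) (Nat.zero_le K) h0
  have h2 : Nat.findGreatest (fun k => lv k ≤ t + 4) K ≤ K := Nat.findGreatest_le K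
  have h3 : ∀ j, Nat.findGreatest (fun k => lv k ≤ t + 4) K < j → j ≤ K → ¬ lv j ≤ t + 4 :=
    fun j hj hjK => Nat.findGreatest_is_greatest (P := fun k => lv k ≤ t + 4) hj hjK
  revert h1 h2 h3
  generalize Nat.findGreatest (fun k => lv k ≤ t + 4) K = k
  intro h1 h2 h3
  have hkK : k < K := by
    rcases Nat.lt_or_ge k K with h | h
    · exact h
    · have : k = K := by omega
      subst this
      omega
  have h4 := h3 (k + 1) (Nat.lt_succ_self k) hkK
  refine ⟨k, hkK, ?_, by omega⟩
  by_contra h5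
  exact hz ⟨k, h2, h1, by omega⟩

/-- windows of different steps are disjoint (monotone thresholds) -/
theorem win_unique (lv : ℕ → ℕ) (hlv : Monotone lv) {k l t : ℕ} (h1 : Win lv k t)
    (h2 : Win lv l t) : k = l := by
  obtain ⟨a1, b1⟩ := h1
  obtain ⟨a2, b2⟩ := h2
  rcases lt_trichotomy k l with h | h | h
  · have := hlv (show k + 1 ≤ l from h)
    omega
  · exact h
  · have := hlv (show l + 1 ≤ k from h)
    omega

end C0st
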