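import Pool.Agent.W_c0up_h14.RC
import Pool.Agent.W_c0up_h14.Off
import Pool.Agent.W_c0up_h86.H2

/-!
# MP_c0ce05_co, upper bounds: small facts for the main theorem
-/

set_option autoImplicit false

namespace C0st

open scoped Classical
open C0lo

variable {N r : ℕ}

theorem lvo_step (n0 i k : ℕ) : lvo n0 i (k + 1) = lvo n0 i k + 9 * n0 := by
  unfold lvo
  ring

theorem lvo_mono (n0 i : ℕ) : Monotone (lvo n0 i) := by
  apply monotone_nat_of_le_succ
  intro k
  rw [lvo_step]
  exact Nat.le_add_right _ _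

/-- `lvo n0 i k ≥ (2 + k) * 9` -/
theorem lvo_ge {n0 : ℕ} (hn0 : 1 ≤ n0) (i k : ℕ) : 9 * (2 + k) ≤ lvo n0 i k := by
  unfold lvo
  have h1 : (2 + k) * 9 ≤ (2 + k) * (9 * n0) := Nat.mul_le_mul_left _ (by omega)
  omega

theorem lvo_zero_le {n0 i : ℕ} (hi : i < n0) : lvo n0 i 0 ≤ 27 * n0 := by
  unfold lvo
  omega

/-- Standing hypotheses. `ord` is `Bef`; `deg`: the successors of `a` are reached from `a` in `n`
steps, `card_Rch_le`; `din`, `dcl`, `dpr`: `Valid.fn`, `Valid.fst`, `Valid.indeg`. -/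
theorem ok_stG {n0 : ℕ} (hn0 : 1 ≤ n0) (i : ℕ) (M : ℝ) (P : GP N) {Dl : ℕ} (hP : P.Valid Dl)
    (C : Finset (Finset (Fin N))) (R : Finset (Fin N)) (n q D0 : ℕ) (hR : R.card ≤ q)
    (hD : (1 + q * (2 + 2 * Dl)) ^ n ≤ D0) :
    Ok (lvo n0 i) (9 * n0) D0 Dl (stG M r P C R n) := by
  refine ⟨lvo_step n0 i, ?_, ?_, ?_, ?_, ?_, ?_⟩
  · unfold lvo
    omega
  · intro p hp
    have h := (Finset.mem_filter.1 hp).2.1
    exact h
  · intro a
    refine le_trans ?_ hD
    have h1 : ((stG M r P C R n).rel.filter (fun p => p.1 = a)).card ≤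
        ((Finset.univ : Finset (Fin N)).filter (fun b => Rch P R n a b)).card := by
      apply Finset.card_le_card_of_injOn (fun p => p.2)
      · intro p hp
        have hp' := Finset.mem_filter.1 (Finset.mem_coe.1 hp)
        have h2 := (Finset.mem_filter.1 hp'.1).2.2
        rw [hp'.2] at h2
        exact Finset.mem_coe.2 (Finset.mem_filter.2 ⟨Finset.mem_univ _, h2⟩)
      · intro p hp p' hp' hpp
        have h1 := (Finset.mem_filter.1 (Finset.mem_coe.1 hp)).2
        have h2 := (Finset.mem_filter.1 (Finset.mem_coe.1 hp')).2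
        exact Prod.ext (h1.trans h2.symm) hpp
    refine h1.trans ((card_Rch_le P hP R n a).trans ?_)
    exact Nat.pow_le_pow_left (Nat.add_le_add_left (Nat.mul_le_mul_right _ hR) _) _
  · exact hP.fn
  · exact hP.fst
  · exact hP.indeg

/-- by definition -/
theorem massS_stG (M : ℝ) (P : GP N) (C : Finset (Finset (Fin N))) (R : Finset (Fin N)) (n : ℕ)
    (Q : Finset (Sym2 (Fin N))) : massS (stG M r P C R n) Q = P.mass Q := by
  rfl

end C0st
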