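import Pool.Agent.W_c0up_h14.Fib
import Pool.Agent.W_c0up_h86.D1

/-!
# MP_c0ce05_co, upper bounds: few sets have few generators
-/

set_option autoImplicit false

namespace C0st

open scoped Classical
open C0lo

variable {N r : ℕ}

theorem SG_card_sub (H : Finset (Fin N)) (q : ℕ) :
    ((Finset.univ : Finset (Finset (Fin N))).filter (fun t => t ⊆ H ∧ t.card ≤ q)).card ≤
      (H.card + 1) ^ q := by
  have h1 := card_small (α := {x // x ∈ H}) q
  rw [Fintype.card_coe] at h1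
  refine le_trans (Finset.card_le_card_of_injOn (fun t => t.subtype (fun x => x ∈ H)) ?_ ?_) h1
  · intro t ht
    rw [Finset.mem_coe, Finset.mem_filter] at ht
    rw [Finset.mem_coe, Finset.mem_filter]
    refine ⟨Finset.mem_univ _, ?_⟩
    rw [Finset.card_subtype]
    exact (Finset.card_le_card (Finset.filter_subset _ _)).trans ht.2.2
  · intro t ht t' ht' h
    rw [Finset.mem_coe, Finset.mem_filter] at ht ht'
    beta_reduce at h
    ext x
    constructor
    · intro hx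
      have h2 : (⟨x, ht.2.1 hx⟩ : {x // x ∈ H}) ∈ t.subtype (fun x => x ∈ H) :=
        Finset.mem_subtype.2 hx
      rw [h] at h2
      exact Finset.mem_subtype.1 h2
    · intro hx
      have h2 : (⟨x, ht'.2.1 hx⟩ : {x // x ∈ H}) ∈ t'.subtype (fun x => x ∈ H) :=
        Finset.mem_subtype.2 hx
      rw [← h] at h2
      exact Finset.mem_subtype.1 h2

theorem SG_mem_Dr {lv : ℕ → ℕ} {s : St N r} {S : Finset (Fin N)} {x : Fin N} :
    x ∈ Dr lv s S ↔ x ∈ S ∧ x ∉ Vs lv s 0 ∧ ∃ a ∈ S, (a, x) ∈ s.rel := by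
  unfold Dr
  rw [Finset.mem_filter]

theorem SG_mem_Ge {lv : ℕ → ℕ} {s : St N r} {S : Finset (Fin N)} {x : Fin N} :
    x ∈ Ge lv s S ↔ x ∈ S ∧ x ∉ Vs lv s 0 ∧ x ∉ Dr lv s S := by
  unfold Ge
  rw [Finset.mem_filter]

theorem SG_dec (lv : ℕ → ℕ) (s : St N r) (A : Finset (Fin N)) :
    A = ((A ∩ Vs lv s 0) ∪ Ge lv s A) ∪ Dr lv s A := by
  ext x
  rw [Finset.mem_union, Finset.mem_union, Finset.mem_inter, SG_mem_Ge]
  constructor
  · intro hx
    by_cases h1 : x ∈ Vs lv s 0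
    · exact Or.inl (Or.inl ⟨hx, h1⟩)
    · by_cases h2 : x ∈ Dr lv s A
      · exact Or.inr h2
      · exact Or.inl (Or.inr ⟨hx, h1, h2⟩)
  · rintro ((h | h) | h)
    · exact h.1
    · exact h.1
    · exact (SG_mem_Dr.1 h).1

theorem SG_disj (lv : ℕ → ℕ) (s : St N r) (A : Finset (Fin N)) :
    Disjoint (Dr lv s A) ((A ∩ Vs lv s 0) ∪ Ge lv s A) := by
  rw [Finset.disjoint_left]
  intro x hx hx'
  rw [Finset.mem_union, Finset.mem_inter, SG_mem_Ge] at hx'
  rcases hx' with h | h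
  · exact (SG_mem_Dr.1 hx).2.1 h.2
  · exact h.2.2 hx

/-- Few sets have few generators. Proof: `A` is the disjoint union of `A ∩ Vs lv s 0` (a subset of
`Vs lv s 0` with at most `q` elements, at most `(|Vs| + 1) ^ q` many), `Ge lv s A` (at most `g0`
elements of `Fin N`: `card_small`) and `D = Dr lv s A`. Put `B = (A ∩ Vs) ∪ Ge`; `D` is disjoint
from `B`, `|D| + |B| ≤ q` and every `b ∈ D` has a predecessor in `A = B ∪ D`: `fib_card` with
`key x = ty x * N + x` (`hord`). -/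
theorem small_G (lv : ℕ → ℕ) (s : St N r)
    (hord : ∀ p ∈ s.rel, s.ty p.1 < s.ty p.2 ∨ (s.ty p.1 = s.ty p.2 ∧ p.1 < p.2)) (D0 : ℕ)
    (hdeg : ∀ a, (s.rel.filter (fun p => p.1 = a)).card ≤ D0) (q g0 : ℕ) :
    ((Finset.univ : Finset (Finset (Fin N))).filter
      (fun A => A.card ≤ q ∧ (Ge lv s A).card ≤ g0)).card ≤
      ((Vs lv s 0).card + 1) ^ q * (N + 1) ^ g0 * (q * D0 + 1) ^ q := by
  obtain ⟨P, hP⟩ : ∃ P : Finset (Finset (Fin N) × Finset (Fin N)),
      P = ((Finset.univ : Finset (Finset (Fin N))).filter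
        (fun t => t ⊆ Vs lv s 0 ∧ t.card ≤ q)) ×ˢ
      ((Finset.univ : Finset (Finset (Fin N))).filter (fun t => t.card ≤ g0)) := ⟨_, rfl⟩
  have hPc : P.card ≤ ((Vs lv s 0).card + 1) ^ q * (N + 1) ^ g0 := by
    rw [hP, Finset.card_product]
    have h2 := card_small (α := Fin N) g0
    rw [Fintype.card_fin] at h2
    exact Nat.mul_le_mul (SG_card_sub _ _) h2
  have hmap : ∀ A ∈ (Finset.univ : Finset (Finset (Fin N))).filter
      (fun A => A.card ≤ q ∧ (Ge lv s A).card ≤ g0), (A ∩ Vs lv s 0, Ge lv s A) ∈ P := by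
    intro A hA
    rw [Finset.mem_filter] at hA
    rw [hP, Finset.mem_product, Finset.mem_filter, Finset.mem_filter]
    exact ⟨⟨Finset.mem_univ _, Finset.inter_subset_right,
      (Finset.card_le_card Finset.inter_subset_left).trans hA.2.1⟩, Finset.mem_univ _, hA.2.2⟩
  rw [Finset.card_eq_sum_card_fiberwise hmap]
  have hkey : ∀ p ∈ s.rel, (fun x : Fin N => (s.ty x : ℕ) * N + (x : ℕ)) p.1 <
      (fun x : Fin N => (s.ty x : ℕ) * N + (x : ℕ)) p.2 := by
    intro p hp
    beta_reduce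
    rcases hord p hp with h | h
    · have h1 : (s.ty p.1 : ℕ) + 1 ≤ s.ty p.2 := Fin.lt_def.1 h
      have h2 := Nat.mul_le_mul_right N h1
      rw [add_mul, one_mul] at h2
      have h3 := p.1.2
      omega
    · have h1 : (p.1 : ℕ) < p.2 := Fin.lt_def.1 h.2
      rw [h.1]
      omega
  have hfib : ∀ b ∈ P, (((Finset.univ : Finset (Finset (Fin N))).filter
      (fun A => A.card ≤ q ∧ (Ge lv s A).card ≤ g0)).filter
        (fun A => (A ∩ Vs lv s 0, Ge lv s A) = b)).card ≤ (q * D0 + 1) ^ q := by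
    intro b _
    refine le_trans (Finset.card_le_card_of_injOn (fun A => Dr lv s A) ?_ ?_)
      (fib_card s.rel (fun x : Fin N => (s.ty x : ℕ) * N + (x : ℕ)) hkey D0 hdeg q (b.1 ∪ b.2))
    · intro A hA
      rw [Finset.mem_coe, Finset.mem_filter, Finset.mem_filter] at hA
      obtain ⟨⟨-, h1, h2⟩, h3⟩ := hA
      rw [Finset.mem_coe, Finset.mem_filter, ← h3]
      have h4 := SG_disj lv s A
      have h5 := SG_dec lv s A
      refine ⟨Finset.mem_univ _, h4, ?_, ?_⟩
      · rw [← Finset.card_union_of_disjoint h4, Finset.union_comm, ← h5]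
        exact h1
      · intro x hx
        obtain ⟨a, ha, hax⟩ := (SG_mem_Dr.1 hx).2.2
        refine ⟨a, ?_, hax⟩
        rw [← h5]
        exact ha
    · intro A hA A' hA' h
      rw [Finset.mem_coe, Finset.mem_filter] at hA hA'
      beta_reduce at h
      have h1 := hA.2.trans hA'.2.symm
      rw [Prod.mk.injEq] at h1
      rw [SG_dec lv s A, SG_dec lv s A', h, h1.1, h1.2]
  calc _ ≤ ∑ b ∈ P, (q * D0 + 1) ^ q := Finset.sum_le_sum hfib
    _ = P.card * (q * D0 + 1) ^ q := by rw [Finset.sum_const, smul_eq_mul]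
    _ ≤ _ := Nat.mul_le_mul_right _ hPc

end C0st
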