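import Pool.Agent.W_c0up_h14.Typ

/-!
# MP_c0ce05_co, upper bound: rare events for types and the relation (proofs row 505, B3)
-/

set_option autoImplicit false

namespace C0st

open scoped Classical
open C0lo C0up

variable {N r : ℕ}

/-- Untyped vertices are rare: `∑_A #{x ∈ A : type r+1} * M^(r+1) ≤ N |C|`. Proof: `∑_x` over the
untyped `x` of `cnt x * M^(r+1) ≤ |C|` (`cnt_typ_le`). -/
theorem untyped_le {M : ℝ} (hM : 1 < M) (C : Finset (Finset (Fin N))) :
    (∑ A ∈ C, ((A.filter (fun x => (typ M r C x : ℕ) = r + 1)).card : ℝ)) * M ^ (r + 1) ≤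
      N * C.card := by
  have h1 : (∑ A ∈ C, ((A.filter (fun x => (typ M r C x : ℕ) = r + 1)).card : ℝ)) =
      ∑ x ∈ (Finset.univ : Finset (Fin N)).filter (fun x => (typ M r C x : ℕ) = r + 1),
        (cnt C x : ℝ) := by
    have h2 : ∀ A ∈ C, ((A.filter (fun x => (typ M r C x : ℕ) = r + 1)).card : ℝ) =
        ∑ x ∈ (Finset.univ : Finset (Fin N)).filter (fun x => (typ M r C x : ℕ) = r + 1),
          (if x ∈ A then (1 : ℝ) else 0) := by
      intro A _
      rw [Finset.sum_boole, Finset.filter_filter]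
      congr 2
      ext x
      simp only [Finset.mem_filter, Finset.mem_univ, true_and]
      tauto
    rw [Finset.sum_congr rfl h2, Finset.sum_comm]
    refine Finset.sum_congr rfl (fun x _ => ?_)
    rw [Finset.sum_boole]
    rfl
  rw [h1, Finset.sum_mul]
  calc ∑ x ∈ (Finset.univ : Finset (Fin N)).filter (fun x => (typ M r C x : ℕ) = r + 1),
        (cnt C x : ℝ) * M ^ (r + 1)
      ≤ ∑ _x ∈ (Finset.univ : Finset (Fin N)).filter (fun x => (typ M r C x : ℕ) = r + 1),
        (C.card : ℝ) := by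
        refine Finset.sum_le_sum (fun x hx => ?_)
        have h3 := (Finset.mem_filter.1 hx).2
        have h4 := cnt_typ_le (r := r) hM C x
        rw [h3] at h4
        exact h4
    _ ≤ ∑ _x : Fin N, (C.card : ℝ) :=
        Finset.sum_le_sum_of_subset_of_nonneg (Finset.subset_univ _)
          (fun x _ _ => Nat.cast_nonneg _)
    _ = N * C.card := by
        rw [Finset.sum_const, Finset.card_univ, Fintype.card_fin, nsmul_eq_mul]

/-- the partner of an edge is unique -/
theorem TypB_par_unique (P : Pos N) (hP : P.Valid) {e f f' : Sym2 (Fin N)} (h : Par P e f)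
    (h' : Par P e f') : f = f' := by
  rcases h with h | h <;> rcases h' with h' | h'
  · by_contra hne
    exact (hP.disj _ h _ h' (fun h0 => hne (congrArg Prod.snd h0))).1 rfl
  · by_cases h0 : (e, f) = (f', e)
    · have h1 := congrArg Prod.fst h0
      have h2 := congrArg Prod.snd h0
      exact h2.trans h1
    · exact absurd rfl (hP.disj _ h _ h' h0).2.1
  · by_cases h0 : (f, e) = (e, f')
    · have h1 := congrArg Prod.fst h0
      have h2 := congrArg Prod.snd h0
      exact h1.trans h2
    · exact absurd rfl (hP.disj _ h _ h' h0).2.2.1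
  · by_contra hne
    exact (hP.disj _ h _ h' (fun h0 => hne (congrArg Prod.fst h0))).2.2.2 rfl

theorem TypB_card_mem (f : Sym2 (Fin N)) :
    ((Finset.univ : Finset (Fin N)).filter (fun w => w ∈ f)).card ≤ 2 := by
  induction f using Sym2.ind with
  | _ a b =>
    refine (Finset.card_le_card (t := {a, b}) ?_).trans Finset.card_le_two
    intro w hw
    have h := (Finset.mem_filter.1 hw).2
    rw [Sym2.mem_iff] at h
    rw [Finset.mem_insert, Finset.mem_singleton]
    exact h

/-- out-degree of the relation: at most one partner for every edge `s(v, x)`, `x ∈ R`, with two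
end points (turns are disjoint; `P.Valid`). -/
theorem card_arr_le (P : Pos N) (hP : P.Valid) (R : Finset (Fin N)) (v : Fin N) :
    ((Finset.univ : Finset (Fin N)).filter (fun w => Arr P R v w)).card ≤ 2 * R.card := by
  have h1 : (Finset.univ : Finset (Fin N)).filter (fun w => Arr P R v w) ⊆
      R.biUnion (fun x => (Finset.univ : Finset (Fin N)).filter
        (fun w => ∃ f, Par P s(v, x) f ∧ w ∈ f)) := by
    intro w hw
    obtain ⟨x, hx, f, hf, hwf⟩ := (Finset.mem_filter.1 hw).2
    exact Finset.mem_biUnion.2 ⟨x, hx, Finset.mem_filter.2 ⟨Finset.mem_univ _, f, hf, hwf⟩⟩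
  refine (Finset.card_le_card h1).trans ?_
  refine (Finset.card_biUnion_le_card_mul R _ 2 (fun x _ => ?_)).trans (by omega)
  by_cases h0 : ∃ f, Par P s(v, x) f
  · obtain ⟨f, hf⟩ := h0
    refine (Finset.card_le_card ?_).trans (TypB_card_mem f)
    intro w hw
    obtain ⟨f', hf', hwf⟩ := (Finset.mem_filter.1 hw).2
    rw [TypB_par_unique P hP hf hf']
    exact Finset.mem_filter.2 ⟨Finset.mem_univ _, hwf⟩
  · rw [Finset.filter_eq_empty_iff.2]
    · exact Nat.zero_le _
    · intro w _ hw
      obtain ⟨f', hf', _⟩ := hw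
      exact h0 ⟨f', hf'⟩

/-- Determined vertices are popular given the determining one. Proof: for every `v` and every `w`
with `v → w` and `cnt2 v w * M² < cnt v` the pair is in `cnt2 v w` members; sum over `w`
(`card_arr_le`) and `v` (`sum_cnt`). -/
theorem arr_rare {M : ℝ} (hM : 1 < M) (P : Pos N) (hP : P.Valid) (R : Finset (Fin N))
    (C : Finset (Finset (Fin N))) (q : ℕ) (hC : ∀ A ∈ C, A.card = q) :
    (∑ A ∈ C, (((A ×ˢ A).filter (fun p => Arr P R p.1 p.2 ∧
      (cnt2 C p.1 p.2 : ℝ) * M ^ 2 < cnt C p.1)).card : ℝ)) * M ^ 2 ≤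
      2 * R.card * q * C.card := by
  have hM0 : 0 < M := by linarith
  set F : Finset (Fin N × Fin N) := Finset.univ.filter (fun p => Arr P R p.1 p.2 ∧
      (cnt2 C p.1 p.2 : ℝ) * M ^ 2 < cnt C p.1) with hF
  have h1 : (∑ A ∈ C, (((A ×ˢ A).filter (fun p => Arr P R p.1 p.2 ∧
      (cnt2 C p.1 p.2 : ℝ) * M ^ 2 < cnt C p.1)).card : ℝ)) =
      ∑ p ∈ F, (cnt2 C p.1 p.2 : ℝ) := by
    have h2 : ∀ A ∈ C, (((A ×ˢ A).filter (fun p => Arr P R p.1 p.2 ∧
        (cnt2 C p.1 p.2 : ℝ) * M ^ 2 < cnt C p.1)).card : ℝ) =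
        ∑ p ∈ F, (if p.1 ∈ A ∧ p.2 ∈ A then (1 : ℝ) else 0) := by
      intro A _
      rw [Finset.sum_boole, hF, Finset.filter_filter]
      congr 2
      ext p
      simp only [Finset.mem_filter, Finset.mem_univ, true_and, Finset.mem_product]
      tauto
    rw [Finset.sum_congr rfl h2, Finset.sum_comm]
    refine Finset.sum_congr rfl (fun p _ => ?_)
    rw [Finset.sum_boole]
    rfl
  rw [h1, Finset.sum_mul]
  calc ∑ p ∈ F, (cnt2 C p.1 p.2 : ℝ) * M ^ 2
      ≤ ∑ p ∈ F, (cnt C p.1 : ℝ) := by
        refine Finset.sum_le_sum (fun p hp => ?_)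
        exact ((Finset.mem_filter.1 hp).2.2).le
    _ ≤ ∑ p ∈ (Finset.univ : Finset (Fin N × Fin N)).filter (fun p => Arr P R p.1 p.2),
        (cnt C p.1 : ℝ) := by
        refine Finset.sum_le_sum_of_subset_of_nonneg ?_ (fun p _ _ => Nat.cast_nonneg _)
        intro p hp
        exact Finset.mem_filter.2 ⟨Finset.mem_univ _, (Finset.mem_filter.1 hp).2.1⟩
    _ = ∑ v : Fin N, ∑ w ∈ (Finset.univ : Finset (Fin N)).filter (fun w => Arr P R v w),
        (cnt C v : ℝ) := by
        rw [Finset.sum_filter, ← Finset.univ_product_univ, Finset.sum_product]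
        refine Finset.sum_congr rfl (fun v _ => ?_)
        rw [Finset.sum_filter]
    _ ≤ ∑ v : Fin N, 2 * (R.card : ℝ) * (cnt C v : ℝ) := by
        refine Finset.sum_le_sum (fun v _ => ?_)
        rw [Finset.sum_const, nsmul_eq_mul]
        refine mul_le_mul_of_nonneg_right ?_ (Nat.cast_nonneg _)
        exact_mod_cast card_arr_le P hP R v
    _ = 2 * R.card * q * C.card := by
        rw [← Finset.mul_sum, ← Nat.cast_sum, sum_cnt C q hC, Nat.cast_mul]
        ring

end C0st
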