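import Pool.Agent.W_c0up_h14.Typ
import Pool.Agent.W_c0up_h14.TypB

/-!
# MP_c0ce05_co, upper bounds: typical members of the family
-/

set_option autoImplicit false

namespace C0st

open scoped Classical
open C0lo

variable {N r : ℕ}

/-- rare elements of a fixed set: `cnt x * M² ≤ |C|` for such `x`, sum over `x ∈ X` -/
theorem set_rare {M : ℝ} (C : Finset (Finset (Fin N))) (X : Finset (Fin N)) :
    (∑ A ∈ C, (((A ∩ X).filter (fun x => (cnt C x : ℝ) * M ^ 2 < C.card)).card : ℝ)) * M ^ 2 ≤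
      X.card * C.card := by
  have h1 : (∑ A ∈ C, (((A ∩ X).filter (fun x => (cnt C x : ℝ) * M ^ 2 < C.card)).card : ℝ)) =
      ∑ x ∈ X.filter (fun x => (cnt C x : ℝ) * M ^ 2 < C.card), (cnt C x : ℝ) := by
    have h2 : ∀ A ∈ C, (((A ∩ X).filter (fun x => (cnt C x : ℝ) * M ^ 2 < C.card)).card : ℝ) =
        ∑ x ∈ X.filter (fun x => (cnt C x : ℝ) * M ^ 2 < C.card),
          (if x ∈ A then (1 : ℝ) else 0) := by
      intro A _
      rw [Finset.sum_boole, Finset.filter_filter]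
      congr 2
      ext x
      simp only [Finset.mem_filter, Finset.mem_inter]
      tauto
    rw [Finset.sum_congr rfl h2, Finset.sum_comm]
    refine Finset.sum_congr rfl (fun x _ => ?_)
    rw [Finset.sum_boole]
    rfl
  rw [h1, Finset.sum_mul]
  calc ∑ x ∈ X.filter (fun x => (cnt C x : ℝ) * M ^ 2 < C.card), (cnt C x : ℝ) * M ^ 2
      ≤ ∑ _x ∈ X.filter (fun x => (cnt C x : ℝ) * M ^ 2 < C.card), (C.card : ℝ) :=
        Finset.sum_le_sum (fun x hx => ((Finset.mem_filter.1 hx).2).le)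
    _ ≤ ∑ _x ∈ X, (C.card : ℝ) :=
        Finset.sum_le_sum_of_subset_of_nonneg (Finset.filter_subset _ _)
          (fun x _ _ => Nat.cast_nonneg _)
    _ = X.card * C.card := by
        rw [Finset.sum_const, nsmul_eq_mul]

/-- `logb M (|C| / cnt x) ≤ 2` -/
theorem typ_le_two {M : ℝ} (hM : 1 < M) (C : Finset (Finset (Fin N))) (hC0 : C.Nonempty)
    (x : Fin N) (h : (C.card : ℝ) ≤ cnt C x * M ^ 2) : (typ M r C x : ℕ) ≤ 2 := by
  have hM0 : 0 < M := by linarith
  have hC1 : (0 : ℝ) < C.card := by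
    have : 0 < C.card := Finset.card_pos.2 hC0
    exact_mod_cast this
  have hc : cnt C x ≠ 0 := by
    intro h0
    rw [h0, Nat.cast_zero, zero_mul] at h
    linarith
  have hc0 : (0 : ℝ) < cnt C x := by
    have : 0 < cnt C x := Nat.pos_of_ne_zero hc
    exact_mod_cast this
  have h1 : (C.card : ℝ) / cnt C x ≤ M ^ 2 := by
    rw [div_le_iff₀ hc0]
    linarith
  have h2 : Real.logb M ((C.card : ℝ) / cnt C x) ≤ 2 := by
    have h3 : Real.logb M ((C.card : ℝ) / cnt C x) ≤ Real.logb M (M ^ 2) :=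
      Real.logb_le_logb_of_le hM (by positivity) h1
    have h4 : Real.logb M (M ^ 2) = 2 := by
      have h5 : M ^ (2 : ℕ) = M ^ (2 : ℝ) := by norm_num
      rw [h5, Real.logb_rpow hM0 hM.ne']
    rwa [h4] at h3
  have h3 : Nat.floor (Real.logb M ((C.card : ℝ) / (cnt C x : ℝ))) ≤ 2 := by
    have := Nat.floor_le_floor h2
    simpa using this
  unfold typ
  rw [if_neg hc]
  exact (min_le_left _ _).trans h3

/-- few vertices of type `j`: `|C| < cnt x M^(j+1)` for them (`lt_cnt_typ`), `sum_cnt` -/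
theorem card_typ_le {M : ℝ} (hM : 1 < M) (C : Finset (Finset (Fin N))) (hC0 : C.Nonempty) (q : ℕ)
    (hC : ∀ A ∈ C, A.card = q) (j : ℕ) (hj : j ≤ r) :
    (((Finset.univ : Finset (Fin N)).filter (fun x => (typ M r C x : ℕ) = j)).card : ℝ) ≤
      q * M ^ (j + 1) := by
  have hM0 : 0 < M := by linarith
  have hC1 : (0 : ℝ) < C.card := by
    have : 0 < C.card := Finset.card_pos.2 hC0
    exact_mod_cast this
  set F : Finset (Fin N) := (Finset.univ : Finset (Fin N)).filter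
    (fun x => (typ M r C x : ℕ) = j) with hF
  have h1 : ∀ x ∈ F, (C.card : ℝ) ≤ (cnt C x : ℝ) * M ^ (j + 1) := by
    intro x hx
    have h2 := (Finset.mem_filter.1 hx).2
    have h3 := lt_cnt_typ (r := r) hM C x (by omega)
    rw [h2] at h3
    exact h3.le
  have h2 : (F.card : ℝ) * C.card ≤ (q * M ^ (j + 1)) * C.card := by
    calc (F.card : ℝ) * C.card = ∑ _x ∈ F, (C.card : ℝ) := by
          rw [Finset.sum_const, nsmul_eq_mul]
      _ ≤ ∑ x ∈ F, (cnt C x : ℝ) * M ^ (j + 1) := Finset.sum_le_sum h1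
      _ ≤ ∑ x, (cnt C x : ℝ) * M ^ (j + 1) :=
          Finset.sum_le_sum_of_subset_of_nonneg (Finset.subset_univ _)
            (fun x _ _ => by positivity)
      _ = (q * M ^ (j + 1)) * C.card := by
          rw [← Finset.sum_mul, ← Nat.cast_sum, sum_cnt C q hC, Nat.cast_mul]
          ring
  exact le_of_mul_le_mul_right h2 hC1

/-- Markov (`B = 0`: all `f A` are `0`; `B < 0`: `C` is empty) -/
theorem markov (C : Finset (Finset (Fin N))) (f : Finset (Fin N) → ℝ) (hf : ∀ A ∈ C, 0 ≤ f A)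
    {B : ℝ} (h : ∑ A ∈ C, f A ≤ B * C.card) {m : ℝ} (hm : 0 < m) :
    ((C.filter (fun A => m * B < f A)).card : ℝ) * m ≤ C.card := by
  have h0 : (0 : ℝ) ≤ ∑ A ∈ C, f A := Finset.sum_nonneg hf
  rcases lt_trichotomy B 0 with hB | hB | hB
  · have h1 : (C.card : ℝ) ≤ 0 := by
      by_contra hc
      push Not at hc
      have := mul_neg_of_neg_of_pos hB hc
      linarith
    have h2 : C.card = 0 := by
      have : C.card ≤ 0 := by exact_mod_cast h1
      omega
    rw [Finset.card_eq_zero] at h2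
    rw [h2]
    simp
  · have h1 : ∑ A ∈ C, f A = 0 := by
      rw [hB, zero_mul] at h
      exact le_antisymm h h0
    have h2 := (Finset.sum_eq_zero_iff_of_nonneg hf).1 h1
    have h3 : C.filter (fun A => m * B < f A) = ∅ := by
      rw [Finset.filter_eq_empty_iff]
      intro A hA h4
      rw [h2 A hA, hB, mul_zero] at h4
      exact lt_irrefl _ h4
    rw [h3]
    simp
  · have h1 : ((C.filter (fun A => m * B < f A)).card : ℝ) * (m * B) ≤ B * C.card := by
      calc ((C.filter (fun A => m * B < f A)).card : ℝ) * (m * B)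
          = ∑ _A ∈ C.filter (fun A => m * B < f A), (m * B) := by
            rw [Finset.sum_const, nsmul_eq_mul]
        _ ≤ ∑ A ∈ C.filter (fun A => m * B < f A), f A :=
            Finset.sum_le_sum (fun A hA => ((Finset.mem_filter.1 hA).2).le)
        _ ≤ ∑ A ∈ C, f A :=
            Finset.sum_le_sum_of_subset_of_nonneg (Finset.filter_subset _ _)
              (fun A hA _ => hf A hA)
        _ ≤ B * C.card := h
    have h2 : (((C.filter (fun A => m * B < f A)).card : ℝ) * m) * B ≤ C.card * B := by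
      linarith
    exact le_of_mul_le_mul_right h2 hB

theorem TG_ed_le (A : Finset (Fin N)) : (ed A).card ≤ A.card ^ 2 := by
  rw [card_ed]
  exact Nat.choose_le_pow A.card 2

/-- a member with a rare element counts at least once -/
theorem TG_count (C : Finset (Finset (Fin N))) (p : Finset (Fin N) → Prop) [DecidablePred p]
    (g : Finset (Fin N) → ℕ) (h : ∀ A ∈ C, p A → 1 ≤ g A) :
    ((C.filter p).card : ℝ) ≤ ∑ A ∈ C, (g A : ℝ) := by
  have h1 : (C.filter p).card ≤ ∑ A ∈ C, g A := by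
    calc (C.filter p).card = ∑ _A ∈ C.filter p, 1 := by rw [Finset.sum_const, smul_eq_mul, mul_one]
      _ ≤ ∑ A ∈ C.filter p, g A :=
          Finset.sum_le_sum (fun A hA => h A (Finset.mem_filter.1 hA).1 (Finset.mem_filter.1 hA).2)
      _ ≤ ∑ A ∈ C, g A := Finset.sum_le_sum_of_subset (Finset.filter_subset _ _)
  calc ((C.filter p).card : ℝ) ≤ ((∑ A ∈ C, g A : ℕ) : ℝ) := by exact_mod_cast h1
    _ = _ := by rw [Nat.cast_sum]

theorem TG_c2 {M : ℝ} (hM : 16 ≤ M) (hN : (N : ℝ) ≤ M ^ r) (C : Finset (Finset (Fin N))) :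
    16 * ((C.filter (fun A => ∃ x ∈ A, (typ M r C x : ℕ) = r + 1)).card : ℝ) ≤ C.card := by
  have hM0 : 0 < M := by linarith
  have hM1 : 1 < M := by linarith
  have h1 := TG_count C (fun A => ∃ x ∈ A, (typ M r C x : ℕ) = r + 1)
    (fun A => (A.filter (fun x => (typ M r C x : ℕ) = r + 1)).card) (by
      rintro A _ ⟨x, hx, hx2⟩
      exact Finset.card_pos.2 ⟨x, Finset.mem_filter.2 ⟨hx, hx2⟩⟩)
  have h2 := untyped_le (r := r) hM1 C
  generalize ((C.filter (fun A => ∃ x ∈ A, (typ M r C x : ℕ) = r + 1)).card : ℝ) = g at h1 ⊢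
  generalize (∑ A ∈ C, ((A.filter (fun x => (typ M r C x : ℕ) = r + 1)).card : ℝ)) = S at h1 h2
  have hP : 0 < M ^ r := pow_pos hM0 r
  have hc : (0 : ℝ) ≤ C.card := Nat.cast_nonneg _
  generalize (C.card : ℝ) = c at h2 hc ⊢
  have h3 : (g * M) * M ^ r ≤ c * M ^ r := by
    calc (g * M) * M ^ r = g * M ^ (r + 1) := by ring
      _ ≤ S * M ^ (r + 1) := mul_le_mul_of_nonneg_right h1 (by positivity)
      _ ≤ N * c := h2
      _ ≤ M ^ r * c := mul_le_mul_of_nonneg_right hN hc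
      _ = c * M ^ r := by ring
  have h5 := le_of_mul_le_mul_right h3 hP
  by_cases hg : 0 ≤ g
  · have h6 : g * 16 ≤ g * M := mul_le_mul_of_nonneg_left hM hg
    linarith
  · push Not at hg
    linarith

theorem TG_c3 {M : ℝ} (hM : 16 ≤ M) (C : Finset (Finset (Fin N))) (X : Finset (Fin N))
    (hX : 16 * (X.card : ℝ) ≤ M ^ 2) :
    16 * ((C.filter (fun A => ∃ x ∈ A, x ∈ X ∧ (cnt C x : ℝ) * M ^ 2 < C.card)).card : ℝ) ≤
      C.card := by
  have hM0 : 0 < M := by linarith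
  have h1 := TG_count C (fun A => ∃ x ∈ A, x ∈ X ∧ (cnt C x : ℝ) * M ^ 2 < C.card)
    (fun A => ((A ∩ X).filter (fun x => (cnt C x : ℝ) * M ^ 2 < C.card)).card) (by
      rintro A _ ⟨x, hx, hx2, hx3⟩
      exact Finset.card_pos.2 ⟨x, Finset.mem_filter.2 ⟨Finset.mem_inter.2 ⟨hx, hx2⟩, hx3⟩⟩)
  have h2 := set_rare (M := M) C X
  generalize ((C.filter (fun A => ∃ x ∈ A, x ∈ X ∧
    (cnt C x : ℝ) * M ^ 2 < C.card)).card : ℝ) = g at h1 ⊢
  generalize (∑ A ∈ C, (((A ∩ X).filter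
    (fun x => (cnt C x : ℝ) * M ^ 2 < C.card)).card : ℝ)) = S at h1 h2
  have hP : 0 < M ^ 2 := pow_pos hM0 2
  have hc : (0 : ℝ) ≤ C.card := Nat.cast_nonneg _
  generalize (C.card : ℝ) = c at h2 hc ⊢
  generalize (X.card : ℝ) = a at h2 hX
  have h3 : (16 * g) * M ^ 2 ≤ c * M ^ 2 := by
    calc (16 * g) * M ^ 2 = 16 * (g * M ^ 2) := by ring
      _ ≤ 16 * (a * c) := by
          refine mul_le_mul_of_nonneg_left ?_ (by norm_num)
          exact (mul_le_mul_of_nonneg_right h1 hP.le).trans h2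
      _ = (16 * a) * c := by ring
      _ ≤ M ^ 2 * c := mul_le_mul_of_nonneg_right hX hc
      _ = c * M ^ 2 := by ring
  exact le_of_mul_le_mul_right h3 hP

theorem TG_c5 (C : Finset (Finset (Fin N))) (q : ℕ) (hC : ∀ A ∈ C, A.card = q)
    (f : Finset (Fin N) → ℕ) (n0 : ℕ) (hz : n0 * ∑ A ∈ C, f A ≤ ∑ A ∈ C, (ed A).card) :
    16 * ((C.filter (fun A => (16 : ℝ) * ((q : ℝ) ^ 2) < ((n0 * f A : ℕ) : ℝ))).card : ℝ) ≤
      C.card := by
  have h0 : ∑ A ∈ C, ((n0 * f A : ℕ) : ℝ) ≤ ((q : ℝ) ^ 2) * C.card := by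
    have h1 : ∑ A ∈ C, n0 * f A ≤ q ^ 2 * C.card := by
      rw [← Finset.mul_sum]
      refine hz.trans ?_
      calc ∑ A ∈ C, (ed A).card ≤ ∑ _A ∈ C, q ^ 2 := by
            refine Finset.sum_le_sum (fun A hA => ?_)
            rw [← hC A hA]
            exact TG_ed_le A
        _ = q ^ 2 * C.card := by
            rw [Finset.sum_const, smul_eq_mul, mul_comm]
    exact_mod_cast h1
  have h1 := markov C (fun A => ((n0 * f A : ℕ) : ℝ))
    (fun A _ => Nat.cast_nonneg _) h0 (m := 16) (by norm_num)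
  rw [mul_comm]
  exact h1

theorem TG_union (C G0 G2 G3 G4 G5 : Finset (Finset (Fin N)))
    (c1 : 16 * (G0.card : ℝ) ≤ C.card) (c2 : 16 * (G2.card : ℝ) ≤ C.card)
    (c3 : 16 * (G3.card : ℝ) ≤ C.card) (c4 : (G4.card : ℝ) * 16 ≤ C.card)
    (c5 : 16 * (G5.card : ℝ) ≤ C.card) :
    C.card ≤ 2 * (C \ (G0 ∪ (G2 ∪ (G3 ∪ (G4 ∪ G5))))).card := by
  have h1 : (G0 ∪ (G2 ∪ (G3 ∪ (G4 ∪ G5)))).card ≤
      G0.card + (G2.card + (G3.card + (G4.card + G5.card))) := by
    refine (Finset.card_union_le _ _).trans (Nat.add_le_add_left ?_ _)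
    refine (Finset.card_union_le _ _).trans (Nat.add_le_add_left ?_ _)
    refine (Finset.card_union_le _ _).trans (Nat.add_le_add_left ?_ _)
    exact Finset.card_union_le _ _
  generalize G0 ∪ (G2 ∪ (G3 ∪ (G4 ∪ G5))) = G at h1 ⊢
  have h2 : C.card ≤ (C \ G).card + G.card := by
    have h2 : C ⊆ (C \ G) ∪ G := by
      intro A hA
      by_cases hAG : A ∈ G
      · exact Finset.mem_union_right _ hAG
      · exact Finset.mem_union_left _ (Finset.mem_sdiff.2 ⟨hA, hAG⟩)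
    exact (Finset.card_le_card h2).trans (Finset.card_union_le _ _)
  have d1 : 16 * G0.card ≤ C.card := by exact_mod_cast c1
  have d2 : 16 * G2.card ≤ C.card := by exact_mod_cast c2
  have d3 : 16 * G3.card ≤ C.card := by exact_mod_cast c3
  have d4 : G4.card * 16 ≤ C.card := by exact_mod_cast c4
  have d5 : 16 * G5.card ≤ C.card := by exact_mod_cast c5
  omega

/-- Typical members. Proof: the following members of `C` are removed, each kind has at most
`|C| / 16` elements: (1) `A ∈ G0`; (2) `A` has an untyped vertex (`untyped_le`,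
`N ≤ M^r`, `16 ≤ M`); (3) `A ∩ X` has an element `x` with `cnt x * M² < |C|` (`set_rare`,
`16 |X| ≤ M²`); (4) more than `16 eps q²` bad pairs (`markov` with `m = 16`, `B = eps q²`);
(5) `n0 * f A > 16 q²` (`markov` with `m = 16`, `B = q²`, `|ed A| ≤ q²`). -/
theorem typical {M : ℝ} (hM : 16 ≤ M) (hN : (N : ℝ) ≤ M ^ r) (C : Finset (Finset (Fin N)))
    (hC0 : C.Nonempty) (q : ℕ) (hC : ∀ A ∈ C, A.card = q) (X : Finset (Fin N)) (eps : ℝ)
    (hbad : ∑ A ∈ C, (((A ×ˢ A).filter (fun p => Bad M C p.1 p.2)).card : ℝ) ≤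
      eps * (q : ℝ) ^ 2 * C.card)
    (f : Finset (Fin N) → ℕ) (n0 : ℕ) (hz : n0 * ∑ A ∈ C, f A ≤ ∑ A ∈ C, (ed A).card)
    (G0 : Finset (Finset (Fin N))) (hG0 : G0 ⊆ C) (hG : 16 * G0.card ≤ C.card)
    (hX : 16 * (X.card : ℝ) ≤ M ^ 2) :
    ∃ C1 ⊆ C, C.card ≤ 2 * C1.card ∧ ∀ A ∈ C1, A ∉ G0 ∧ (∀ x ∈ A, (typ M r C x : ℕ) ≤ r) ∧
      (∀ x ∈ A, x ∈ X → (C.card : ℝ) ≤ cnt C x * M ^ 2) ∧
      (((A ×ˢ A).filter (fun p => Bad M C p.1 p.2)).card : ℝ) ≤ 16 * (eps * (q : ℝ) ^ 2) ∧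
      n0 * f A ≤ 16 * q ^ 2 := by
  have c1 : 16 * (G0.card : ℝ) ≤ C.card := by exact_mod_cast hG
  have c2 := TG_c2 (r := r) hM hN C
  have c3 := TG_c3 hM C X hX
  have c4 := markov C _ (fun A _ => Nat.cast_nonneg _) hbad (m := 16) (by norm_num)
  have c5 := TG_c5 C q hC f n0 hz
  refine ⟨_, Finset.sdiff_subset, TG_union C G0 _ _ _ _ c1 c2 c3 c4 c5, ?_⟩
  intro A hA
  obtain ⟨hAC, hAG⟩ := Finset.mem_sdiff.1 hA
  rw [Finset.mem_union, Finset.mem_union, Finset.mem_union, Finset.mem_union] at hAG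
  rw [not_or, not_or, not_or, not_or] at hAG
  obtain ⟨a0, a2, a3, a4, a5⟩ := hAG
  refine ⟨a0, ?_, ?_, ?_, ?_⟩
  · intro x hx
    by_contra hc
    refine a2 (Finset.mem_filter.2 ⟨hAC, x, hx, ?_⟩)
    have := (typ M r C x).isLt
    omega
  · intro x hx hxX
    by_contra hc
    push Not at hc
    exact a3 (Finset.mem_filter.2 ⟨hAC, x, hx, hxX, hc⟩)
  · by_contra hc
    exact a4 (Finset.mem_filter.2 ⟨hAC, not_le.1 hc⟩)
  · by_contra hc
    refine a5 (Finset.mem_filter.2 ⟨hAC, ?_⟩)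
    have hc2 : 16 * q ^ 2 < n0 * f A := not_le.1 hc
    exact_mod_cast hc2

end C0st
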