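import Pool.Agent.W_c0up_h14.MA
import Pool.Agent.W_c0up_h14.SG
import Pool.Agent.W_c0up_h14.TG
import Pool.Agent.W_c0up_h14.Off

/-!
# MP_c0ce05_co, upper bounds: hub, small generator sets, averages
-/

set_option autoImplicit false

namespace C0st

open scoped Classical
open C0lo

variable {N r : ℕ}

/-- subsets with at most `q` elements (induction on `q`, or an injection as in `card_small`) -/
theorem card_pow_le (V : Finset (Fin N)) (q : ℕ) :
    (V.powerset.filter (fun S => S.card ≤ q)).card ≤ (V.card + 1) ^ q := by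
  refine le_trans (Finset.card_le_card ?_) (SG_card_sub V q)
  intro S hS
  obtain ⟨h1, h2⟩ := Finset.mem_filter.1 hS
  exact Finset.mem_filter.2 ⟨Finset.mem_univ _, Finset.mem_powerset.1 h1, h2⟩

/-- the hub is small: `card_Vs_le`, `lvo_zero_le`, `M^(lv 0 - 4) ≤ M^(27 n0)` -/
theorem card_hub_le {M : ℝ} (hM : 1 < M) {n0 i : ℕ} (hi : i < n0) (C : Finset (Finset (Fin N)))
    (hC0 : C.Nonempty) (q : ℕ) (hC : ∀ A ∈ C, A.card = q) (s : St N r)
    (hs : s.ty = typ M r C) :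
    ((Vs (lvo n0 i) s 0).card : ℝ) ≤ q * M ^ (27 * n0) := by
  refine (card_Vs_le hM C hC0 q hC (lvo n0 i) 0 s hs).trans ?_
  refine mul_le_mul_of_nonneg_left (pow_le_pow_right₀ hM.le ?_) (Nat.cast_nonneg _)
  have := lvo_zero_le hi
  omega

/-- `Sub lv q s 0` is small: `card_pow_le`, `card_hub_le` -/
theorem log_Sub_le {M : ℝ} (hM : 1 < M) {n0 i : ℕ} (hi : i < n0) (C : Finset (Finset (Fin N)))
    (hC0 : C.Nonempty) (q : ℕ) (hC : ∀ A ∈ C, A.card = q) (s : St N r)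
    (hs : s.ty = typ M r C) :
    Real.log ((Sub (lvo n0 i) q s 0).card : ℝ) ≤ q * Real.log (q * M ^ (27 * n0) + 1) := by
  have h1 := card_hub_le hM hi C hC0 q hC s hs
  have h2 : (Sub (lvo n0 i) q s 0).card ≤ ((Vs (lvo n0 i) s 0).card + 1) ^ q :=
    card_pow_le _ q
  have h3 : 0 < (Sub (lvo n0 i) q s 0).card := by
    refine Finset.card_pos.2 ⟨∅, ?_⟩
    exact Finset.mem_filter.2 ⟨Finset.empty_mem_powerset _, by simp⟩
  have h4 : ((Sub (lvo n0 i) q s 0).card : ℝ) ≤ (((Vs (lvo n0 i) s 0).card : ℝ) + 1) ^ q := by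
    exact_mod_cast h2
  have h5 : (0 : ℝ) < ((Sub (lvo n0 i) q s 0).card : ℝ) := by exact_mod_cast h3
  have h6 := Real.log_le_log h5 h4
  rw [Real.log_pow] at h6
  refine h6.trans (mul_le_mul_of_nonneg_left ?_ (Nat.cast_nonneg _))
  exact Real.log_le_log (by positivity) (by linarith)

/-- Few members have few generators. Proof: the filter is contained in the family of `small_G`
(with `g0 = ⌊c⌋₊`), take logarithms (`card_hub_le`, `⌊c⌋₊ ≤ c`, `hC1`); if the filter is empty the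
claim is clear. -/
theorem G0_small {M : ℝ} (hM : 1 < M) {n0 i : ℕ} (hi : i < n0) (C : Finset (Finset (Fin N)))
    (hC0 : C.Nonempty) (q : ℕ) (hC : ∀ A ∈ C, A.card = q) (s : St N r)
    (hs : s.ty = typ M r C)
    (hord : ∀ p ∈ s.rel, s.ty p.1 < s.ty p.2 ∨ (s.ty p.1 = s.ty p.2 ∧ p.1 < p.2)) (D0 : ℕ)
    (hdeg : ∀ a, (s.rel.filter (fun p => p.1 = a)).card ≤ D0) {c : ℝ} (hc : 0 ≤ c)
    (hC1 : c * Real.log ((N : ℝ) + 1) + q * Real.log (q * M ^ (27 * n0) + 1) +
      q * Real.log (q * D0 + 1) + Real.log 16 ≤ Real.log (C.card : ℝ)) :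
    16 * (C.filter (fun A => ((Ge (lvo n0 i) s A).card : ℝ) < c)).card ≤ C.card := by
  have hM0 : 0 < M := by linarith
  obtain ⟨F, hF⟩ : ∃ F, F = C.filter (fun A => ((Ge (lvo n0 i) s A).card : ℝ) < c) := ⟨_, rfl⟩
  rw [← hF]
  have hsub : F ⊆ (Finset.univ : Finset (Finset (Fin N))).filter
      (fun A => A.card ≤ q ∧ (Ge (lvo n0 i) s A).card ≤ ⌊c⌋₊) := by
    intro A hA
    rw [hF] at hA
    obtain ⟨h1, h2⟩ := Finset.mem_filter.1 hA
    exact Finset.mem_filter.2 ⟨Finset.mem_univ _, (hC A h1).le, Nat.le_floor h2.le⟩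
  have h1 := (Finset.card_le_card hsub).trans (small_G (lvo n0 i) s hord D0 hdeg q ⌊c⌋₊)
  rcases Nat.eq_zero_or_pos F.card with h0 | h0
  · rw [h0]
    exact Nat.zero_le _
  have h2 : (F.card : ℝ) ≤ (((Vs (lvo n0 i) s 0).card : ℝ) + 1) ^ q * ((N : ℝ) + 1) ^ ⌊c⌋₊ *
      ((q : ℝ) * D0 + 1) ^ q := by
    exact_mod_cast h1
  have h3 : (0 : ℝ) < F.card := by exact_mod_cast h0
  have h4 := Real.log_le_log h3 h2
  have hv : (0 : ℝ) < ((Vs (lvo n0 i) s 0).card : ℝ) + 1 := by positivity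
  have hn : (0 : ℝ) < (N : ℝ) + 1 := by positivity
  have hq : (0 : ℝ) < (q : ℝ) * D0 + 1 := by positivity
  rw [Real.log_mul (by positivity) (by positivity), Real.log_mul (by positivity) (by positivity),
    Real.log_pow, Real.log_pow, Real.log_pow] at h4
  have h5 : (q : ℝ) * Real.log (((Vs (lvo n0 i) s 0).card : ℝ) + 1) ≤
      q * Real.log (q * M ^ (27 * n0) + 1) := by
    refine mul_le_mul_of_nonneg_left (Real.log_le_log hv ?_) (Nat.cast_nonneg _)
    have := card_hub_le hM hi C hC0 q hC s hs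
    linarith
  have h6 : ((⌊c⌋₊ : ℕ) : ℝ) * Real.log ((N : ℝ) + 1) ≤ c * Real.log ((N : ℝ) + 1) :=
    mul_le_mul_of_nonneg_right (Nat.floor_le hc) (Real.log_nonneg (by
      have : (0 : ℝ) ≤ N := Nat.cast_nonneg _
      linarith))
  have hC2 : (0 : ℝ) < C.card := by
    have := Finset.card_pos.2 hC0
    exact_mod_cast this
  have h7 : Real.log (16 * (F.card : ℝ)) ≤ Real.log (C.card : ℝ) := by
    rw [Real.log_mul (by norm_num) h3.ne']
    linarith
  have h8 : 16 * (F.card : ℝ) ≤ C.card := (Real.log_le_log_iff (by positivity) hC2).1 h7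
  exact_mod_cast h8

theorem av1_le {C : Finset (Finset (Fin N))} (hC : C.Nonempty) {f : Finset (Fin N) → ℝ} {c : ℝ}
    (h : ∀ A ∈ C, f A ≤ c) : av1 C f ≤ c := by
  unfold av1
  have hc : (0 : ℝ) < (C.card : ℝ) := by exact_mod_cast hC.card_pos
  rw [div_le_iff₀ hc]
  have h1 := Finset.sum_le_sum h
  rw [Finset.sum_const, nsmul_eq_mul] at h1
  linarith

end C0st
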