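import Pool.Agent.W_c0up_h14.PW
import Pool.Agent.W_c0up_h86.C4

/-!
# MP_c0ce05_co, upper bounds: the pointwise bound
-/

set_option autoImplicit false

namespace C0st

open scoped Classical
open C0lo

variable {N r : ℕ}

/-- The pointwise bound. Proof: `count_dbl` gives `s0`; apply `num2` with `L = logb 2 N`,
`g0 = log (4/3) / log 2` (`g0_bounds`), `f = |A \ Vs|`, `g = |Ge|`, `u = |A ∩ Vs|`,
`T = ∑ |Uk ∩ clm|`, `D = ∑ prt`, `e1 = z + b`, `δ = q / (n/2 + 1)`: `claimed_lower`, `prt_le`,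
`sum_prt_le`; `f + u = q`, `g ≤ f ≤ q`; `log N = L log 2` and
`∑ gn = log 2 * (T - g0 D)`. -/
theorem pointwise {η z b E0 : ℝ} (hη : 0 < η) (hη1 : η ≤ 1 / 200) (hN : 2 ≤ N) {Dl q hu K n : ℕ}
    (P : GP N) (hP : P.Valid Dl) (A R : Finset (Fin N)) (lv : ℕ → ℕ) (hlv : Monotone lv)
    (s : St N r) (hdb : s.db = P.db) (hclm : s.clm = P.C)
    (hrel : ∀ a b, (a, b) ∈ s.rel ↔ Bef s.ty a b ∧ Rch P R n a b)
    (hL : ∀ x ∈ A, x ∈ Lam P R → x ∈ Vs lv s 0) (hK : 2 * r + 5 ≤ lv K)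
    (hty : ∀ x ∈ A, (s.ty x : ℕ) ≤ r) (hA : A.card = q) (hun : (ed A \ P.C).card ≤ hu)
    (hhu : (hu : ℝ) ≤ η * Real.logb 2 N ^ 2) (hq : (2 + 20 * η) * Real.logb 2 N ≤ q)
    (M : ℝ) (C : Finset (Finset (Fin N)))
    (hb : (((A ×ˢ A).filter (fun p => Bad M C p.1 p.2)).card : ℝ) ≤ b)
    (hz : (((ed A).filter (fun e => Zone lv K (tau s e))).card : ℝ) ≤ z)
    (hE : ((excS P A R).card : ℝ) ≤ E0)
    (hg : 57 / 100 * η * Real.logb 2 N ≤ (Ge lv s A).card) :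
    ((Ge lv s A).card : ℝ) * Real.log N -
        ∑ k ∈ Finset.range K, gn s (Uk lv s M C k A) (Pairs lv s k A) ≤
      Real.log 2 * (49 / 100 * η * Real.logb 2 N ^ 2 +
        (q + (z + b) + E0 + (q : ℝ) ^ 2 / ((n / 2 + 1 : ℕ) : ℝ))) := by
  obtain ⟨s0, hs1, hs2, hs3⟩ := count_dblM P hP A R n lv s hdb hrel hL
  have hlog2 : 0 < Real.log 2 := Real.log_pos (by norm_num)
  have hN1 : (1 : ℝ) < N := by
    have : (2 : ℝ) ≤ N := by exact_mod_cast hN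
    linarith
  have hLpos : 0 < Real.logb 2 N := Real.logb_pos (by norm_num) hN1
  have hlogN : Real.log N = Real.logb 2 N * Real.log 2 := by
    unfold Real.logb
    field_simp
  -- cardinalities
  have hGsub : Ge lv s A ⊆ A \ Vs lv s 0 := by
    intro x hx
    have h := Finset.mem_filter.1 hx
    exact Finset.mem_sdiff.2 ⟨h.1, h.2.1⟩
  have hgf : (Ge lv s A).card ≤ (A \ Vs lv s 0).card := Finset.card_le_card hGsub
  have hfu : (A \ Vs lv s 0).card + (A ∩ Vs lv s 0).card = q := by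
    rw [← hA]
    exact Finset.card_sdiff_add_card_inter A (Vs lv s 0)
  have hfuR : ((A \ Vs lv s 0).card : ℝ) + ((A ∩ Vs lv s 0).card : ℝ) = q := by
    exact_mod_cast hfu
  have hgfR : ((Ge lv s A).card : ℝ) ≤ ((A \ Vs lv s 0).card : ℝ) := by exact_mod_cast hgf
  have hu0 : (0 : ℝ) ≤ ((A ∩ Vs lv s 0).card : ℝ) := Nat.cast_nonneg _
  have hg0' : (0 : ℝ) ≤ ((Ge lv s A).card : ℝ) := Nat.cast_nonneg _
  have hz0 : 0 ≤ z := le_trans (Nat.cast_nonneg _) hz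
  have hb0 : 0 ≤ b := le_trans (Nat.cast_nonneg _) hb
  have hE00 : 0 ≤ E0 := le_trans (Nat.cast_nonneg _) hE
  have hn0 : (0 : ℝ) < ((n / 2 + 1 : ℕ) : ℝ) := by exact_mod_cast Nat.succ_pos _
  have hq0 : (0 : ℝ) ≤ q := Nat.cast_nonneg _
  have hδ0 : (0 : ℝ) ≤ (q : ℝ) / ((n / 2 + 1 : ℕ) : ℝ) := div_nonneg hq0 hn0.le
  -- the lower bound for the claimed edges
  have hcl := claimed_lower lv K s hK M C A hty
  have hun' : ((ed A \ s.clm).card : ℝ) ≤ η * Real.logb 2 N ^ 2 := by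
    rw [hclm]
    have h : ((ed A \ P.C).card : ℝ) ≤ hu := by exact_mod_cast hun
    exact h.trans hhu
  have hclR : (((A \ Vs lv s 0).card.choose 2 : ℕ) : ℝ) +
      ((Ge lv s A).card : ℝ) * ((A ∩ Vs lv s 0).card : ℝ) ≤
      (∑ k ∈ Finset.range K, ((Uk lv s M C k A ∩ s.clm).card : ℝ)) +
        ((ed A \ s.clm).card : ℝ) +
        (((ed A).filter (fun e => Zone lv K (tau s e))).card : ℝ) +
        (((A ×ˢ A).filter (fun p => Bad M C p.1 p.2)).card : ℝ) := by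
    exact_mod_cast hcl
  rw [Nat.cast_choose_two] at hclR
  -- the discounted edges
  have hdin : ∀ d ∈ s.db, ∀ d' ∈ s.db, d.1 = d'.1 → d = d' := by
    rw [hdb]
    exact hP.fn
  have hdcl : ∀ d ∈ s.db, d.1 ∈ s.clm := by
    rw [hdb, hclm]
    exact hP.fst
  have hDT : (∑ k ∈ Finset.range K, (prt s (Uk lv s M C k A) (Pairs lv s k A) : ℝ)) ≤
      ∑ k ∈ Finset.range K, ((Uk lv s M C k A ∩ s.clm).card : ℝ) := by
    refine Finset.sum_le_sum (fun k _ => ?_)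
    exact_mod_cast prt_le s hdin hdcl _ _
  have hsum := sum_prt_le lv hlv K s M C A
  have hDN : (∑ k ∈ Finset.range K, prt s (Uk lv s M C k A) (Pairs lv s k A)) + s0.choose 2 ≤
      (A \ Vs lv s 0).card.choose 2 + (Ge lv s A).card * (A ∩ Vs lv s 0).card +
        (excS P A R).card := (Nat.add_le_add_right hsum _).trans hs3
  have hDR : (∑ k ∈ Finset.range K, (prt s (Uk lv s M C k A) (Pairs lv s k A) : ℝ)) +
      ((s0.choose 2 : ℕ) : ℝ) ≤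
      (((A \ Vs lv s 0).card.choose 2 : ℕ) : ℝ) +
        ((Ge lv s A).card : ℝ) * ((A ∩ Vs lv s 0).card : ℝ) + ((excS P A R).card : ℝ) := by
    exact_mod_cast hDN
  rw [Nat.cast_choose_two, Nat.cast_choose_two] at hDR
  have hs2R : ((Ge lv s A).card : ℝ) ≤ (s0 : ℝ) + (q : ℝ) / ((n / 2 + 1 : ℕ) : ℝ) := by
    rw [hA] at hs2
    have h : ((Ge lv s A).card : ℝ) * ((n / 2 + 1 : ℕ) : ℝ) ≤
        (s0 : ℝ) * ((n / 2 + 1 : ℕ) : ℝ) + (q : ℝ) := by exact_mod_cast hs2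
    have h2 : (s0 : ℝ) + (q : ℝ) / ((n / 2 + 1 : ℕ) : ℝ) =
        ((s0 : ℝ) * ((n / 2 + 1 : ℕ) : ℝ) + (q : ℝ)) / ((n / 2 + 1 : ℕ) : ℝ) := by
      field_simp
    rw [h2, le_div_iff₀ hn0]
    exact h
  have hs1R : (s0 : ℝ) ≤ ((Ge lv s A).card : ℝ) := by exact_mod_cast hs1
  have hmain := num2 (η := η) (g0 := Real.log (4 / 3) / Real.log 2) (L := Real.logb 2 N)
    (f := ((A \ Vs lv s 0).card : ℝ)) (g := ((Ge lv s A).card : ℝ))
    (u := ((A ∩ Vs lv s 0).card : ℝ))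
    (T := ∑ k ∈ Finset.range K, ((Uk lv s M C k A ∩ s.clm).card : ℝ))
    (D := ∑ k ∈ Finset.range K, (prt s (Uk lv s M C k A) (Pairs lv s k A) : ℝ))
    (s0 := (s0 : ℝ)) (e1 := z + b) (E0 := E0) (δ := (q : ℝ) / ((n / 2 + 1 : ℕ) : ℝ))
    hη hη1 g0_bounds.1 g0_bounds.2 hLpos hu0 hgfR hg (by rw [hfuR]; exact hq) (by linarith) hE00
    hδ0 (by linarith) hDT (Nat.cast_nonneg _) hs1R hs2R (by linarith)
  -- the gains
  have hgn : ∑ k ∈ Finset.range K, gn s (Uk lv s M C k A) (Pairs lv s k A) =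
      Real.log 2 * ((∑ k ∈ Finset.range K, ((Uk lv s M C k A ∩ s.clm).card : ℝ)) -
        Real.log (4 / 3) / Real.log 2 *
          ∑ k ∈ Finset.range K, (prt s (Uk lv s M C k A) (Pairs lv s k A) : ℝ)) := by
    unfold gn
    rw [Finset.sum_sub_distrib, ← Finset.sum_mul, ← Finset.sum_mul]
    field_simp
  rw [hgn, hlogN]
  have hgδ : ((Ge lv s A).card : ℝ) * ((q : ℝ) / ((n / 2 + 1 : ℕ) : ℝ)) ≤
      (q : ℝ) ^ 2 / ((n / 2 + 1 : ℕ) : ℝ) := by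
    have h : ((Ge lv s A).card : ℝ) ≤ q := by linarith
    calc ((Ge lv s A).card : ℝ) * ((q : ℝ) / ((n / 2 + 1 : ℕ) : ℝ))
        ≤ (q : ℝ) * ((q : ℝ) / ((n / 2 + 1 : ℕ) : ℝ)) := mul_le_mul_of_nonneg_right h hδ0
      _ = (q : ℝ) ^ 2 / ((n / 2 + 1 : ℕ) : ℝ) := by ring
  have hfin : ((Ge lv s A).card : ℝ) * Real.logb 2 N -
      (∑ k ∈ Finset.range K, ((Uk lv s M C k A ∩ s.clm).card : ℝ)) +
      Real.log (4 / 3) / Real.log 2 *
        (∑ k ∈ Finset.range K, (prt s (Uk lv s M C k A) (Pairs lv s k A) : ℝ)) ≤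
      49 / 100 * η * Real.logb 2 N ^ 2 +
        (q + (z + b) + E0 + (q : ℝ) ^ 2 / ((n / 2 + 1 : ℕ) : ℝ)) := by
    refine hmain.trans ?_
    linarith
  calc ((Ge lv s A).card : ℝ) * (Real.logb 2 N * Real.log 2) -
        Real.log 2 * ((∑ k ∈ Finset.range K, ((Uk lv s M C k A ∩ s.clm).card : ℝ)) -
          Real.log (4 / 3) / Real.log 2 *
            ∑ k ∈ Finset.range K, (prt s (Uk lv s M C k A) (Pairs lv s k A) : ℝ))
      = Real.log 2 * (((Ge lv s A).card : ℝ) * Real.logb 2 N -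
          (∑ k ∈ Finset.range K, ((Uk lv s M C k A ∩ s.clm).card : ℝ)) +
          Real.log (4 / 3) / Real.log 2 *
            (∑ k ∈ Finset.range K, (prt s (Uk lv s M C k A) (Pairs lv s k A) : ℝ))) := by ring
    _ ≤ _ := mul_le_mul_of_nonneg_left hfin hlog2.le

end C0st
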