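import Pool.Agent.W_c0up_h14.MB
import Pool.Agent.W_c0up_h14.PX
import Pool.Agent.W_c0up_h14.DefB
import Pool.Agent.W_c0up_h86.G1
import Pool.Agent.W_c0up_h86.D2

/-!
# MP_c0ce05_co, upper bounds: the main finite theorem
-/

set_option autoImplicit false

namespace C0st

open scoped Classical
open C0lo

/-- The main finite theorem. Proof. The objects are those of `gibbsHS` for `I = Fin n0`,
`lv i = lvo n0 i`, `b i = br M (lvo n0 i) (9 * n0)`, `n i k = nd M r D0 q (lvo n0 i k)`, `K = r`.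
Let `P`, `C`, `R` be as in the statement and suppose `log |C| > T`, `T` the right side. Put
`s = stG M r P C R n` (`massS_stG`), take the offset `i < n0` from `exists_offset n0 r _ s C`,
`lv = lvo n0 i`, `G0` = the members `A` of `C` with `|Ge lv s A| < c = .57 η L` (`G0_small`, `errG`)
and `C1` from `typical` with `X = Lam P R` (`card_Lam_le`, `x0`), `f A` = number of the zone edges.
For `A ∈ C1`: `pointwise` with `K = r`, `z = 16 q² / n0`, `b = 16 (eps q²)`; `hL`: `typ_le_two`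
(`2 + 4 < lv 0`, `2 ≤ r`); `2 r + 5 ≤ lv r` (`lvo_ge`). So the first term of `gibbs` for `C1`,
`U = Uk lv s M C`, `θ k = 2 / M ^ (lv k + 4)` (`theta`), `Λ k = 4 * |Fin n0| * r * |Data ..|` is at
most `log 2 * (49/100 + 3/100) η L²` (`av1_le`, `errP`). `Ok`: `ok_stG`. `A ⊆ Vs lv s r`: `lvo_ge`.
`hH`: from the property of the objects, `restr_mem` with `card_typ_le` (so `Data` is not empty).
`log |Sub| ≤ errS` (`log_Sub_le`). The sum over `k < r` is at most `r * errK` (`step_err`,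
`errT`). Altogether `log |C1| ≤ (.52 + .001 + .01) η L² log 2`, but
`log |C1| ≥ log |C| - log 2 > (.575 - .01) η L² log 2` (`big`). -/
theorem static_main {η M eps E0 : ℝ} {N r n0 n q hu Dl D0 : ℕ}
    (h : Big η M eps E0 N r n0 n q hu Dl D0) :
    ∃ (ι : Type) (_ : Fintype ι) (Z : ι → Finset (Sym2 (Fin N))) (a : ι → ℝ),
      (∀ i, 0 ≤ a i) ∧ ∑ i, a i * (1 / 2 : ℝ) ^ (Z i).card ≤ 1 / 4 ∧
      ∀ P : GP N, P.Valid Dl → ∑ i, a i * P.mass (Z i) < 1 →
        ∀ (C : Finset (Finset (Fin N))) (R : Finset (Fin N)), C ⊆ P.near q hu → C.Nonempty →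
          R.card ≤ q → (∀ A ∈ C, ((excS P A R).card : ℝ) ≤ E0) →
          ∑ A ∈ C, (((A ×ˢ A).filter (fun p => Bad M C p.1 p.2)).card : ℝ) ≤
            eps * (q : ℝ) ^ 2 * C.card →
          Real.log (C.card : ℝ) ≤ 575 / 1000 * η * Real.logb 2 N ^ 2 * Real.log 2 := by
  have hN1 : 1 ≤ N := le_trans (by norm_num) h.N2
  have hM1 : (1 : ℝ) < M := by linarith [h.M16]
  have hM0 : (0 : ℝ) < M := by linarith
  obtain ⟨ι, hι, Z, a, ha, hsum, hobj⟩ := gibbsHS (N := N) (r := r) hN1 (I := Fin n0)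
    (fun i => lvo n0 (i : ℕ)) (fun i => br M (lvo n0 (i : ℕ)) (9 * n0))
    (fun i k => nd M r D0 q (lvo n0 (i : ℕ) k)) q r
  refine ⟨ι, hι, Z, a, ha, hsum, ?_⟩
  intro P hP hmass C R hCn hC0 hRq hE hBad
  by_contra hcon
  rw [not_le] at hcon
  have hCq : ∀ A ∈ C, A.card = q := fun A hA => (Finset.mem_filter.1 (hCn hA)).2.1
  have hCK : ∀ A ∈ C, Disjoint (ed A) P.K := fun A hA => (Finset.mem_filter.1 (hCn hA)).2.2.1
  have hCu : ∀ A ∈ C, (ed A \ P.C).card ≤ hu := fun A hA =>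
    (Finset.mem_filter.1 (hCn hA)).2.2.2
  set L : ℝ := Real.logb 2 N with hL
  have hlog2 : 0 < Real.log 2 := Real.log_pos (by norm_num)
  set s : St N r := stG M r P C R n with hs
  have hty : s.ty = typ M r C := rfl
  have hmS : ∑ j, a j * massS s (Z j) < 1 := by
    have h1 : ∀ j, massS s (Z j) = P.mass (Z j) := fun j => massS_stG M P C R n (Z j)
    rw [Finset.sum_congr rfl (fun j _ => by rw [h1 j])]
    exact hmass
  obtain ⟨i, hi, hoff⟩ := exists_offset n0 r h.n01 s C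
  have hOk : Ok (lvo n0 i) (9 * n0) D0 Dl s := ok_stG h.n01 i M P hP C R n q D0 hRq h.D0e
  set lv : ℕ → ℕ := lvo n0 i with hlv
  have hlvge : ∀ k, 9 * (2 + k) ≤ lv k := lvo_ge h.n01 i
  have hlvm : Monotone lv := lvo_mono n0 i
  -- the members with few generators
  have hG0 : 16 * (C.filter (fun A => ((Ge lv s A).card : ℝ) < 57 / 100 * η * L)).card ≤
      C.card := by
    refine G0_small hM1 hi C hC0 q hCq s hty hOk.ord D0 hOk.deg (c := 57 / 100 * η * L) ?_ ?_
    · have hη := h.e0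
      have hN2 : (2 : ℝ) ≤ N := by exact_mod_cast h.N2
      have hL0 : 0 ≤ L := Real.logb_nonneg (by norm_num) (by linarith)
      positivity
    · exact h.errG.trans hcon.le
  -- typical members
  have hX : 16 * ((Lam P R).card : ℝ) ≤ M ^ 2 := by
    refine le_trans ?_ h.x0
    have h1 : (Lam P R).card ≤ q ^ 2 * (2 + 4 * Dl) :=
      (card_Lam_le P hP R).trans (Nat.mul_le_mul_right _ (Nat.pow_le_pow_left hRq 2))
    have h2 : ((Lam P R).card : ℝ) ≤ (q : ℝ) ^ 2 * (2 + 4 * Dl) := by exact_mod_cast h1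
    linarith
  obtain ⟨C1, hC1C, hC12, hC1⟩ := typical h.M16 (le_of_eq h.MN.symm) C hC0 q hCq (Lam P R) eps
    hBad (fun A => ((ed A).filter (fun e => Zone lv r (tau s e))).card) n0 hoff
    (C.filter (fun A => ((Ge lv s A).card : ℝ) < 57 / 100 * η * L))
    (Finset.filter_subset _ _) hG0 hX
  have hCpos : 0 < C.card := hC0.card_pos
  have hC1pos : 0 < C1.card := by omega
  have hC1ne : C1.Nonempty := Finset.card_pos.1 hC1pos
  -- the pointwise bound
  have hpt : ∀ A ∈ C1, ((Ge lv s A).card : ℝ) * Real.log N -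
        ∑ k ∈ Finset.range r, gn s (Uk lv s M C k A) (Pairs lv s k A) ≤
      Real.log 2 * (52 / 100 * η * L ^ 2) := by
    intro A hA
    have hAC := hC1C hA
    obtain ⟨h1, h2, h3, h4, h5⟩ := hC1 A hA
    have hz : (((ed A).filter (fun e => Zone lv r (tau s e))).card : ℝ) ≤
        16 * (q : ℝ) ^ 2 / n0 := by
      have hn0 : (0 : ℝ) < n0 := by exact_mod_cast (by linarith [h.n01] : 0 < n0)
      rw [le_div_iff₀ hn0, mul_comm]
      exact_mod_cast h5
    have hg : 57 / 100 * η * Real.logb 2 N ≤ ((Ge lv s A).card : ℝ) := by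
      by_contra hcon2
      rw [not_le] at hcon2
      exact h1 (Finset.mem_filter.2 ⟨hAC, hcon2⟩)
    have hrel : ∀ x y, (x, y) ∈ s.rel ↔ Bef s.ty x y ∧ Rch P R n x y := by
      intro x y
      rw [hs]
      unfold stG
      rw [Finset.mem_filter, and_iff_right (Finset.mem_univ _)]
    have hLam : ∀ x ∈ A, x ∈ Lam P R → x ∈ Vs lv s 0 := by
      intro x hx hxL
      have h6 := typ_le_two (r := r) hM1 C hC0 x (h3 x hx hxL)
      rw [← hty] at h6
      rw [mem_Vs]
      have h7 := hlvge 0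
      have h8 := h.r2
      omega
    have h6 := pointwise h.e0 h.e1 h.N2 (K := r) (n := n) P hP A R lv hlvm s rfl rfl hrel hLam
      (by have := hlvge r; omega) h2 (hCq A hAC) (hCu A hAC) h.huL h.qL M C h4 hz (hE A hAC) hg
    refine h6.trans (mul_le_mul_of_nonneg_left ?_ hlog2.le)
    have h7 := h.errP
    linarith
  -- the data are small
  have hres : ∀ k, restr lv k s ∈ Data N r (nd M r D0 q (lv k)) := by
    intro k
    refine restr_mem hOk hM1.le h.q1 (fun j hj => ?_) k _ (Nat.le_ceil _)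
    exact card_typ_le hM1 C hC0 q hCq j hj
  have hDpos : ∀ k, 0 < (Data N r (nd M r D0 q (lv k))).card := fun k =>
    Finset.card_pos.2 ⟨_, hres k⟩
  have hg := gibbs hOk hN1 (b := br M lv (9 * n0)) (br_pos hM1.le lv (9 * n0)) hC1ne (q := q)
    (fun A hA => (hCq A (hC1C hA)).le) (K := r)
    (fun A hA x hx => mem_Vs.2 (by
      have h6 := (hC1 A hA).2.1 x hx
      rw [← hty] at h6
      have h7 := hlvge r
      omega))
    (fun A hA => hCK A (hC1C hA)) (fun k A => Uk lv s M C k A)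
    (fun k => 2 / M ^ (lv k + 4))
    (fun k _ A _ => Uk_subset lv s M C k A)
    (fun k _ => by positivity)
    (fun k _ e => theta hM1 C C1 hC1C hC12 hC0 lv s hty k e)
    (Λ := fun k => 4 * (Fintype.card (Fin n0) : ℝ) * (r : ℝ) *
      ((Data N r (nd M r D0 q (lv k))).card : ℝ))
    (fun k _ => by
      have h1 : (0 : ℝ) < (Fintype.card (Fin n0) : ℝ) := by
        rw [Fintype.card_fin]
        exact_mod_cast (by linarith [h.n01] : 0 < n0)
      have h2 : (0 : ℝ) < (r : ℝ) := by exact_mod_cast (by linarith [h.r2] : 0 < r)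
      have h3 : (0 : ℝ) < ((Data N r (nd M r D0 q (lv k))).card : ℝ) := by
        exact_mod_cast hDpos k
      positivity)
    (fun k hk => hobj s hmS ⟨i, hi⟩ (9 * n0) D0 Dl hOk k hk (hres k))
  -- the three terms
  have ht1 : av1 C1 (fun A => ((Ge lv s A).card : ℝ) * Real.log N -
        ∑ k ∈ Finset.range r, gn s (Uk lv s M C k A) (Pairs lv s k A)) ≤
      Real.log 2 * (52 / 100 * η * L ^ 2) := av1_le hC1ne hpt
  have ht2 : Real.log ((Sub lv q s 0).card : ℝ) ≤ 1 / 1000 * η * L ^ 2 * Real.log 2 :=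
    (log_Sub_le hM1 hi C hC0 q hCq s hty).trans h.errS
  have ht3 : ∑ k ∈ Finset.range r, (Real.log (4 * (Fintype.card (Fin n0) : ℝ) * (r : ℝ) *
      ((Data N r (nd M r D0 q (lv k))).card : ℝ)) / (mm (br M lv (9 * n0)) (k + 1) : ℝ) +
        ((r : ℝ) + 1) + (q : ℝ) * Real.log ((q : ℝ) * D0 + 1) +
        (mm (br M lv (9 * n0)) (k + 1) : ℝ) *
          (2 / M ^ (lv k + 4) * ((Dl : ℝ) + 1) * (q : ℝ) ^ 2)) ≤
      1 / 100 * η * L ^ 2 * Real.log 2 := by
    refine le_trans ?_ h.errT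
    have h1 : ∀ k ∈ Finset.range r, (Real.log (4 * (Fintype.card (Fin n0) : ℝ) * (r : ℝ) *
      ((Data N r (nd M r D0 q (lv k))).card : ℝ)) / (mm (br M lv (9 * n0)) (k + 1) : ℝ) +
        ((r : ℝ) + 1) + (q : ℝ) * Real.log ((q : ℝ) * D0 + 1) +
        (mm (br M lv (9 * n0)) (k + 1) : ℝ) *
          (2 / M ^ (lv k + 4) * ((Dl : ℝ) + 1) * (q : ℝ) ^ 2)) ≤
        errK M N r n0 r D0 Dl q := by
      intro k hk
      rw [Fintype.card_fin]
      exact step_err hM1.le hN1 n0 r D0 Dl q h.n01 h.q1 lv (9 * n0) (lvo_step n0 i)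
        (fun k => by have := hlvge k; omega) k (Finset.mem_range.1 hk) (hDpos k)
    refine (Finset.sum_le_sum h1).trans ?_
    rw [Finset.sum_const, Finset.card_range, nsmul_eq_mul]
  -- the contradiction
  have hlogC : Real.log (C.card : ℝ) ≤ Real.log 2 + Real.log (C1.card : ℝ) := by
    have h1 : (0 : ℝ) < (C1.card : ℝ) := by exact_mod_cast hC1pos
    rw [← Real.log_mul (by norm_num) h1.ne']
    refine Real.log_le_log (by exact_mod_cast hCpos) ?_
    exact_mod_cast hC12
  have hbig := mul_le_mul_of_nonneg_right h.big hlog2.le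
  have hkey : Real.log (C1.card : ℝ) ≤ Real.log 2 * (52 / 100 * η * L ^ 2) +
      1 / 1000 * η * L ^ 2 * Real.log 2 + 1 / 100 * η * L ^ 2 * Real.log 2 := by
    refine hg.trans ?_
    exact add_le_add (add_le_add ht1 ht2) ht3
  rw [one_mul] at hbig
  nlinarith

end C0st
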