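import Mathlib

/-!
# MP_c0ce05_co, upper bounds: the final numbers (proofs rows 505, 508)
-/

set_option autoImplicit false

namespace C0st

/-- The two regimes. Write `γ = 1 - g0 ∈ [.58, .59]`, `c = 2 + 20 η`.
If `g ≤ L/2` the second alternative holds: from `g u ≥ g (c L - f)` and `f²/2 - g f ≥ - g²/2`
(for `f + u ≥ c L`) the left side is at most `g L - γ (2 g L - g²/2 - η L²)`, a convex quadratic
polynomial in `g`, and for `g = .57 η L` it is `≤ (.4888 + .1 η) η L²`, for `g = L/2` it is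
`≤ (-.0075 + .59 η) L²`.
If `g ≥ L/2` the first alternative holds: the left side is
`g L - γ (f²/2 + g u) - g0 g²/2 + η L²`. If `f ≤ c L` then as above
`≤ g L - γ (c g L - g²/2) - g0 g²/2 + η L² = (1 - γ c) g L + (γ - g0) g²/2 + η L²`, convex in `g`
(`g0 ≤ γ`), at `g = L/2` at most `(-.06 + η) L²`, at `g = c L` (`g ≤ f ≤ c L`) equal to
`(c (1 - c/2) + η) L² ≤ (- 20 η + η) L²`. If `f ≥ c L`: drop `g u`; if `g ≤ c L` then
`g L - γ f²/2 - g0 g²/2 ≤ g L - γ c² L²/2 - g0 g²/2 ≤ c L² - c² L²/2` (increasing in `g ≤ c L`, as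
`g0 c ≤ 1`), if `g ≥ c L` then `≤ g L - g²/2 ≤ c L² - c² L²/2`. -/
theorem num {η g0 L f g u : ℝ} (hη : 0 < η) (hη1 : η ≤ 1 / 200) (h1 : 41 / 100 ≤ g0)
    (h2 : g0 ≤ 42 / 100) (hL : 0 < L) (hu : 0 ≤ u) (hgf : g ≤ f) (hg : 57 / 100 * η * L ≤ g)
    (hq : (2 + 20 * η) * L ≤ f + u) :
    g * L - (f ^ 2 / 2 + g * u) + η * L ^ 2 + g0 * (f ^ 2 / 2 - g ^ 2 / 2 + g * u) ≤
        49 / 100 * η * L ^ 2 ∨
      g * L - (1 - g0) * (f ^ 2 / 2 + g * u - η * L ^ 2) ≤ 49 / 100 * η * L ^ 2 := by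
  have hηL : 0 < η * L := mul_pos hη hL
  have hg0 : 0 < g := by nlinarith
  have hLL : 0 < L ^ 2 := by positivity
  have hηLL : 0 < η * L ^ 2 := by positivity
  -- common bound
  have hcom : (2 + 20 * η) * (g * L) - g ^ 2 / 2 ≤ f ^ 2 / 2 + g * u := by
    have a1 : g * ((2 + 20 * η) * L) ≤ g * (f + u) := mul_le_mul_of_nonneg_left hq hg0.le
    nlinarith [sq_nonneg (f - g)]
  rcases le_total g (L / 2) with hc | hc
  · right
    have b1 : 0 ≤ (g - 57 / 100 * η * L) * (L / 2 - g) :=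
      mul_nonneg (by linarith) (by linarith)
    have b2 : g ^ 2 ≤ g * L / 2 + 57 / 100 * (η * (g * L)) - 285 / 1000 * (η * L ^ 2) := by
      nlinarith
    have b3 : 57 / 100 * (η * L ^ 2) ≤ g * L := by nlinarith
    have hgL : 0 < g * L := mul_pos hg0 hL
    have b4 : 0 < η * (g * L) := mul_pos hη hgL
    -- positivity of the bracket
    have b5 : 0 ≤ (2 + 20 * η) * (g * L) - g ^ 2 / 2 - η * L ^ 2 := by
      have b6 : g ^ 2 ≤ g * L / 2 := by nlinarith
      nlinarith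
    have b7 : 58 / 100 * ((2 + 20 * η) * (g * L) - g ^ 2 / 2 - η * L ^ 2) ≤
        (1 - g0) * (f ^ 2 / 2 + g * u - η * L ^ 2) := by
      apply mul_le_mul (by linarith) (by linarith) b5 (by linarith)
    nlinarith
  · left
    have hgL : 0 < g * L := mul_pos hg0 hL
    have hgu : 0 ≤ g * u := mul_nonneg hg0.le hu
    have hkey : g * L - (1 - g0) * (f ^ 2 / 2 + g * u) - g0 * (g ^ 2 / 2) ≤
        - (1 / 2) * (η * L ^ 2) → g * L - (f ^ 2 / 2 + g * u) + η * L ^ 2 +
          g0 * (f ^ 2 / 2 - g ^ 2 / 2 + g * u) ≤ 49 / 100 * η * L ^ 2 + (1 / 100) * (η * L ^ 2) := by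
      intro h
      nlinarith
    have hkey2 : g * L - (1 - g0) * (f ^ 2 / 2 + g * u) - g0 * (g ^ 2 / 2) ≤
        - (51 / 100) * (η * L ^ 2) := by
      rcases le_total f ((2 + 20 * η) * L) with hf | hf
      · have c1 : (1 - g0) * ((2 + 20 * η) * (g * L) - g ^ 2 / 2) ≤
            (1 - g0) * (f ^ 2 / 2 + g * u) := mul_le_mul_of_nonneg_left hcom (by linarith)
        have hgc : g ≤ (2 + 20 * η) * L := le_trans hgf hf
        have c2 : 0 ≤ g * ((2 + 20 * η) * L - g) := mul_nonneg hg0.le (by linarith)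
        have c3 : g * L - (1 - g0) * ((2 + 20 * η) * (g * L) - g ^ 2 / 2) - g0 * (g ^ 2 / 2) ≤
            g * L - 58 / 100 * ((2 + 20 * η) * (g * L)) + 8 / 100 * g ^ 2 := by
          have : 0 ≤ (42 / 100 - g0) * (g * ((2 + 20 * η) * L - g)) :=
            mul_nonneg (by linarith) c2
          nlinarith
        have c4 : 0 ≤ (g - L / 2) * ((2 + 20 * η) * L - g) :=
          mul_nonneg (by linarith) (by linarith)
        have c5 : g ^ 2 ≤ g * L / 2 + (2 + 20 * η) * (g * L) - (2 + 20 * η) * L ^ 2 / 2 := by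
          nlinarith
        have c6 : g * L - 58 / 100 * ((2 + 20 * η) * (g * L)) + 8 / 100 * g ^ 2 ≤
            (4 / 100 - 10 * η) * (g * L) - 4 / 100 * ((2 + 20 * η) * L ^ 2) := by
          nlinarith
        rcases le_total (10 * η) (4 / 100) with hh | hh
        · have c7 : (4 / 100 - 10 * η) * (g * L) ≤ (4 / 100 - 10 * η) * ((2 + 20 * η) * L * L) := by
            apply mul_le_mul_of_nonneg_left _ (by linarith)
            exact mul_le_mul_of_nonneg_right hgc hL.le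
          have c8 : 0 < η * (η * L ^ 2) := by positivity
          nlinarith
        · have c7 : (4 / 100 - 10 * η) * (g * L) ≤ 0 :=
            mul_nonpos_of_nonpos_of_nonneg (by linarith) hgL.le
          nlinarith
      · have d0 : 0 ≤ (1 - g0) * (g * u) := mul_nonneg (by linarith) hgu
        rcases le_total g ((2 + 20 * η) * L) with hgc | hgc
        · have d1 : ((2 + 20 * η) * L) ^ 2 ≤ f ^ 2 := by
            apply pow_le_pow_left₀ _ hf
            positivity
          have d2 : (1 - g0) * (((2 + 20 * η) * L) ^ 2) ≤ (1 - g0) * f ^ 2 :=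
            mul_le_mul_of_nonneg_left d1 (by linarith)
          -- gL - g0 g²/2 ≤ cL·L - g0 (cL)²/2
          have d3 : g * L - g0 * (g ^ 2 / 2) ≤ ((2 + 20 * η) * L) * L -
              g0 * (((2 + 20 * η) * L) ^ 2 / 2) := by
            have e1 : 0 ≤ L - g0 * (((2 + 20 * η) * L + g) / 2) := by
              have e2 : g0 * (((2 + 20 * η) * L + g) / 2) ≤ 42 / 100 * (((2 + 20 * η) * L + g) / 2) := by
                apply mul_le_mul_of_nonneg_right h2
                positivity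
              nlinarith
            have e3 : 0 ≤ ((2 + 20 * η) * L - g) * (L - g0 * (((2 + 20 * η) * L + g) / 2)) :=
              mul_nonneg (by linarith) e1
            nlinarith
          have c8 : 0 < η * (η * L ^ 2) := by positivity
          have d4 : ((2 + 20 * η) * L) * L - ((2 + 20 * η) * L) ^ 2 / 2 ≤
              - (51 / 100) * (η * L ^ 2) := by
            nlinarith
          nlinarith
        · have d1 : g ^ 2 ≤ f ^ 2 := pow_le_pow_left₀ hg0.le hgf 2
          have d2 : (1 - g0) * g ^ 2 ≤ (1 - g0) * f ^ 2 :=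
            mul_le_mul_of_nonneg_left d1 (by linarith)
          have d3 : g * L - g ^ 2 / 2 ≤ - (51 / 100) * (η * L ^ 2) := by
            have e1 : 0 ≤ (g - (2 + 20 * η) * L) * (g / 2 + (2 + 20 * η) * L / 2 - L) := by
              apply mul_nonneg (by linarith)
              nlinarith
            have c8 : 0 < η * (η * L ^ 2) := by positivity
            nlinarith
          nlinarith
    nlinarith

/-- `g0 = log₂(4/3)`: `2 ^ 41 ≤ (4/3) ^ 100` and `(4/3) ^ 50 ≤ 2 ^ 21` -/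
theorem g0_bounds : 41 / 100 ≤ Real.log (4 / 3) / Real.log 2 ∧
    Real.log (4 / 3) / Real.log 2 ≤ 42 / 100 := by
  have h2 : 0 < Real.log 2 := Real.log_pos (by norm_num)
  constructor
  · rw [le_div_iff₀ h2]
    have h : Real.log ((2 : ℝ) ^ 41) ≤ Real.log ((4 / 3 : ℝ) ^ 100) := by
      apply Real.log_le_log (by norm_num)
      norm_num
    rw [Real.log_pow, Real.log_pow] at h
    push_cast at h
    linarith
  · rw [div_le_iff₀ h2]
    have h : Real.log ((4 / 3 : ℝ) ^ 50) ≤ Real.log ((2 : ℝ) ^ 21) := by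
      apply Real.log_le_log (by norm_num)
      norm_num
    rw [Real.log_pow, Real.log_pow] at h
    push_cast at h
    linarith

/-- The same with error terms. Proof: by `num` one of the two expressions is at most
`49/100 η L²`. Second alternative: `g L - T + g0 D ≤ g L - (1 - g0) T` (`D ≤ T`) and
`T ≥ f²/2 - f/2 + g u - η L² - e1`. First alternative: `- T ≤ - (f²/2 - f/2 + g u) + η L² + e1`,
`g0 D ≤ g0 (f²/2 + g u + E0 - s0²/2 + s0/2)` and `s0² ≥ g² - 2 g δ` (as `g - δ ≤ s0`, `0 ≤ s0`),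
`f/2 + g0 s0 / 2 ≤ f`. -/
theorem num2 {η g0 L f g u T D s0 e1 E0 δ : ℝ} (hη : 0 < η) (hη1 : η ≤ 1 / 200)
    (h1 : 41 / 100 ≤ g0) (h2 : g0 ≤ 42 / 100) (hL : 0 < L) (hu : 0 ≤ u) (hgf : g ≤ f)
    (hg : 57 / 100 * η * L ≤ g) (hq : (2 + 20 * η) * L ≤ f + u) (he1 : 0 ≤ e1) (hE0 : 0 ≤ E0)
    (hδ : 0 ≤ δ) (hT : f * (f - 1) / 2 + g * u ≤ T + η * L ^ 2 + e1) (hDT : D ≤ T)
    (hs0 : 0 ≤ s0) (hs1 : s0 ≤ g) (hs2 : g ≤ s0 + δ)
    (hD : D + s0 * (s0 - 1) / 2 ≤ f * (f - 1) / 2 + g * u + E0) :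
    g * L - T + g0 * D ≤ 49 / 100 * η * L ^ 2 + (f + e1 + E0 + g * δ) := by
  have hηL : 0 < η * L := mul_pos hη hL
  have hg0 : 0 < g := by nlinarith
  have hf0 : 0 < f := lt_of_lt_of_le hg0 hgf
  have hgδ : 0 ≤ g * δ := mul_nonneg hg0.le hδ
  rcases num hη hη1 h1 h2 hL hu hgf hg hq with h | h
  · -- first alternative
    have hs : g ^ 2 - 2 * (g * δ) ≤ s0 ^ 2 := by
      rcases le_total δ g with hd | hd
      · have : (g - δ) ^ 2 ≤ s0 ^ 2 := pow_le_pow_left₀ (by linarith) (by linarith) 2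
        nlinarith
      · have : g ^ 2 ≤ g * δ := by nlinarith
        nlinarith [sq_nonneg s0]
    have hD' : D ≤ f ^ 2 / 2 + g * u + E0 - s0 ^ 2 / 2 + s0 / 2 - f / 2 := by nlinarith
    have hD2 : D ≤ f ^ 2 / 2 + g * u - g ^ 2 / 2 + (E0 + g * δ) := by
      have : s0 / 2 - f / 2 ≤ 0 := by linarith
      nlinarith
    have hD3 : g0 * D ≤ g0 * (f ^ 2 / 2 - g ^ 2 / 2 + g * u) + g0 * (E0 + g * δ) := by
      have := mul_le_mul_of_nonneg_left hD2 (show (0 : ℝ) ≤ g0 by linarith)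
      nlinarith
    have hD4 : g0 * (E0 + g * δ) ≤ E0 + g * δ := by
      have : 0 ≤ (1 - g0) * (E0 + g * δ) := mul_nonneg (by linarith) (by linarith)
      nlinarith
    nlinarith
  · -- second alternative
    have hg1 : g0 * D ≤ g0 * T := mul_le_mul_of_nonneg_left hDT (by linarith)
    have hT2 : f ^ 2 / 2 + g * u - η * L ^ 2 - (f / 2 + e1) ≤ T := by nlinarith
    have hT3 : (1 - g0) * (f ^ 2 / 2 + g * u - η * L ^ 2) - (1 - g0) * (f / 2 + e1) ≤
        (1 - g0) * T := by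
      have := mul_le_mul_of_nonneg_left hT2 (show (0 : ℝ) ≤ 1 - g0 by linarith)
      nlinarith
    have hT4 : (1 - g0) * (f / 2 + e1) ≤ f + e1 := by
      have : 0 ≤ g0 * (f / 2 + e1) := mul_nonneg (by linarith) (by linarith)
      nlinarith
    nlinarith

end C0st
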