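import Pool.Agent.W_c0up_h14.PinA

/-!
# MP_c0ce05_co, upper bound: types (proofs row 505, B3)
-/

set_option autoImplicit false

namespace C0st

open scoped Classical
open C0lo C0up

variable {N r : ℕ}

/-- `P(x) ≤ M ^ (-type)`. Proof: trivial if `cnt = 0`; otherwise the type is at most the floor of
`logb M (|C| / cnt x)`, which is at least `0`. -/
theorem cnt_typ_le {M : ℝ} (hM : 1 < M) (C : Finset (Finset (Fin N))) (x : Fin N) :
    (cnt C x : ℝ) * M ^ (typ M r C x : ℕ) ≤ C.card := by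
  have hM0 : 0 < M := by linarith
  by_cases hc : cnt C x = 0
  · rw [hc, Nat.cast_zero, zero_mul]
    exact Nat.cast_nonneg _
  · have hc0 : (0 : ℝ) < cnt C x := by
      have : 0 < cnt C x := Nat.pos_of_ne_zero hc
      exact_mod_cast this
    have hcC : (cnt C x : ℝ) ≤ C.card := by exact_mod_cast cnt_le C x
    have h1 : 1 ≤ (C.card : ℝ) / cnt C x := by
      rw [le_div_iff₀ hc0]
      linarith
    have h2 : 0 ≤ Real.logb M ((C.card : ℝ) / cnt C x) := Real.logb_nonneg hM h1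
    have h3 : (typ M r C x : ℕ) ≤ Nat.floor (Real.logb M ((C.card : ℝ) / (cnt C x : ℝ))) := by
      unfold typ
      rw [if_neg hc]
      exact min_le_left _ _
    have h4 : M ^ (typ M r C x : ℕ) ≤ (C.card : ℝ) / cnt C x := by
      calc M ^ (typ M r C x : ℕ)
          ≤ M ^ (Nat.floor (Real.logb M ((C.card : ℝ) / (cnt C x : ℝ)))) :=
            pow_le_pow_right₀ hM.le h3
        _ = M ^ ((Nat.floor (Real.logb M ((C.card : ℝ) / (cnt C x : ℝ))) : ℕ) : ℝ) := by
            rw [Real.rpow_natCast]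
        _ ≤ M ^ (Real.logb M ((C.card : ℝ) / (cnt C x : ℝ))) :=
            Real.rpow_le_rpow_of_exponent_le hM.le (Nat.floor_le h2)
        _ = (C.card : ℝ) / cnt C x := Real.rpow_logb hM0 hM.ne' (by linarith)
    rw [le_div_iff₀ hc0] at h4
    linarith

/-- `P(x) > M ^ (-(type+1))` for typed vertices. -/
theorem lt_cnt_typ {M : ℝ} (hM : 1 < M) (C : Finset (Finset (Fin N))) (x : Fin N)
    (hx : (typ M r C x : ℕ) ≤ r) :
    (C.card : ℝ) < (cnt C x : ℝ) * M ^ ((typ M r C x : ℕ) + 1) := by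
  have hM0 : 0 < M := by linarith
  by_cases hc : cnt C x = 0
  · exfalso
    unfold typ at hx
    rw [if_pos hc, Fin.val_last] at hx
    omega
  · have hc0 : (0 : ℝ) < cnt C x := by
      have : 0 < cnt C x := Nat.pos_of_ne_zero hc
      exact_mod_cast this
    have hcC : (cnt C x : ℝ) ≤ C.card := by exact_mod_cast cnt_le C x
    have h1 : 1 ≤ (C.card : ℝ) / cnt C x := by
      rw [le_div_iff₀ hc0]
      linarith
    have h3 : (typ M r C x : ℕ) = Nat.floor (Real.logb M ((C.card : ℝ) / (cnt C x : ℝ))) := by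
      unfold typ at hx ⊢
      rw [if_neg hc] at hx ⊢
      simp only at hx ⊢
      omega
    have h4 : (C.card : ℝ) / cnt C x < M ^ ((typ M r C x : ℕ) + 1) := by
      calc (C.card : ℝ) / cnt C x = M ^ (Real.logb M ((C.card : ℝ) / (cnt C x : ℝ))) :=
            (Real.rpow_logb hM0 hM.ne' (by linarith)).symm
        _ < M ^ (((typ M r C x : ℕ) + 1 : ℕ) : ℝ) := by
            refine Real.rpow_lt_rpow_of_exponent_lt hM ?_
            rw [h3]
            push_cast
            exact Nat.lt_floor_add_one _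
        _ = _ := by rw [Real.rpow_natCast]
    rw [div_lt_iff₀ hc0] at h4
    linarith

/-- Few described vertices. Proof: `|C| ≤ cnt x * M ^ (lv k - 4)` for `x` in `Vs` (`lt_cnt_typ`,
`ty x + 1 ≤ lv k - 4`), sum over `x`, `sum_cnt`. -/
theorem card_Vs_le {M : ℝ} (hM : 1 < M) (C : Finset (Finset (Fin N))) (hC0 : C.Nonempty) (q : ℕ)
    (hC : ∀ A ∈ C, A.card = q) (lv : ℕ → ℕ) (k : ℕ) (s : St N r) (hs : s.ty = typ M r C) :
    ((Vs lv s k).card : ℝ) ≤ q * M ^ (lv k - 4) := by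
  have hM0 : 0 < M := by linarith
  have hC1 : (0 : ℝ) < C.card := by
    have : 0 < C.card := Finset.card_pos.2 hC0
    exact_mod_cast this
  have h1 : ∀ x ∈ Vs lv s k, (C.card : ℝ) ≤ (cnt C x : ℝ) * M ^ (lv k - 4) := by
    intro x hx
    rw [Vs, Finset.mem_filter, hs] at hx
    obtain ⟨_, h2, h3⟩ := hx
    refine (lt_cnt_typ hM C x h3).le.trans ?_
    exact mul_le_mul_of_nonneg_left (pow_le_pow_right₀ hM.le (by omega)) (Nat.cast_nonneg _)
  have h2 : ((Vs lv s k).card : ℝ) * C.card ≤ ∑ x, (cnt C x : ℝ) * M ^ (lv k - 4) := by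
    calc ((Vs lv s k).card : ℝ) * C.card = ∑ _x ∈ Vs lv s k, (C.card : ℝ) := by
          rw [Finset.sum_const, nsmul_eq_mul]
      _ ≤ ∑ x ∈ Vs lv s k, (cnt C x : ℝ) * M ^ (lv k - 4) := Finset.sum_le_sum h1
      _ ≤ ∑ x, (cnt C x : ℝ) * M ^ (lv k - 4) :=
          Finset.sum_le_sum_of_subset_of_nonneg (Finset.subset_univ _)
            (fun x _ _ => by positivity)
  rw [← Finset.sum_mul, ← Nat.cast_sum, sum_cnt C q hC, Nat.cast_mul] at h2
  have h3 : ((Vs lv s k).card : ℝ) * C.card ≤ (q * M ^ (lv k - 4)) * C.card := by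
    calc ((Vs lv s k).card : ℝ) * C.card ≤ (q : ℝ) * C.card * M ^ (lv k - 4) := h2
      _ = _ := by ring
  exact le_of_mul_le_mul_right h3 hC1

/-- Few low edges. Proof: for `e = s(x, y)` with `x, y ∈ Vs lv s k`, `ty x + ty y + 5 ≤ lv k`:
`|C|² ≤ cnt x cnt y M ^ (ty x + ty y + 2) ≤ cnt x cnt y M ^ (lv k - 3)`; the edges are at most as
many as the ordered pairs; sum over all ordered pairs, `sum_cnt`. -/
theorem card_low_le {M : ℝ} (hM : 1 < M) (C : Finset (Finset (Fin N))) (hC0 : C.Nonempty) (q : ℕ)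
    (hC : ∀ A ∈ C, A.card = q) (lv : ℕ → ℕ) (k : ℕ) (s : St N r) (hs : s.ty = typ M r C) :
    (((Finset.univ : Finset (Sym2 (Fin N))).filter (fun e => Low lv s k e)).card : ℝ) ≤
      (q : ℝ) ^ 2 * M ^ (lv k - 3) := by
  have hM0 : 0 < M := by linarith
  have hC1 : (0 : ℝ) < C.card := by
    have : 0 < C.card := Finset.card_pos.2 hC0
    exact_mod_cast this
  set F : Finset (Fin N × Fin N) := Finset.univ.filter (fun p => Low lv s k s(p.1, p.2)) with hF
  have h0 : ((Finset.univ : Finset (Sym2 (Fin N))).filter (fun e => Low lv s k e)).card ≤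
      F.card := by
    have h1 : (Finset.univ : Finset (Sym2 (Fin N))).filter (fun e => Low lv s k e) ⊆
        F.image (fun p => s(p.1, p.2)) := by
      intro e he
      rw [Finset.mem_filter] at he
      induction e using Sym2.ind with
      | _ x y =>
        exact Finset.mem_image.2 ⟨(x, y), Finset.mem_filter.2 ⟨Finset.mem_univ _, he.2⟩, rfl⟩
    exact (Finset.card_le_card h1).trans Finset.card_image_le
  have h1 : ∀ p ∈ F, (C.card : ℝ) ^ 2 ≤
      (cnt C p.1 : ℝ) * (cnt C p.2 : ℝ) * M ^ (lv k - 3) := by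
    rintro ⟨x, y⟩ hp
    rw [hF, Finset.mem_filter] at hp
    obtain ⟨_, hv, ht⟩ := hp
    have hx := hv x (Sym2.mem_mk_left x y)
    have hy := hv y (Sym2.mem_mk_right x y)
    rw [Vs, Finset.mem_filter] at hx hy
    have ht' : (s.ty x : ℕ) + (s.ty y : ℕ) + 5 ≤ lv k := ht
    rw [hs] at hx hy ht'
    have h2 := (lt_cnt_typ hM C x hx.2.2).le
    have h3 := (lt_cnt_typ hM C y hy.2.2).le
    calc (C.card : ℝ) ^ 2 = C.card * C.card := by ring
      _ ≤ ((cnt C x : ℝ) * M ^ ((typ M r C x : ℕ) + 1)) *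
          ((cnt C y : ℝ) * M ^ ((typ M r C y : ℕ) + 1)) :=
          mul_le_mul h2 h3 (by positivity) (by positivity)
      _ = (cnt C x : ℝ) * (cnt C y : ℝ) *
          M ^ (((typ M r C x : ℕ) + 1) + ((typ M r C y : ℕ) + 1)) := by
          rw [pow_add]
          ring
      _ ≤ (cnt C x : ℝ) * (cnt C y : ℝ) * M ^ (lv k - 3) :=
          mul_le_mul_of_nonneg_left (pow_le_pow_right₀ hM.le (by omega)) (by positivity)
  have h2 : (F.card : ℝ) * (C.card : ℝ) ^ 2 ≤
      ∑ p : Fin N × Fin N, (cnt C p.1 : ℝ) * (cnt C p.2 : ℝ) * M ^ (lv k - 3) := by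
    calc (F.card : ℝ) * (C.card : ℝ) ^ 2 = ∑ _p ∈ F, (C.card : ℝ) ^ 2 := by
          rw [Finset.sum_const, nsmul_eq_mul]
      _ ≤ ∑ p ∈ F, (cnt C p.1 : ℝ) * (cnt C p.2 : ℝ) * M ^ (lv k - 3) := Finset.sum_le_sum h1
      _ ≤ _ := Finset.sum_le_sum_of_subset_of_nonneg (Finset.subset_univ _)
            (fun x _ _ => by positivity)
  have h3 : ∑ p : Fin N × Fin N, (cnt C p.1 : ℝ) * (cnt C p.2 : ℝ) * M ^ (lv k - 3) =
      ((q : ℝ) * C.card) * ((q : ℝ) * C.card) * M ^ (lv k - 3) := by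
    rw [← Finset.sum_mul]
    congr 1
    have h4 : (q : ℝ) * C.card = ∑ x, (cnt C x : ℝ) := by
      rw [← Nat.cast_sum, sum_cnt C q hC, Nat.cast_mul]
    rw [h4, Finset.sum_mul_sum, ← Finset.univ_product_univ, Finset.sum_product]
  rw [h3] at h2
  have h5 : (F.card : ℝ) * (C.card : ℝ) ^ 2 ≤ ((q : ℝ) ^ 2 * M ^ (lv k - 3)) * (C.card : ℝ) ^ 2 := by
    calc (F.card : ℝ) * (C.card : ℝ) ^ 2 ≤
        ((q : ℝ) * C.card) * ((q : ℝ) * C.card) * M ^ (lv k - 3) := h2
      _ = _ := by ring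
  have h6 := le_of_mul_le_mul_right h5 (by positivity)
  have h7 : (((Finset.univ : Finset (Sym2 (Fin N))).filter (fun e => Low lv s k e)).card : ℝ) ≤
      F.card := by exact_mod_cast h0
  exact h7.trans h6

/-- not correlated edges are rare: `P(e) ≤ M ^ (1 - tau e)`. Proof: `cnt2 |C| ≤ M cnt x cnt y`,
multiply by `M ^ (ty x + ty y)` and use `cnt_typ_le` twice. -/
theorem cnt2_le {M : ℝ} (hM : 1 < M) (C : Finset (Finset (Fin N))) (hC0 : C.Nonempty)
    (s : St N r) (hs : s.ty = typ M r C) (x y : Fin N) (hb : ¬ Bad M C x y) :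
    (cnt2 C x y : ℝ) * M ^ (tau s s(x, y)) ≤ M * C.card := by
  have hM0 : 0 < M := by linarith
  have hC1 : (0 : ℝ) < C.card := by
    have : 0 < C.card := Finset.card_pos.2 hC0
    exact_mod_cast this
  unfold Bad at hb
  rw [not_lt] at hb
  have ht : tau s s(x, y) = (typ M r C x : ℕ) + (typ M r C y : ℕ) := by
    have : tau s s(x, y) = (s.ty x : ℕ) + (s.ty y : ℕ) := rfl
    rw [this, hs]
  have h1 := cnt_typ_le (r := r) hM C x
  have h2 := cnt_typ_le (r := r) hM C y
  have h3 : ((cnt2 C x y : ℝ) * M ^ (tau s s(x, y))) * C.card ≤ (M * C.card) * C.card := by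
    calc ((cnt2 C x y : ℝ) * M ^ (tau s s(x, y))) * C.card
        = ((cnt2 C x y : ℝ) * C.card) * M ^ (tau s s(x, y)) := by ring
      _ ≤ (M * (cnt C x : ℝ) * (cnt C y : ℝ)) * M ^ (tau s s(x, y)) :=
          mul_le_mul_of_nonneg_right hb (by positivity)
      _ = M * (((cnt C x : ℝ) * M ^ (typ M r C x : ℕ)) *
          ((cnt C y : ℝ) * M ^ (typ M r C y : ℕ))) := by
          rw [ht, pow_add]
          ring
      _ ≤ M * ((C.card : ℝ) * C.card) := by
          refine mul_le_mul_of_nonneg_left ?_ hM0.le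
          exact mul_le_mul h1 h2 (by positivity) (by positivity)
      _ = _ := by ring
  exact le_of_mul_le_mul_right h3 hC1

end C0st
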