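import Pool.Agent.W_c0up_h14.CC
import Pool.Agent.W_c0up_h14.NM
import Pool.Agent.W_c0up_h14.Off
import Pool.Agent.W_c0up_h14.Typ
import Pool.Agent.W_c0up_h86.Base

/-!
# MP_c0ce05_co, upper bounds: the charged edges of one clique
-/

set_option autoImplicit false

namespace C0st

open scoped Classical
open C0lo

variable {N r : ℕ}

/-- an edge of a correlated pair -/
def BadE (M : ℝ) (C : Finset (Finset (Fin N))) (e : Sym2 (Fin N)) : Prop :=
  ∃ x y, e = s(x, y) ∧ Bad M C x y

/-- the charged edges of step `k` which are not correlated -/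
noncomputable def Uk (lv : ℕ → ℕ) (s : St N r) (M : ℝ) (C : Finset (Finset (Fin N))) (k : ℕ)
    (A : Finset (Fin N)) : Finset (Sym2 (Fin N)) :=
  (Pairs lv s k A).filter (fun e => ¬ BadE M C e)

theorem Uk_subset (lv : ℕ → ℕ) (s : St N r) (M : ℝ) (C : Finset (Finset (Fin N))) (k : ℕ)
    (A : Finset (Fin N)) : Uk lv s M C k A ⊆ Pairs lv s k A :=
  Finset.filter_subset _ _

/-- Charged edges are rare. Proof: if no `A` counts, clear. Otherwise `e = s(x, y)` is not `BadE`,
`lv k + 5 ≤ tau s e`; the left side is at most `cnt2 C x y`, and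
`cnt2 C x y * M ^ tau ≤ M |C| ≤ 2 M |C1|` (`cnt2_le`). -/
theorem theta {M : ℝ} (hM : 1 < M) (C C1 : Finset (Finset (Fin N))) (hC1 : C1 ⊆ C)
    (h2 : C.card ≤ 2 * C1.card) (hC0 : C.Nonempty) (lv : ℕ → ℕ) (s : St N r)
    (hs : s.ty = typ M r C) (k : ℕ) (e : Sym2 (Fin N)) :
    ((C1.filter (fun A => e ∈ Uk lv s M C k A)).card : ℝ) ≤ 2 / M ^ (lv k + 4) * C1.card := by
  have hM0 : 0 < M := by linarith
  have hpow : 0 < M ^ (lv k + 4) := pow_pos hM0 _
  rcases Finset.eq_empty_or_nonempty (C1.filter (fun A => e ∈ Uk lv s M C k A)) with h0 | ⟨A0, hA0⟩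
  · rw [h0]
    simp only [Finset.card_empty, Nat.cast_zero]
    positivity
  · induction e using Sym2.ind with
    | _ x y =>
      have hU := (Finset.mem_filter.1 hA0).2
      have hU' := Finset.mem_filter.1 hU
      have hP := Finset.mem_filter.1 hU'.1
      have hnb : ¬ Bad M C x y := fun hb => hU'.2 ⟨x, y, rfl, hb⟩
      have hwin : lv k + 5 ≤ tau s s(x, y) := hP.2.1.1
      have hsub : C1.filter (fun A => s(x, y) ∈ Uk lv s M C k A) ⊆
          C.filter (fun A => x ∈ A ∧ y ∈ A) := by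
        intro A hA
        have hA' := Finset.mem_filter.1 hA
        have h1 := (Finset.mem_filter.1 (Finset.mem_filter.1 hA'.2).1).1
        have h2' := (Finset.mem_filter.1 h1).1
        rw [Finset.mk_mem_sym2_iff] at h2'
        exact Finset.mem_filter.2 ⟨hC1 hA'.1, h2'⟩
      have hcard : ((C1.filter (fun A => s(x, y) ∈ Uk lv s M C k A)).card : ℝ) ≤ cnt2 C x y := by
        unfold cnt2
        exact_mod_cast Finset.card_le_card hsub
      have hle := cnt2_le hM C hC0 s hs x y hnb
      have hpm : M ^ (lv k + 5) ≤ M ^ (tau s s(x, y)) := pow_le_pow_right₀ hM.le hwin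
      have hc0 : (0 : ℝ) ≤ cnt2 C x y := Nat.cast_nonneg _
      have h2r : (C.card : ℝ) ≤ 2 * C1.card := by exact_mod_cast h2
      have h3 : (cnt2 C x y : ℝ) * M ^ (lv k + 5) ≤ M * (2 * C1.card) := by
        calc (cnt2 C x y : ℝ) * M ^ (lv k + 5) ≤ (cnt2 C x y : ℝ) * M ^ (tau s s(x, y)) :=
              mul_le_mul_of_nonneg_left hpm hc0
          _ ≤ M * C.card := hle
          _ ≤ M * (2 * C1.card) := mul_le_mul_of_nonneg_left h2r hM0.le
      have h4 : (cnt2 C x y : ℝ) * M ^ (lv k + 4) ≤ 2 * C1.card := by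
        have h5 : M * ((cnt2 C x y : ℝ) * M ^ (lv k + 4)) ≤ M * (2 * C1.card) := by
          calc M * ((cnt2 C x y : ℝ) * M ^ (lv k + 4)) = (cnt2 C x y : ℝ) * M ^ (lv k + 5) := by
                ring
            _ ≤ _ := h3
        exact le_of_mul_le_mul_left h5 hM0
      rw [div_mul_eq_mul_div, le_div_iff₀ hpow]
      exact (mul_le_mul_of_nonneg_right hcard hpow.le).trans h4

/-- Most fine edges are charged. Proof: `card_Fine`. A fine edge `e` of `A` has an end point
`x ∉ Vs lv s 0`, `ty x ≤ r`, so `lv 0 ≤ ty x + 4 ≤ tau s e + 4`; `tau s e ≤ 2 r`. If `e` is not in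
the zone then it is in the window of some `k < K` (`win_of_not_zone`), so in `Pairs lv s k A`; if
moreover it is claimed and not `BadE` then it is in `Uk k A ∩ clm`. An edge of `A` which is `BadE`
comes from a bad ordered pair of `A`. -/
theorem claimed_lower (lv : ℕ → ℕ) (K : ℕ) (s : St N r) (hK : 2 * r + 5 ≤ lv K) (M : ℝ)
    (C : Finset (Finset (Fin N))) (A : Finset (Fin N)) (hA : ∀ x ∈ A, (s.ty x : ℕ) ≤ r) :
    (A \ Vs lv s 0).card.choose 2 + (Ge lv s A).card * (A ∩ Vs lv s 0).card ≤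
      ∑ k ∈ Finset.range K, (Uk lv s M C k A ∩ s.clm).card + (ed A \ s.clm).card +
        ((ed A).filter (fun e => Zone lv K (tau s e))).card +
        ((A ×ˢ A).filter (fun p => Bad M C p.1 p.2)).card := by
  rw [← card_Fine lv s A]
  have hsub : (ed A).filter (fun e => Fine lv s A e) ⊆
      ((((Finset.range K).biUnion (fun k => Uk lv s M C k A ∩ s.clm)) ∪ (ed A \ s.clm)) ∪
        ((ed A).filter (fun e => Zone lv K (tau s e)))) ∪
        ((A ×ˢ A).filter (fun p => Bad M C p.1 p.2)).image (fun p => s(p.1, p.2)) := by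
    intro e he
    have he1 := (Finset.mem_filter.1 he).1
    have he2 := (Finset.mem_filter.1 he).2
    have hmemA : ∀ z ∈ e, z ∈ A := by
      have h := (Finset.mem_filter.1 he1).1
      rw [Finset.mem_sym2_iff] at h
      exact h
    have htau : lv 0 ≤ tau s e + 4 ∧ tau s e ≤ 2 * r := by
      obtain ⟨z, hz, hzV⟩ := he2.1
      have hzr := hA z (hmemA z hz)
      have hz0 : lv 0 ≤ (s.ty z : ℕ) + 4 := by
        by_contra hcon
        push Not at hcon
        exact hzV (Finset.mem_filter.2 ⟨Finset.mem_univ _, hcon, hzr⟩)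
      obtain ⟨w, rfl⟩ := Sym2.mem_iff_exists.1 hz
      have hwr := hA w (hmemA w (Sym2.mem_mk_right z w))
      have ht : tau s s(z, w) = (s.ty z : ℕ) + (s.ty w : ℕ) := rfl
      rw [ht]
      constructor <;> omega
    by_cases hz : Zone lv K (tau s e)
    · exact Finset.mem_union_left _ (Finset.mem_union_right _ (Finset.mem_filter.2 ⟨he1, hz⟩))
    · by_cases hc : e ∈ s.clm
      · obtain ⟨k, hk, hw⟩ := win_of_not_zone lv K (tau s e) htau.1 (by omega) hz
        by_cases hb : BadE M C e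
        · refine Finset.mem_union_right _ ?_
          obtain ⟨x, y, rfl, hxy⟩ := hb
          refine Finset.mem_image.2 ⟨(x, y), Finset.mem_filter.2 ⟨Finset.mem_product.2
            ⟨hmemA x (Sym2.mem_mk_left x y), hmemA y (Sym2.mem_mk_right x y)⟩, hxy⟩, rfl⟩
        · refine Finset.mem_union_left _ (Finset.mem_union_left _ (Finset.mem_union_left _ ?_))
          refine Finset.mem_biUnion.2 ⟨k, Finset.mem_range.2 hk, Finset.mem_inter.2 ⟨?_, hc⟩⟩
          exact Finset.mem_filter.2 ⟨Finset.mem_filter.2 ⟨he1, hw, he2⟩, hb⟩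
      · exact Finset.mem_union_left _ (Finset.mem_union_left _ (Finset.mem_union_right _
          (Finset.mem_sdiff.2 ⟨he1, hc⟩)))
  refine (Finset.card_le_card hsub).trans ?_
  refine (Finset.card_union_le _ _).trans ?_
  refine Nat.add_le_add ?_ Finset.card_image_le
  refine (Finset.card_union_le _ _).trans ?_
  refine Nat.add_le_add ?_ le_rfl
  refine (Finset.card_union_le _ _).trans ?_
  exact Nat.add_le_add Finset.card_biUnion_le le_rfl

/-- `d ↦ d.1` is injective on `db` and has values in `U ∩ clm` -/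
theorem prt_le (s : St N r) (hdin : ∀ d ∈ s.db, ∀ d' ∈ s.db, d.1 = d'.1 → d = d')
    (hdcl : ∀ d ∈ s.db, d.1 ∈ s.clm) (U Q : Finset (Sym2 (Fin N))) :
    prt s U Q ≤ (U ∩ s.clm).card := by
  unfold prt
  refine Finset.card_le_card_of_injOn (fun d => d.1) ?_ ?_
  · intro d hd
    have hd' := Finset.mem_filter.1 (Finset.mem_coe.1 hd)
    exact Finset.mem_coe.2 (Finset.mem_inter.2 ⟨hd'.2.1, hdcl d hd'.1⟩)
  · intro d hd d' hd' h
    have h1 := Finset.mem_filter.1 (Finset.mem_coe.1 hd)
    have h2 := Finset.mem_filter.1 (Finset.mem_coe.1 hd')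
    exact hdin d h1.1 d' h2.1 h

/-- the windows are disjoint (`win_unique`, `d.1 ∈ Pairs lv s k A` for at most one `k`), and
`Pairs` are fine edges of `A` -/
theorem sum_prt_le (lv : ℕ → ℕ) (hlv : Monotone lv) (K : ℕ) (s : St N r) (M : ℝ)
    (C : Finset (Finset (Fin N))) (A : Finset (Fin N)) :
    ∑ k ∈ Finset.range K, prt s (Uk lv s M C k A) (Pairs lv s k A) ≤
      dbl s ((ed A).filter (fun e => Fine lv s A e)) := by
  unfold prt dbl
  rw [← Finset.card_biUnion]
  · refine Finset.card_le_card ?_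
    intro d hd
    obtain ⟨k, _, hk⟩ := Finset.mem_biUnion.1 hd
    have h1 := Finset.mem_filter.1 hk
    have h2 := Finset.mem_filter.1 (Uk_subset lv s M C k A h1.2.1)
    have h3 := Finset.mem_filter.1 h1.2.2
    exact Finset.mem_filter.2 ⟨h1.1, Finset.mem_filter.2 ⟨h2.1, h2.2.2⟩,
      Finset.mem_filter.2 ⟨h3.1, h3.2.2⟩⟩
  · intro k _ l _ hkl
    rw [Function.onFun, Finset.disjoint_left]
    intro d hd hd'
    have h1 := Finset.mem_filter.1 hd
    have h1' := Finset.mem_filter.1 hd'
    have h2 := Finset.mem_filter.1 (Uk_subset lv s M C k A h1.2.1)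
    have h2' := Finset.mem_filter.1 (Uk_subset lv s M C l A h1'.2.1)
    exact hkl (win_unique lv hlv h2.2.1 h2'.2.1)

end C0st
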