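import Pool.Agent.W_c0up_h14.Defs

/-!
# MP_c0ce05_co, upper bound: the entropy functional (proofs row 505, B2)
-/

set_option autoImplicit false

namespace C0st

open scoped Classical
open C0lo C0up

variable {N : ℕ}

/-- `Psi(C) = ∑_x P(x) log (1/P(x))` for the uniform law on `C` -/
noncomputable def Psi (C : Finset (Finset (Fin N))) : ℝ :=
  ∑ x, ((cnt C x : ℝ) / (C.card : ℝ)) * Real.log ((C.card : ℝ) / (cnt C x : ℝ))

/-- the members of `C` containing `y` -/
noncomputable def Cy (C : Finset (Finset (Fin N))) (y : Fin N) : Finset (Finset (Fin N)) :=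
  C.filter (fun A => y ∈ A)

theorem cnt_le (C : Finset (Finset (Fin N))) (x : Fin N) : cnt C x ≤ C.card :=
  Finset.card_filter_le _ _

/-- double counting -/
theorem sum_cnt (C : Finset (Finset (Fin N))) (q : ℕ) (hC : ∀ A ∈ C, A.card = q) :
    ∑ x, cnt C x = q * C.card := by
  simp only [cnt, Finset.card_filter]
  rw [Finset.sum_comm]
  have h : ∀ A ∈ C, ∑ x : Fin N, (if x ∈ A then 1 else 0) = q := by
    intro A hA
    rw [← hC A hA, ← Finset.card_filter]
    congr 1
    ext x
    simp
  rw [Finset.sum_congr rfl h, Finset.sum_const, smul_eq_mul, mul_comm]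

/-- double counting -/
theorem sum_cnt2 (C : Finset (Finset (Fin N))) (q : ℕ) (hC : ∀ A ∈ C, A.card = q) (x : Fin N) :
    ∑ y, cnt2 C x y = q * cnt C x := by
  simp only [cnt, cnt2, Finset.card_filter]
  rw [Finset.sum_comm, Finset.mul_sum]
  refine Finset.sum_congr rfl fun A hA => ?_
  by_cases hx : x ∈ A
  · simp only [hx, true_and, if_true, mul_one]
    rw [← hC A hA, ← Finset.card_filter]
    congr 1
    ext x
    simp
  · simp [hx]

theorem cnt2_symm (C : Finset (Finset (Fin N))) (x y : Fin N) : cnt2 C x y = cnt2 C y x := by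
  unfold cnt2
  congr 1
  ext A
  simp only [Finset.mem_filter]
  tauto

theorem card_Cy (C : Finset (Finset (Fin N))) (y : Fin N) : (Cy C y).card = cnt C y := rfl

theorem cnt_Cy (C : Finset (Finset (Fin N))) (x y : Fin N) : cnt (Cy C y) x = cnt2 C y x := by
  unfold cnt cnt2 Cy
  congr 1
  ext A
  simp only [Finset.mem_filter]
  tauto

/-- every term is nonnegative (`cnt C x ≤ |C|`; the term is `0` if `cnt C x = 0`) -/
theorem Psi_nonneg (C : Finset (Finset (Fin N))) : 0 ≤ Psi C := by
  unfold Psi
  refine Finset.sum_nonneg fun x _ => ?_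
  rcases Nat.eq_zero_or_pos (cnt C x) with h | h
  · simp [h]
  · have h1 : (0 : ℝ) < cnt C x := by exact_mod_cast h
    have h2 : (cnt C x : ℝ) ≤ C.card := by exact_mod_cast cnt_le C x
    refine mul_nonneg (by positivity) (Real.log_nonneg ?_)
    rw [le_div_iff₀ h1]
    linarith

/-- `Psi(C) ≤ q log N`. Proof: with `p = cnt C x / |C|` every term is at most
`p log (N/q) + q/N - p` (for `p = 0` clear; otherwise `p log (1/p) = p log (N/q) + p log (q/(N p))`
and `log u ≤ u - 1`); the sum over `x` is `q log (N/q) ≤ q log N`, as `∑ p = q`. -/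
theorem Psi_le (C : Finset (Finset (Fin N))) (hC0 : C.Nonempty) (q : ℕ) (hq : 1 ≤ q)
    (hC : ∀ A ∈ C, A.card = q) (hN : 1 ≤ N) : Psi C ≤ q * Real.log N := by
  have hc : (0 : ℝ) < C.card := by exact_mod_cast hC0.card_pos
  have hN' : (0 : ℝ) < N := by exact_mod_cast hN
  have hq' : (0 : ℝ) < q := by exact_mod_cast hq
  have hterm : ∀ x : Fin N, ((cnt C x : ℝ) / (C.card : ℝ)) *
      Real.log ((C.card : ℝ) / (cnt C x : ℝ)) ≤
      ((cnt C x : ℝ) / (C.card : ℝ)) * Real.log (N / q) + q / N -
        (cnt C x : ℝ) / (C.card : ℝ) := by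
    intro x
    rcases Nat.eq_zero_or_pos (cnt C x) with h | h
    · simp only [h, Nat.cast_zero, zero_div, zero_mul, zero_add, sub_zero]
      positivity
    · have h1 : (0 : ℝ) < cnt C x := by exact_mod_cast h
      have hp : 0 < (cnt C x : ℝ) / (C.card : ℝ) := by positivity
      have e : (C.card : ℝ) / (cnt C x : ℝ) =
          (N / q) * (q / (N * ((cnt C x : ℝ) / (C.card : ℝ)))) := by
        field_simp
      have hu : (0 : ℝ) < q / (N * ((cnt C x : ℝ) / (C.card : ℝ))) := by positivity
      rw [e, Real.log_mul (by positivity) hu.ne']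
      have h2 := Real.log_le_sub_one_of_pos hu
      have h3 := mul_le_mul_of_nonneg_left h2 hp.le
      have h4 : ((cnt C x : ℝ) / (C.card : ℝ)) *
          (q / (N * ((cnt C x : ℝ) / (C.card : ℝ))) - 1) =
          q / N - (cnt C x : ℝ) / (C.card : ℝ) := by
        field_simp
      rw [h4] at h3
      rw [mul_add]
      linarith
  have hs : ∑ x : Fin N, (cnt C x : ℝ) / (C.card : ℝ) = q := by
    rw [← Finset.sum_div]
    have h := sum_cnt C q hC
    have h' : (∑ x : Fin N, (cnt C x : ℝ)) = q * C.card := by exact_mod_cast h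
    rw [h']
    field_simp
  unfold Psi
  refine (Finset.sum_le_sum fun x _ => hterm x).trans ?_
  rw [Finset.sum_sub_distrib, Finset.sum_add_distrib, ← Finset.sum_mul, hs, Finset.sum_const,
    Finset.card_univ, Fintype.card_fin, nsmul_eq_mul]
  have h5 : (N : ℝ) * (q / N) = q := by field_simp
  rw [h5]
  have h6 : Real.log (N / q) ≤ Real.log N := by
    rw [Real.log_div hN'.ne' hq'.ne']
    have : 0 ≤ Real.log q := Real.log_nonneg (by exact_mod_cast hq)
    linarith
  have h7 := mul_le_mul_of_nonneg_left h6 hq'.le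
  linarith

end C0st
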