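import Pool.Agent.W_c0up_h14.PinA

/-!
# MP_c0ce05_co, upper bound: pinning one vertex (proofs row 505, B2)
-/

set_option autoImplicit false

namespace C0st

open scoped Classical
open C0lo C0up

variable {N : ℕ}

theorem PinB_cnt2_le_left (C : Finset (Finset (Fin N))) (x y : Fin N) :
    cnt2 C x y ≤ cnt C x :=
  Finset.card_le_card fun A hA => by
    rw [Finset.mem_filter] at hA ⊢
    exact ⟨hA.1, hA.2.1⟩

theorem PinB_cnt2_le_right (C : Finset (Finset (Fin N))) (x y : Fin N) :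
    cnt2 C x y ≤ cnt C y :=
  Finset.card_le_card fun A hA => by
    rw [Finset.mem_filter] at hA ⊢
    exact ⟨hA.1, hA.2.2⟩

/-- The averaging identity. Proof: `Psi (Cy C y) = ∑_x (cnt2 x y / cnt y) log (cnt y / cnt2 x y)`
(`cnt_Cy`, `card_Cy`), `q Psi C = ∑_x ∑_y (cnt2 x y / |C|) log (|C| / cnt x)` (`sum_cnt2`), and
`log (|C| / cnt x) - log (cnt y / cnt2 x y) = log (cnt2 x y |C| / (cnt x cnt y))` if
`cnt2 x y > 0`. -/
theorem psi_identity (C : Finset (Finset (Fin N))) (hC0 : C.Nonempty) (q : ℕ)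
    (hC : ∀ A ∈ C, A.card = q) :
    q * Psi C - ∑ y, ((cnt C y : ℝ) / C.card) * Psi (Cy C y) =
      ∑ x, ∑ y, ((cnt2 C x y : ℝ) / C.card) *
        Real.log ((cnt2 C x y : ℝ) * C.card / ((cnt C x : ℝ) * cnt C y)) := by
  have hn : (0 : ℝ) < C.card := by exact_mod_cast hC0.card_pos
  have h1 : (q : ℝ) * Psi C =
      ∑ x, ∑ y, ((cnt2 C x y : ℝ) / C.card) * Real.log ((C.card : ℝ) / cnt C x) := by
    unfold Psi
    rw [Finset.mul_sum]
    refine Finset.sum_congr rfl fun x _ => ?_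
    rw [← Finset.sum_mul, ← Finset.sum_div]
    have h2 : ∑ y, (cnt2 C x y : ℝ) = q * cnt C x := by exact_mod_cast sum_cnt2 C q hC x
    rw [h2]
    ring
  have h3 : ∑ y, ((cnt C y : ℝ) / C.card) * Psi (Cy C y) =
      ∑ x, ∑ y, ((cnt2 C x y : ℝ) / C.card) * Real.log ((cnt C y : ℝ) / cnt2 C x y) := by
    rw [Finset.sum_comm]
    refine Finset.sum_congr rfl fun y _ => ?_
    unfold Psi
    rw [Finset.mul_sum]
    refine Finset.sum_congr rfl fun x _ => ?_
    rw [cnt_Cy, card_Cy, cnt2_symm C y x]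
    rcases Nat.eq_zero_or_pos (cnt C y) with h | h
    · have h4 : cnt2 C x y = 0 := by
        have := PinB_cnt2_le_right C x y
        omega
      simp [h4]
    · have h5 : (cnt C y : ℝ) ≠ 0 := by
        have : (0 : ℝ) < cnt C y := by exact_mod_cast h
        exact this.ne'
      field_simp
  rw [h1, h3, ← Finset.sum_sub_distrib]
  refine Finset.sum_congr rfl fun x _ => ?_
  rw [← Finset.sum_sub_distrib]
  refine Finset.sum_congr rfl fun y _ => ?_
  rw [← mul_sub]
  rcases Nat.eq_zero_or_pos (cnt2 C x y) with h | h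
  · simp [h]
  · have hx : (0 : ℝ) < cnt C x := by
      exact_mod_cast lt_of_lt_of_le h (PinB_cnt2_le_left C x y)
    have hy : (0 : ℝ) < cnt C y := by
      exact_mod_cast lt_of_lt_of_le h (PinB_cnt2_le_right C x y)
    have hxy : (0 : ℝ) < cnt2 C x y := by exact_mod_cast h
    congr 1
    rw [← Real.log_div (by positivity) (by positivity)]
    congr 1
    field_simp

theorem PinB_term (C : Finset (Finset (Fin N))) (hC0 : C.Nonempty) {M : ℝ} (hM : 1 < M)
    (x y : Fin N) :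
    (if Bad M C x y then (cnt2 C x y : ℝ) else 0) / C.card * Real.log M
        - (cnt C x : ℝ) * cnt C y / (C.card : ℝ) ^ 2 ≤
      ((cnt2 C x y : ℝ) / C.card) *
        Real.log ((cnt2 C x y : ℝ) * C.card / ((cnt C x : ℝ) * cnt C y)) := by
  have hn : (0 : ℝ) < C.card := by exact_mod_cast hC0.card_pos
  have hb0 : 0 ≤ (cnt C x : ℝ) * cnt C y / (C.card : ℝ) ^ 2 := by positivity
  rcases Nat.eq_zero_or_pos (cnt2 C x y) with h | h
  · rw [h]
    simp only [Nat.cast_zero, ite_self, zero_div, zero_mul]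
    linarith
  have hx : (0 : ℝ) < cnt C x := by
    exact_mod_cast lt_of_lt_of_le h (PinB_cnt2_le_left C x y)
  have hy : (0 : ℝ) < cnt C y := by
    exact_mod_cast lt_of_lt_of_le h (PinB_cnt2_le_right C x y)
  have hxy : (0 : ℝ) < cnt2 C x y := by exact_mod_cast h
  have ha : 0 < (cnt2 C x y : ℝ) / C.card := by positivity
  by_cases hB : Bad M C x y
  · rw [if_pos hB]
    have h1 : M ≤ (cnt2 C x y : ℝ) * C.card / ((cnt C x : ℝ) * cnt C y) := by
      rw [le_div_iff₀ (by positivity)]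
      have := hB
      unfold Bad at this
      nlinarith
    have h2 : Real.log M ≤ Real.log ((cnt2 C x y : ℝ) * C.card / ((cnt C x : ℝ) * cnt C y)) :=
      Real.log_le_log (by linarith) h1
    have h3 := mul_le_mul_of_nonneg_left h2 ha.le
    linarith
  · rw [if_neg hB, zero_div, zero_mul]
    have hr : 0 < (cnt C x : ℝ) * cnt C y / ((cnt2 C x y : ℝ) * C.card) := by positivity
    have h1 := Real.log_le_sub_one_of_pos hr
    have h2 : Real.log ((cnt2 C x y : ℝ) * C.card / ((cnt C x : ℝ) * cnt C y)) =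
        - Real.log ((cnt C x : ℝ) * cnt C y / ((cnt2 C x y : ℝ) * C.card)) := by
      rw [← Real.log_inv, inv_div]
    rw [h2]
    have h3 : (cnt2 C x y : ℝ) / C.card *
        ((cnt C x : ℝ) * cnt C y / ((cnt2 C x y : ℝ) * C.card) - 1) =
        (cnt C x : ℝ) * cnt C y / (C.card : ℝ) ^ 2 - (cnt2 C x y : ℝ) / C.card := by
      field_simp
    have h4 := mul_le_mul_of_nonneg_left h1 ha.le
    rw [h3] at h4
    linarith

theorem PinB_double (C : Finset (Finset (Fin N))) (M : ℝ) :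
    ∑ x, ∑ y, (if Bad M C x y then (cnt2 C x y : ℝ) else 0) =
      ∑ A ∈ C, (((A ×ˢ A).filter (fun p => Bad M C p.1 p.2)).card : ℝ) := by
  have h1 : ∀ x y : Fin N, (if Bad M C x y then (cnt2 C x y : ℝ) else 0) =
      ∑ A ∈ C, (if (x ∈ A ∧ y ∈ A) ∧ Bad M C x y then (1 : ℝ) else 0) := by
    intro x y
    by_cases hB : Bad M C x y
    · rw [if_pos hB]
      unfold cnt2
      rw [Finset.card_filter]
      push_cast
      refine Finset.sum_congr rfl fun A _ => ?_
      by_cases h : x ∈ A ∧ y ∈ A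
      · rw [if_pos h, if_pos ⟨h, hB⟩]
      · rw [if_neg h, if_neg (fun h' => h h'.1)]
    · rw [if_neg hB]
      symm
      refine Finset.sum_eq_zero fun A _ => ?_
      rw [if_neg (fun h' => hB h'.2)]
  have h2 : ∀ A : Finset (Fin N), (((A ×ˢ A).filter (fun p => Bad M C p.1 p.2)).card : ℝ) =
      ∑ x, ∑ y, (if (x ∈ A ∧ y ∈ A) ∧ Bad M C x y then (1 : ℝ) else 0) := by
    intro A
    rw [← Fintype.sum_prod_type' (f := fun x y =>
      (if (x ∈ A ∧ y ∈ A) ∧ Bad M C x y then (1 : ℝ) else 0))]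
    rw [Finset.sum_boole]
    congr 2
    ext p
    simp only [Finset.mem_filter, Finset.mem_product, Finset.mem_univ, true_and]
  simp only [h1, h2]
  rw [Finset.sum_comm]
  rw [Finset.sum_congr rfl fun y _ => Finset.sum_comm]
  rw [Finset.sum_comm]
  refine Finset.sum_congr rfl fun A _ => ?_
  rw [Finset.sum_comm]

/-- The divergence is large if there are many correlated pairs. Proof: with
`a = cnt2 x y / |C|`, `b = cnt x cnt y / |C|²`, `∑ a = ∑ b = q²`: for a correlated pair (`Bad`)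
`a log (a/b) ≥ a log M`, for the other pairs `a log (a/b) ≥ a - b ≥ - b` (also if `a = 0`), and
`∑_{Bad} a = (1/|C|) ∑_A #(bad pairs of A)` (double counting). -/
theorem kl_lower (C : Finset (Finset (Fin N))) (hC0 : C.Nonempty) (q : ℕ)
    (hC : ∀ A ∈ C, A.card = q) {M : ℝ} (hM : 1 < M) :
    (∑ A ∈ C, (((A ×ˢ A).filter (fun p => Bad M C p.1 p.2)).card : ℝ)) / C.card * Real.log M
        - (q : ℝ) ^ 2 ≤
      ∑ x, ∑ y, ((cnt2 C x y : ℝ) / C.card) *
        Real.log ((cnt2 C x y : ℝ) * C.card / ((cnt C x : ℝ) * cnt C y)) := by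
  have hn : (0 : ℝ) < C.card := by exact_mod_cast hC0.card_pos
  have h1 : ∑ x, ∑ y, ((if Bad M C x y then (cnt2 C x y : ℝ) else 0) / C.card * Real.log M
        - (cnt C x : ℝ) * cnt C y / (C.card : ℝ) ^ 2) ≤
      ∑ x, ∑ y, ((cnt2 C x y : ℝ) / C.card) *
        Real.log ((cnt2 C x y : ℝ) * C.card / ((cnt C x : ℝ) * cnt C y)) :=
    Finset.sum_le_sum fun x _ => Finset.sum_le_sum fun y _ => PinB_term C hC0 hM x y
  have h2 : ∑ x : Fin N, ∑ y : Fin N, (cnt C x : ℝ) * cnt C y / (C.card : ℝ) ^ 2 = (q : ℝ) ^ 2 := by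
    have h3 : ∑ x, (cnt C x : ℝ) = q * C.card := by exact_mod_cast sum_cnt C q hC
    have h4 : ∀ x : Fin N, ∑ y : Fin N, (cnt C x : ℝ) * cnt C y / (C.card : ℝ) ^ 2 =
        (cnt C x : ℝ) * (q * C.card) / (C.card : ℝ) ^ 2 := by
      intro x
      rw [← Finset.sum_div, ← Finset.mul_sum, h3]
    rw [Finset.sum_congr rfl fun x _ => h4 x, ← Finset.sum_div, ← Finset.sum_mul, h3]
    field_simp
  have h5 : ∑ x, ∑ y, ((if Bad M C x y then (cnt2 C x y : ℝ) else 0) / C.card * Real.log M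
        - (cnt C x : ℝ) * cnt C y / (C.card : ℝ) ^ 2) =
      (∑ A ∈ C, (((A ×ˢ A).filter (fun p => Bad M C p.1 p.2)).card : ℝ)) / C.card * Real.log M
        - (q : ℝ) ^ 2 := by
    rw [← PinB_double C M, ← h2, Finset.sum_div, Finset.sum_mul, ← Finset.sum_sub_distrib]
    refine Finset.sum_congr rfl fun x _ => ?_
    rw [Finset.sum_div, Finset.sum_mul, ← Finset.sum_sub_distrib]
  rw [← h5]
  exact h1

end C0st
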