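import Pool.Agent.W_c0up_h14.PinB

/-!
# MP_c0ce05_co, upper bound: the pinning lemma (proofs row 505, B2)
-/

set_option autoImplicit false

namespace C0st

open scoped Classical
open C0lo C0up

variable {N : ℕ}

/-- One pinning step. Proof: by `psi_identity`, `kl_lower` and `2 ≤ eps log M`,
`∑_y (cnt y/|C|) Psi (Cy C y) ≤ q (Psi C - q z)` with `z = (eps/2) log M`. Suppose that all `y` with
`|C| ≤ N cnt y` have `Psi (Cy C y) > Psi C - q z / 2`. The weights `cnt y / (q |C|)` have sum `1`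
and the other `y` have weight `< 1/q` together. If `Psi C < q z / 2` we get a contradiction to
`Psi (Cy C y) ≥ 0`. Otherwise `Psi C - q z ≥ (1 - 1/q)(Psi C - q z/2) ≥ Psi C - q z/2 - log N`
(`Psi_le`), contradiction to `h2`. -/
theorem pin_step (C : Finset (Finset (Fin N))) (hC0 : C.Nonempty) (q : ℕ) (hq : 1 ≤ q)
    (hC : ∀ A ∈ C, A.card = q) (hN : 1 ≤ N) {M eps : ℝ} (hM : 1 < M) (he : 0 < eps)
    (h1 : 2 ≤ eps * Real.log M) (h2 : Real.log N < q * (eps / 4) * Real.log M)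
    (hbad : eps * (q : ℝ) ^ 2 * C.card <
      ∑ A ∈ C, (((A ×ˢ A).filter (fun p => Bad M C p.1 p.2)).card : ℝ)) :
    ∃ y, (C.card : ℝ) ≤ (cnt C y : ℝ) * N ∧
      Psi (Cy C y) ≤ Psi C - q * (eps / 4) * Real.log M := by
  by_contra hcon
  push Not at hcon
  have hc0 : (0 : ℝ) < (C.card : ℝ) := by
    exact_mod_cast hC0.card_pos
  have hN0 : (0 : ℝ) < (N : ℝ) := by exact_mod_cast hN
  have hq1 : (1 : ℝ) ≤ (q : ℝ) := by exact_mod_cast hq
  have hL : 0 < Real.log M := Real.log_pos hM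
  have hkl := kl_lower C hC0 q hC hM
  have hid := psi_identity C hC0 q hC
  have hle := Psi_le C hC0 q hq hC hN
  have hnn := Psi_nonneg C
  rw [← hid] at hkl
  set S : ℝ := ∑ A ∈ C, (((A ×ˢ A).filter (fun p => Bad M C p.1 p.2)).card : ℝ) with hS
  have hS1 : eps * (q : ℝ) ^ 2 < S / (C.card : ℝ) := by
    rw [lt_div_iff₀ hc0]
    exact hbad
  have hS2 : eps * (q : ℝ) ^ 2 * Real.log M < S / (C.card : ℝ) * Real.log M :=
    mul_lt_mul_of_pos_right hS1 hL
  -- the weights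
  have hw0 : ∀ y, 0 ≤ (cnt C y : ℝ) / (C.card : ℝ) := fun y => by positivity
  have hsum : ∑ y, (cnt C y : ℝ) / (C.card : ℝ) = q := by
    rw [← Finset.sum_div]
    have h := sum_cnt C q hC
    have h' : (∑ y, (cnt C y : ℝ)) = (q : ℝ) * (C.card : ℝ) := by exact_mod_cast h
    rw [h']
    field_simp
  set δ : ℝ := q * (eps / 4) * Real.log M with hδ
  have hδ0 : 0 < δ := by positivity
  set H : Finset (Fin N) := Finset.univ.filter (fun y => (C.card : ℝ) ≤ (cnt C y : ℝ) * N) with hH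
  have hsplit : ∑ y, (cnt C y : ℝ) / (C.card : ℝ)
      = ∑ y ∈ H, (cnt C y : ℝ) / (C.card : ℝ)
        + ∑ y ∈ Finset.univ.filter (fun y => ¬ ((C.card : ℝ) ≤ (cnt C y : ℝ) * N)),
            (cnt C y : ℝ) / (C.card : ℝ) :=
    (Finset.sum_filter_add_sum_filter_not _ _ _).symm
  have hlight : ∑ y ∈ Finset.univ.filter (fun y => ¬ ((C.card : ℝ) ≤ (cnt C y : ℝ) * N)),
      (cnt C y : ℝ) / (C.card : ℝ) ≤ 1 := by
    have h1 : ∀ y ∈ Finset.univ.filter (fun y => ¬ ((C.card : ℝ) ≤ (cnt C y : ℝ) * N)),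
        (cnt C y : ℝ) / (C.card : ℝ) ≤ 1 / (N : ℝ) := by
      intro y hy
      rw [Finset.mem_filter, not_le] at hy
      rw [div_le_div_iff₀ hc0 hN0, one_mul]
      exact hy.2.le
    have h2 := Finset.sum_le_card_nsmul _ _ _ h1
    have h3 : ((Finset.univ.filter
        (fun y : Fin N => ¬ ((C.card : ℝ) ≤ (cnt C y : ℝ) * N))).card : ℝ) ≤ (N : ℝ) := by
      have h4 := Finset.card_filter_le (Finset.univ : Finset (Fin N))
        (fun y : Fin N => ¬ ((C.card : ℝ) ≤ (cnt C y : ℝ) * N))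
      rw [Finset.card_univ, Fintype.card_fin] at h4
      exact_mod_cast h4
    refine h2.trans ?_
    rw [nsmul_eq_mul]
    calc _ ≤ (N : ℝ) * (1 / (N : ℝ)) :=
          mul_le_mul_of_nonneg_right h3 (by positivity)
      _ = 1 := by field_simp
  have hHq : (q : ℝ) - 1 ≤ ∑ y ∈ H, (cnt C y : ℝ) / (C.card : ℝ) := by
    rw [hsum] at hsplit
    linarith
  have hlow : (∑ y ∈ H, (cnt C y : ℝ) / (C.card : ℝ)) * (Psi C - δ)
      ≤ ∑ y, ((cnt C y : ℝ) / C.card) * Psi (Cy C y) := by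
    rw [Finset.sum_mul]
    calc ∑ y ∈ H, (cnt C y : ℝ) / (C.card : ℝ) * (Psi C - δ)
        ≤ ∑ y ∈ H, ((cnt C y : ℝ) / C.card) * Psi (Cy C y) := by
          refine Finset.sum_le_sum ?_
          intro y hy
          rw [hH, Finset.mem_filter] at hy
          exact mul_le_mul_of_nonneg_left (hcon y hy.2).le (hw0 y)
      _ ≤ ∑ y, ((cnt C y : ℝ) / C.card) * Psi (Cy C y) := by
          refine Finset.sum_le_sum_of_subset_of_nonneg (Finset.subset_univ _) ?_
          intro y _ _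
          exact mul_nonneg (hw0 y) (Psi_nonneg _)
  have hpos : 0 ≤ ∑ y, ((cnt C y : ℝ) / C.card) * Psi (Cy C y) :=
    Finset.sum_nonneg (fun y _ => mul_nonneg (hw0 y) (Psi_nonneg _))
  have hq2 : (q : ℝ) ^ 2 ≤ eps * Real.log M / 2 * (q : ℝ) ^ 2 := by
    have h3 : (1 : ℝ) ≤ eps * Real.log M / 2 := by linarith
    nlinarith [sq_nonneg (q : ℝ)]
  have hmain : ∑ y, ((cnt C y : ℝ) / C.card) * Psi (Cy C y) < q * Psi C - 2 * q * δ := by
    have e1 : 2 * (q : ℝ) * δ = eps * Real.log M / 2 * (q : ℝ) ^ 2 := by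
      rw [hδ]
      ring
    rw [e1]
    nlinarith
  rcases lt_or_ge (Psi C) δ with hlt | hge
  · have h5 : (q : ℝ) * Psi C ≤ q * δ := mul_le_mul_of_nonneg_left hlt.le (by linarith)
    have h6 : 0 < (q : ℝ) * δ := by positivity
    linarith
  · have h5 : ((q : ℝ) - 1) * (Psi C - δ)
        ≤ (∑ y ∈ H, (cnt C y : ℝ) / (C.card : ℝ)) * (Psi C - δ) :=
      mul_le_mul_of_nonneg_right hHq (by linarith)
    have h6 : (q : ℝ) * Real.log N < q * δ := mul_lt_mul_of_pos_left h2 (by linarith)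
    nlinarith

/-- Pinning at most `n` vertices. Proof: by induction on `n` one shows for every nonempty family
`C0` with `Psi C0 ≤ n * (q * (eps/4) * log M)` the statement: either `T = ∅` works or apply
`pin_step` (then `Cy C0 y` is nonempty, its `Psi` is smaller by `q (eps/4) log M > 0`, so `n ≥ 1`
because `Psi ≥ 0`) and the induction hypothesis to `Cy C0 y`, `T = insert y T'`. Start with
`Psi_le` and `hn`. -/
theorem pin (C0 : Finset (Finset (Fin N))) (hC0 : C0.Nonempty) (q : ℕ) (hq : 1 ≤ q)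
    (hC : ∀ A ∈ C0, A.card = q) (hN : 1 ≤ N) {M eps : ℝ} (hM : 1 < M) (he : 0 < eps)
    (h1 : 2 ≤ eps * Real.log M) (h2 : Real.log N < q * (eps / 4) * Real.log M) (n : ℕ)
    (hn : 4 * Real.log N ≤ n * (eps * Real.log M)) :
    ∃ C ⊆ C0, C.Nonempty ∧ (C0.card : ℝ) ≤ C.card * (N : ℝ) ^ n ∧
      ∑ A ∈ C, (((A ×ˢ A).filter (fun p => Bad M C p.1 p.2)).card : ℝ) ≤
        eps * (q : ℝ) ^ 2 * C.card := by
  have hL : 0 < Real.log M := Real.log_pos hM
  have hN1 : (1 : ℝ) ≤ (N : ℝ) := by exact_mod_cast hN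
  have hq1 : (1 : ℝ) ≤ (q : ℝ) := by exact_mod_cast hq
  have hδ0 : 0 < q * (eps / 4) * Real.log M := by positivity
  have key : ∀ (m : ℕ) (C1 : Finset (Finset (Fin N))), C1.Nonempty → (∀ A ∈ C1, A.card = q) →
      Psi C1 ≤ m * (q * (eps / 4) * Real.log M) →
      ∃ C ⊆ C1, C.Nonempty ∧ (C1.card : ℝ) ≤ C.card * (N : ℝ) ^ m ∧
        ∑ A ∈ C, (((A ×ˢ A).filter (fun p => Bad M C p.1 p.2)).card : ℝ) ≤
          eps * (q : ℝ) ^ 2 * C.card := by
    intro m
    induction m with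
    | zero =>
      intro C1 hne hcard hpsi
      rcases le_or_gt (∑ A ∈ C1, (((A ×ˢ A).filter (fun p => Bad M C1 p.1 p.2)).card : ℝ))
        (eps * (q : ℝ) ^ 2 * C1.card) with hle | hgt
      · exact ⟨C1, Finset.Subset.refl _, hne, by simp, hle⟩
      · obtain ⟨y, _, hy2⟩ := pin_step C1 hne q hq hcard hN hM he h1 h2 hgt
        have h3 := Psi_nonneg (Cy C1 y)
        rw [Nat.cast_zero, zero_mul] at hpsi
        linarith
    | succ m ih =>
      intro C1 hne hcard hpsi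
      rcases le_or_gt (∑ A ∈ C1, (((A ×ˢ A).filter (fun p => Bad M C1 p.1 p.2)).card : ℝ))
        (eps * (q : ℝ) ^ 2 * C1.card) with hle | hgt
      · refine ⟨C1, Finset.Subset.refl _, hne, ?_, hle⟩
        exact le_mul_of_one_le_right (Nat.cast_nonneg _) (one_le_pow₀ hN1)
      · obtain ⟨y, hy1, hy2⟩ := pin_step C1 hne q hq hcard hN hM he h1 h2 hgt
        have hc1 : (0 : ℝ) < (C1.card : ℝ) := by exact_mod_cast hne.card_pos
        have hcy : (Cy C1 y).Nonempty := by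
          rw [← Finset.card_pos, card_Cy]
          by_contra h0
          have h4 : cnt C1 y = 0 := by omega
          rw [h4, Nat.cast_zero, zero_mul] at hy1
          linarith
        have hsub : Cy C1 y ⊆ C1 := Finset.filter_subset _ _
        have hpsi2 : Psi (Cy C1 y) ≤ m * (q * (eps / 4) * Real.log M) := by
          rw [Nat.cast_succ, add_mul, one_mul] at hpsi
          linarith
        obtain ⟨C, hC1, hC2, hC3, hC4⟩ := ih (Cy C1 y) hcy
          (fun A hA => hcard A (hsub hA)) hpsi2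
        refine ⟨C, hC1.trans hsub, hC2, ?_, hC4⟩
        rw [card_Cy] at hC3
        calc (C1.card : ℝ) ≤ (cnt C1 y : ℝ) * N := hy1
          _ ≤ (C.card * (N : ℝ) ^ m) * N := mul_le_mul_of_nonneg_right hC3 (by linarith)
          _ = C.card * (N : ℝ) ^ (m + 1) := by ring
  refine key n C0 hC0 hC ?_
  have h3 := Psi_le C0 hC0 q hq hC hN
  have h4 : (q : ℝ) * Real.log N ≤ q * (n * (eps * Real.log M) / 4) :=
    mul_le_mul_of_nonneg_left (by linarith) (by linarith)
  calc Psi C0 ≤ q * Real.log N := h3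
    _ ≤ q * (n * (eps * Real.log M) / 4) := h4
    _ = n * (q * (eps / 4) * Real.log M) := by ring

end C0st
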