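import Pool.Agent.W_c0up_h14.RA
import Pool.Agent.W_c0up_h14.DefsG

/-!
# MP_c0ce05_co, upper bounds: the random part of `R`
-/

set_option autoImplicit false

namespace C0st

open scoped Classical

variable {α : Type}

theorem RB_badW_nonneg (W : Finset α) (g : α → Sym2 α) (R : Finset α) : 0 ≤ badW W g R := by
  unfold badW
  split_ifs
  · exact le_refl _
  · exact Nat.cast_nonneg _

/-- Existence of the random part. Proof: `F R = ∑_{y ∈ A} badW (W y) (g y) R` has expectation at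
most `|A| xiB`, `|R|` has expectation `p |A|` (`bw_card`). If every `R ⊆ A` had `|R| > 3 p |A|` or
`F R > 3 |A| xiB` then `1 = ∑ bw ≤ 1/3 + 1/3` (`xiB > 0` because of the second term; `A` empty:
`R = ∅`). -/
theorem exists_R0 {p : ℝ} (hp0 : 0 < p) (hp1 : p ≤ 1) (A : Finset α) (W : α → Finset α)
    (hW : ∀ y ∈ A, W y ⊆ A) (g : α → α → Sym2 α)
    (hg : ∀ y ∈ A, ∀ w ∈ W y, ¬ (g y w).IsDiag ∧ ∀ x ∈ g y w, x ∈ A) (D0 T0 k0 : ℕ)
    (hD0 : 1 ≤ D0) (hT0 : 1 ≤ T0) :
    ∃ R ⊆ A, (R.card : ℝ) ≤ 3 * p * A.card ∧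
      ∑ y ∈ A, badW (W y) (g y) R ≤ 3 * (A.card * xiB p A.card D0 T0 k0) := by
  by_cases hA : A = ∅
  · subst hA
    refine ⟨∅, Finset.Subset.refl _, by simp, by simp⟩
  have hA0 : 0 < A.card := Finset.card_pos.2 (Finset.nonempty_iff_ne_empty.2 hA)
  have hn : (0 : ℝ) < A.card := by exact_mod_cast hA0
  have hq : 0 ≤ 1 - p := by linarith
  have hT : (0 : ℝ) < T0 := by exact_mod_cast hT0
  have hxi : 0 < xiB p A.card D0 T0 k0 := by
    unfold xiB
    have h1 : 0 ≤ (A.card : ℝ) * (2 * (1 - p) ^ D0) := by positivity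
    have h2 : 0 < (A.card : ℝ) * ((p⁻¹ ^ 2 + 2 * D0 * p⁻¹) / T0) := by positivity
    have h3 : 0 ≤ (T0 : ℝ) * k0 := by positivity
    have h4 : 0 ≤ (A.card : ℝ) * (1 - p) ^ k0 := by positivity
    linarith
  set F : Finset α → ℝ := fun R => ∑ y ∈ A, badW (W y) (g y) R with hF
  have hF0 : ∀ R, 0 ≤ F R := fun R => Finset.sum_nonneg fun y _ => RB_badW_nonneg _ _ _
  have hFe : ∑ R ∈ A.powerset, bw p A R * F R ≤ A.card * xiB p A.card D0 T0 k0 := by
    have h1 : ∑ R ∈ A.powerset, bw p A R * F R =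
        ∑ y ∈ A, ∑ R ∈ A.powerset, bw p A R * badW (W y) (g y) R := by
      simp only [hF, Finset.mul_sum]
      exact Finset.sum_comm
    rw [h1]
    have h2 := Finset.sum_le_sum (s := A) fun y hy =>
      badW_exp hp0 hp1 A (W y) (hW y hy) (g y) (hg y hy) D0 T0 k0 hD0 hT0
    rw [Finset.sum_const, nsmul_eq_mul] at h2
    exact h2
  by_contra hcon
  push Not at hcon
  have hkey : ∀ R ∈ A.powerset, bw p A R ≤
      bw p A R * (R.card : ℝ) * (3 * p * A.card)⁻¹ +
        bw p A R * F R * (3 * (A.card * xiB p A.card D0 T0 k0))⁻¹ := by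
    intro R hR
    have hRA := Finset.mem_powerset.1 hR
    have hb := bw_nonneg hp0.le hp1 A R
    have hu : (0 : ℝ) < 3 * p * A.card := by positivity
    have hv : (0 : ℝ) < 3 * (A.card * xiB p A.card D0 T0 k0) := by positivity
    have h3 : 1 ≤ (R.card : ℝ) * (3 * p * A.card)⁻¹ +
        F R * (3 * (A.card * xiB p A.card D0 T0 k0))⁻¹ := by
      have h4 : 0 ≤ (R.card : ℝ) * (3 * p * A.card)⁻¹ := by positivity
      have h5 : 0 ≤ F R * (3 * (A.card * xiB p A.card D0 T0 k0))⁻¹ :=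
        mul_nonneg (hF0 R) (inv_nonneg.2 hv.le)
      by_cases hc : (R.card : ℝ) ≤ 3 * p * A.card
      · have h6 := hcon R hRA hc
        have h7 : 1 ≤ F R * (3 * (A.card * xiB p A.card D0 T0 k0))⁻¹ := by
          rw [← div_eq_mul_inv, le_div_iff₀ hv]
          linarith
        linarith
      · have h7 : 1 ≤ (R.card : ℝ) * (3 * p * A.card)⁻¹ := by
          rw [← div_eq_mul_inv, le_div_iff₀ hu]
          linarith
        linarith
    have h8 := mul_le_mul_of_nonneg_left h3 hb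
    linarith
  have hsum := Finset.sum_le_sum hkey
  rw [bw_total, Finset.sum_add_distrib, ← Finset.sum_mul, ← Finset.sum_mul, bw_card] at hsum
  have h9 : p * A.card * (3 * p * A.card)⁻¹ = 1 / 3 := by
    field_simp
  have h10 : (∑ R ∈ A.powerset, bw p A R * F R) * (3 * (A.card * xiB p A.card D0 T0 k0))⁻¹ ≤ 1 / 3 := by
    have hv : (0 : ℝ) < 3 * (A.card * xiB p A.card D0 T0 k0) := by positivity
    rw [← div_eq_mul_inv, div_le_iff₀ hv]
    linarith
  linarith

end C0st
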