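import Mathlib

/-!
# MP_c0ce05_co, upper bound: random subsets (proofs row 505, B1)

`bw p A R = p ^ |R| (1 - p) ^ (|A| - |R|)` is the weight of the subset `R` of `A`.
-/

set_option autoImplicit false

namespace C0st

open scoped Classical

variable {α : Type}

/-- the weight of `R` in the binomial model on `A` -/
noncomputable def bw (p : ℝ) (A R : Finset α) : ℝ := p ^ R.card * (1 - p) ^ (A.card - R.card)

/-- `P(U ⊆ R) = p ^ |U|`. Proof: `R = U ∪ R'` with `R' ⊆ A \ U`, then the binomial theorem
(`Finset.sum_pow_mul_eq_add_pow`) on `A \ U`. -/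
theorem bw_sup (p : ℝ) (A U : Finset α) (hU : U ⊆ A) :
    ∑ R ∈ A.powerset.filter (fun R => U ⊆ R), bw p A R = p ^ U.card := by
  have h1 : ∑ R ∈ A.powerset.filter (fun R => U ⊆ R), bw p A R
      = ∑ T ∈ (A \ U).powerset, p ^ U.card * (p ^ T.card * (1 - p) ^ ((A \ U).card - T.card)) := by
    refine Finset.sum_nbij' (fun R => R \ U) (fun T => U ∪ T) ?_ ?_ ?_ ?_ ?_
    · intro R hR
      rw [Finset.mem_filter, Finset.mem_powerset] at hR
      rw [Finset.mem_powerset]
      exact Finset.sdiff_subset_sdiff hR.1 (Finset.Subset.refl U)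
    · intro T hT
      rw [Finset.mem_powerset] at hT
      rw [Finset.mem_filter, Finset.mem_powerset]
      exact ⟨Finset.union_subset hU (hT.trans Finset.sdiff_subset), Finset.subset_union_left⟩
    · intro R hR
      rw [Finset.mem_filter, Finset.mem_powerset] at hR
      exact Finset.union_sdiff_of_subset hR.2
    · intro T hT
      rw [Finset.mem_powerset] at hT
      have hd : Disjoint U T := by
        rw [Finset.disjoint_left]
        intro x hx hxT
        exact (Finset.mem_sdiff.mp (hT hxT)).2 hx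
      rw [Finset.union_sdiff_cancel_left hd]
    · intro R hR
      rw [Finset.mem_filter, Finset.mem_powerset] at hR
      have e1 : (R \ U).card = R.card - U.card := Finset.card_sdiff_of_subset hR.2
      have e2 : (A \ U).card = A.card - U.card := Finset.card_sdiff_of_subset hU
      have e3 := Finset.card_le_card hR.2
      have e4 := Finset.card_le_card hR.1
      unfold bw
      rw [← mul_assoc, ← pow_add]
      congr 2
      · omega
      · omega
  rw [h1, ← Finset.mul_sum, Finset.sum_pow_mul_eq_add_pow]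
  simp

/-- `P(R ∩ U = ∅) = (1 - p) ^ |U|`. Proof: the sum over `R ⊆ A \ U` of
`p ^ |R| (1-p) ^ (|A \ U| - |R|)` is `1`; multiply by `(1-p)^|U|`. -/
theorem bw_disj (p : ℝ) (A U : Finset α) (hU : U ⊆ A) :
    ∑ R ∈ A.powerset.filter (fun R => Disjoint R U), bw p A R = (1 - p) ^ U.card := by
  have h0 : A.powerset.filter (fun R => Disjoint R U) = (A \ U).powerset := by
    ext R
    rw [Finset.mem_filter, Finset.mem_powerset, Finset.mem_powerset, Finset.subset_sdiff]
  rw [h0]
  have h1 : ∑ R ∈ (A \ U).powerset, bw p A R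
      = ∑ T ∈ (A \ U).powerset,
          (1 - p) ^ U.card * (p ^ T.card * (1 - p) ^ ((A \ U).card - T.card)) := by
    refine Finset.sum_congr rfl ?_
    intro T hT
    rw [Finset.mem_powerset] at hT
    have e2 : (A \ U).card = A.card - U.card := Finset.card_sdiff_of_subset hU
    have e3 := Finset.card_le_card hU
    have e4 := Finset.card_le_card hT
    have e5 : A.card - T.card = U.card + ((A \ U).card - T.card) := by omega
    unfold bw
    rw [e5, pow_add]
    ring
  rw [h1, ← Finset.mul_sum, Finset.sum_pow_mul_eq_add_pow]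
  simp

/-- total mass `1` (`bw_sup` with `U = ∅`) -/
theorem bw_total (p : ℝ) (A : Finset α) : ∑ R ∈ A.powerset, bw p A R = 1 := by
  unfold bw
  rw [Finset.sum_pow_mul_eq_add_pow]
  simp

/-- expected size: `∑_R |R| w(R) = ∑_x P(x ∈ R) = p |A|` (`bw_sup` with `U = {x}`) -/
theorem bw_card (p : ℝ) (A : Finset α) :
    ∑ R ∈ A.powerset, bw p A R * (R.card : ℝ) = p * A.card := by
  have h1 : ∀ R ∈ A.powerset, bw p A R * (R.card : ℝ)
      = ∑ x ∈ A, (if {x} ⊆ R then bw p A R else 0) := by
    intro R hR
    rw [Finset.mem_powerset] at hR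
    rw [← Finset.sum_filter]
    have h2 : A.filter (fun x => {x} ⊆ R) = R := by
      ext x
      rw [Finset.mem_filter, Finset.singleton_subset_iff]
      exact ⟨fun h => h.2, fun h => ⟨hR h, h⟩⟩
    rw [h2, Finset.sum_const, nsmul_eq_mul, mul_comm]
  rw [Finset.sum_congr rfl h1, Finset.sum_comm]
  have h3 : ∀ x ∈ A, (∑ R ∈ A.powerset, (if {x} ⊆ R then bw p A R else 0)) = p := by
    intro x hx
    rw [← Finset.sum_filter, bw_sup p A {x} (Finset.singleton_subset_iff.mpr hx)]
    simp
  rw [Finset.sum_congr rfl h3, Finset.sum_const, nsmul_eq_mul, mul_comm]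

theorem bw_nonneg {p : ℝ} (hp0 : 0 ≤ p) (hp1 : p ≤ 1) (A R : Finset α) : 0 ≤ bw p A R := by
  unfold bw
  have : 0 ≤ 1 - p := by linarith
  positivity

end C0st
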