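import Pool.Agent.W_c0up_h14.RSetA

/-!
# MP_c0ce05_co, upper bound: second moment of the number of edges inside a random set
-/

set_option autoImplicit false

namespace C0st

open scoped Classical

variable {α : Type}

theorem RSetB_card {e : Sym2 α} (he : ¬ e.IsDiag) : e.toFinset.card = 2 :=
  Sym2.card_toFinset_of_not_isDiag e he

theorem RSetB_ext {e e' : Sym2 α} (h : e.toFinset = e'.toFinset) : e = e' := by
  refine Sym2.ext fun x => ?_
  rw [← Sym2.mem_toFinset, ← Sym2.mem_toFinset, h]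

theorem RSetB_share (A : Finset α) (E : Finset (Sym2 α))
    (hE : ∀ e ∈ E, ¬ e.IsDiag ∧ ∀ x ∈ e, x ∈ A) (D0 : ℕ)
    (hD : ∀ x ∈ A, (E.filter (fun e => x ∈ e)).card ≤ D0) {e : Sym2 α} (he : e ∈ E) :
    (E.filter (fun e' => ¬ Disjoint e.toFinset e'.toFinset)).card ≤ 2 * D0 := by
  induction e using Sym2.ind with
  | _ a b =>
    have ha := hD a ((hE _ he).2 a (Sym2.mem_mk_left a b))
    have hb := hD b ((hE _ he).2 b (Sym2.mem_mk_right a b))
    have h1 : E.filter (fun e' => ¬ Disjoint (s(a, b)).toFinset e'.toFinset) ⊆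
        E.filter (fun e => a ∈ e) ∪ E.filter (fun e => b ∈ e) := by
      intro f hf
      rw [Finset.mem_filter, Finset.not_disjoint_iff] at hf
      obtain ⟨hfE, x, hx1, hx2⟩ := hf
      rw [Sym2.mem_toFinset] at hx1 hx2
      rw [Finset.mem_union, Finset.mem_filter, Finset.mem_filter]
      rcases Sym2.mem_iff.1 hx1 with h | h
      · exact Or.inl ⟨hfE, h ▸ hx2⟩
      · exact Or.inr ⟨hfE, h ▸ hx2⟩
    have h2 := (Finset.card_le_card h1).trans (Finset.card_union_le _ _)
    omega

theorem RSetB_pow {p : ℝ} (hp0 : 0 < p) (hp1 : p ≤ 1) {e e' : Sym2 α} (he : ¬ e.IsDiag)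
    (he' : ¬ e'.IsDiag) :
    p ^ (e.toFinset ∪ e'.toFinset).card ≤ p ^ 4 + (if e = e' then p ^ 2 else 0) +
      (if ¬ Disjoint e.toFinset e'.toFinset then p ^ 3 else 0) := by
  have h2 := RSetB_card he
  have h3 := RSetB_card he'
  have h4 : 0 ≤ (if ¬ Disjoint e.toFinset e'.toFinset then p ^ 3 else 0) := by
    split_ifs <;> positivity
  by_cases h : e = e'
  · subst h
    rw [Finset.union_idempotent, h2, if_pos rfl]
    have : 0 ≤ p ^ 4 := by positivity
    linarith
  · rw [if_neg h, add_zero]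
    by_cases hd : Disjoint e.toFinset e'.toFinset
    · rw [Finset.card_union_of_disjoint hd, h2, h3, if_neg (not_not.2 hd)]
      norm_num
    · rw [if_pos hd]
      have h5 : 3 ≤ (e.toFinset ∪ e'.toFinset).card := by
        by_contra hlt
        have h6 : e.toFinset = e.toFinset ∪ e'.toFinset :=
          Finset.eq_of_subset_of_card_le Finset.subset_union_left (by omega)
        have h7 : e'.toFinset = e.toFinset ∪ e'.toFinset :=
          Finset.eq_of_subset_of_card_le Finset.subset_union_right (by omega)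
        exact h (RSetB_ext (h6.trans h7.symm))
      have h6 : p ^ (e.toFinset ∪ e'.toFinset).card ≤ p ^ 3 :=
        pow_le_pow_of_le_one hp0.le hp1 h5
      have : 0 ≤ p ^ 4 := by positivity
      linarith

/-- Second moment. `E` a set of edges (no loops) with end points in `A`, at most `D0` edges at
every vertex, `h ≤ |E|`. With probability at least `1 - (p⁻² + 2 D0 p⁻¹)/h` some edge of `E` is
inside the random set `R`.
Proof. `X(R)` = number of `e ∈ E` inside `R`, `m = |E| p²` its mean (`bw_sup` for the two-element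
vertex set of `e`). `∑ w X² = ∑_{e,e'} p ^ |e ∪ e'|` (`bw_sup`): `e = e'` gives `p²`; `e ≠ e'` with
a common vertex: `p³`, at most `2 D0` such `e'` for every `e`; disjoint: `p⁴`. So
`∑ w (X - m)² ≤ |E| p² + 2 D0 |E| p³`, and every `R` without an edge has `(X - m)² = m²`. Divide by
`m² = |E|² p⁴`. -/
theorem second_moment {p : ℝ} (hp0 : 0 < p) (hp1 : p ≤ 1) (A : Finset α)
    (E : Finset (Sym2 α)) (hE : ∀ e ∈ E, ¬ e.IsDiag ∧ ∀ x ∈ e, x ∈ A) (D0 h : ℕ)
    (hD : ∀ x ∈ A, (E.filter (fun e => x ∈ e)).card ≤ D0) (hh : 1 ≤ h) (hh2 : h ≤ E.card) :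
    ∑ R ∈ A.powerset.filter (fun R => ¬ ∃ e ∈ E, ∀ x ∈ e, x ∈ R), bw p A R ≤
      (p⁻¹ ^ 2 + 2 * D0 * p⁻¹) / h := by
  have hsub : ∀ e ∈ E, e.toFinset ⊆ A := fun e he x hx => (hE e he).2 x (Sym2.mem_toFinset.1 hx)
  set X : Finset α → ℝ := fun R => ∑ e ∈ E, if e.toFinset ⊆ R then (1 : ℝ) else 0 with hX
  set m : ℝ := (E.card : ℝ) * p ^ 2 with hm
  have hEc : (0 : ℝ) < E.card := by
    have : 0 < E.card := by omega
    exact_mod_cast this
  have hm0 : 0 < m := by positivity
  have hw : ∀ R, 0 ≤ bw p A R := fun R => bw_nonneg hp0.le hp1 A R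
  -- probability that a set is inside
  have hP : ∀ U ⊆ A, ∑ R ∈ A.powerset, bw p A R * (if U ⊆ R then (1 : ℝ) else 0) =
      p ^ U.card := by
    intro U hU
    rw [← bw_sup p A U hU, Finset.sum_filter]
    refine Finset.sum_congr rfl fun R _ => ?_
    split_ifs <;> simp
  -- first moment
  have h1 : ∑ R ∈ A.powerset, bw p A R * X R = m := by
    have h2 : ∑ R ∈ A.powerset, bw p A R * X R =
        ∑ e ∈ E, ∑ R ∈ A.powerset, bw p A R * (if e.toFinset ⊆ R then (1 : ℝ) else 0) := by
      rw [Finset.sum_comm]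
      refine Finset.sum_congr rfl fun R _ => ?_
      rw [Finset.mul_sum]
    rw [h2, hm, ← nsmul_eq_mul, ← Finset.sum_const]
    refine Finset.sum_congr rfl fun e he => ?_
    rw [hP _ (hsub e he), RSetB_card (hE e he).1]
  -- second moment
  have h2 : ∑ R ∈ A.powerset, bw p A R * X R ^ 2 ≤
      m ^ 2 + ((E.card : ℝ) * p ^ 2 + 2 * D0 * E.card * p ^ 3) := by
    have h3 : ∑ R ∈ A.powerset, bw p A R * X R ^ 2 =
        ∑ e ∈ E, ∑ e' ∈ E, p ^ (e.toFinset ∪ e'.toFinset).card := by
      have h4 : ∀ e ∈ E, ∀ e' ∈ E, p ^ (e.toFinset ∪ e'.toFinset).card =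
          ∑ R ∈ A.powerset, bw p A R *
            ((if e.toFinset ⊆ R then (1 : ℝ) else 0) * (if e'.toFinset ⊆ R then (1 : ℝ) else 0)) := by
        intro e he e' he'
        rw [← hP _ (Finset.union_subset (hsub e he) (hsub e' he'))]
        refine Finset.sum_congr rfl fun R _ => ?_
        congr 1
        by_cases h5 : e.toFinset ⊆ R
        · by_cases h6 : e'.toFinset ⊆ R
          · rw [if_pos h5, if_pos h6, if_pos (Finset.union_subset h5 h6), mul_one]
          · rw [if_pos h5, if_neg h6, if_neg (fun h7 => h6 (Finset.union_subset_iff.1 h7).2),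
              mul_zero]
        · rw [if_neg h5, if_neg (fun h7 => h5 (Finset.union_subset_iff.1 h7).1), zero_mul]
      rw [Finset.sum_congr rfl fun e he => Finset.sum_congr rfl fun e' he' => h4 e he e' he']
      have h5 : ∀ R, bw p A R * X R ^ 2 = ∑ e ∈ E, ∑ e' ∈ E, bw p A R *
            ((if e.toFinset ⊆ R then (1 : ℝ) else 0) *
              (if e'.toFinset ⊆ R then (1 : ℝ) else 0)) := by
        intro R
        rw [hX, sq, Finset.sum_mul_sum]
        simp only [Finset.mul_sum]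
      rw [Finset.sum_congr rfl fun R _ => h5 R, Finset.sum_comm]
      refine Finset.sum_congr rfl fun e _ => ?_
      rw [Finset.sum_comm]
    rw [h3]
    have h6 : ∀ e ∈ E, ∑ e' ∈ E, p ^ (e.toFinset ∪ e'.toFinset).card ≤
        (E.card : ℝ) * p ^ 4 + p ^ 2 + (2 * D0) * p ^ 3 := by
      intro e he
      have h7 : ∑ e' ∈ E, p ^ (e.toFinset ∪ e'.toFinset).card ≤
          ∑ e' ∈ E, (p ^ 4 + (if e = e' then p ^ 2 else 0) +
            (if ¬ Disjoint e.toFinset e'.toFinset then p ^ 3 else 0)) :=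
        Finset.sum_le_sum fun e' he' => RSetB_pow hp0 hp1 (hE e he).1 (hE e' he').1
      refine h7.trans ?_
      rw [Finset.sum_add_distrib, Finset.sum_add_distrib, Finset.sum_const, nsmul_eq_mul,
        Finset.sum_ite_eq, if_pos he]
      refine add_le_add le_rfl ?_
      rw [← Finset.sum_filter, Finset.sum_const, nsmul_eq_mul]
      refine mul_le_mul_of_nonneg_right ?_ (by positivity)
      exact_mod_cast RSetB_share A E hE D0 hD he
    refine (Finset.sum_le_sum h6).trans (le_of_eq ?_)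
    rw [Finset.sum_const, nsmul_eq_mul, hm]
    ring
  have h3 : ∑ R ∈ A.powerset, bw p A R = 1 := bw_total p A
  -- variance
  have h4 : ∑ R ∈ A.powerset, bw p A R * (X R - m) ^ 2 ≤
      (E.card : ℝ) * p ^ 2 + 2 * D0 * E.card * p ^ 3 := by
    have h5 : ∑ R ∈ A.powerset, bw p A R * (X R - m) ^ 2 =
        ∑ R ∈ A.powerset, bw p A R * X R ^ 2 - 2 * m * ∑ R ∈ A.powerset, bw p A R * X R +
          m ^ 2 * ∑ R ∈ A.powerset, bw p A R := by
      rw [Finset.mul_sum, Finset.mul_sum, ← Finset.sum_sub_distrib, ← Finset.sum_add_distrib]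
      refine Finset.sum_congr rfl fun R _ => ?_
      ring
    rw [h5, h1, h3]
    nlinarith
  -- Chebyshev
  have h5 : m ^ 2 * ∑ R ∈ A.powerset.filter (fun R => ¬ ∃ e ∈ E, ∀ x ∈ e, x ∈ R), bw p A R ≤
      ∑ R ∈ A.powerset, bw p A R * (X R - m) ^ 2 := by
    rw [Finset.mul_sum]
    refine le_trans (Finset.sum_le_sum (g := fun R => bw p A R * (X R - m) ^ 2) ?_)
      (Finset.sum_le_sum_of_subset_of_nonneg (Finset.filter_subset _ _) ?_)
    · intro R hR
      have hR2 := (Finset.mem_filter.1 hR).2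
      have hX0 : X R = 0 := by
        rw [hX]
        refine Finset.sum_eq_zero fun e he => if_neg fun hs => hR2 ⟨e, he, fun x hx => ?_⟩
        exact hs (Sym2.mem_toFinset.2 hx)
      rw [hX0]
      apply le_of_eq
      ring
    · intro R _ _
      exact mul_nonneg (hw R) (sq_nonneg _)
  have h6 := h5.trans h4
  set P := ∑ R ∈ A.powerset.filter (fun R => ¬ ∃ e ∈ E, ∀ x ∈ e, x ∈ R), bw p A R with hPdef
  have h7 : P ≤ ((E.card : ℝ) * p ^ 2 + 2 * D0 * E.card * p ^ 3) / m ^ 2 := by
    rw [le_div_iff₀ (by positivity)]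
    linarith
  have h8 : ((E.card : ℝ) * p ^ 2 + 2 * D0 * E.card * p ^ 3) / m ^ 2 =
      (p⁻¹ ^ 2 + 2 * D0 * p⁻¹) / E.card := by
    rw [hm]
    field_simp
  rw [h8] at h7
  refine h7.trans ?_
  refine div_le_div_of_nonneg_left (by positivity) ?_ (by exact_mod_cast hh2)
  exact_mod_cast (show 0 < h by omega)

end C0st
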