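import Pool.Agent.W_c0up_h14.RSetB

/-!
# MP_c0ce05_co, upper bound: existence of a good set (proofs row 505, Lemma R, abstract form)
-/

set_option autoImplicit false

namespace C0st

open scoped Classical

variable {α : Type}

/-- `y` is bad for `R`: no edge of the graph `H` is inside `R`, and at least `h` edges of `H` have
no end point `x` which is joined (in `H`) to `R` -/
def BadR (H : Finset (Sym2 α)) (h : ℕ) (R : Finset α) : Prop :=
  (¬ ∃ e ∈ H, ∀ x ∈ e, x ∈ R) ∧
    h ≤ (H.filter (fun e => ∀ x ∈ e, ¬ ∃ z ∈ R, s(x, z) ∈ H)).card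

private theorem rsetC_union {β : Type} (P : Finset β) (w : β → ℝ) (hw : ∀ R, 0 ≤ w R) (B : Finset α)
    (S T : β → Prop) (Sx : α → β → Prop) [DecidablePred S] [DecidablePred T]
    [∀ x, DecidablePred (Sx x)] (h : ∀ R ∈ P, S R → (∃ x ∈ B, Sx x R) ∨ T R) :
    ∑ R ∈ P.filter S, w R ≤
      (∑ x ∈ B, ∑ R ∈ P.filter (Sx x), w R) + ∑ R ∈ P.filter T, w R := by
  simp only [Finset.sum_filter]
  rw [Finset.sum_comm, ← Finset.sum_add_distrib]
  apply Finset.sum_le_sum
  intro R hR
  have h0 : 0 ≤ ∑ x ∈ B, (if Sx x R then w R else 0) :=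
    Finset.sum_nonneg (fun x _ => by split_ifs <;> first | exact hw R | exact le_rfl)
  have h1 : 0 ≤ (if T R then w R else 0) := by split_ifs <;> first | exact hw R | exact le_rfl
  by_cases hS : S R
  · rw [if_pos hS]
    rcases h R hR hS with ⟨x, hx, hSx⟩ | hT
    · have h2 : (if Sx x R then w R else 0) ≤ ∑ x ∈ B, (if Sx x R then w R else 0) :=
        Finset.single_le_sum (f := fun x => if Sx x R then w R else 0)
          (fun y _ => by
            show 0 ≤ (if Sx y R then w R else 0)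
            split_ifs <;> first | exact hw R | exact le_rfl) hx
      rw [if_pos hSx] at h2
      linarith
    · rw [if_pos hT] at h1 ⊢
      linarith
  · rw [if_neg hS]
    linarith

/-- One graph. Proof. `deg x` = number of edges of `H` at `x`, `N x` = set of the neighbours,
`|N x| = deg x`. If for every `x ∈ A` with `deg x ≥ D0` the set `R` meets `N x`, then the edges
counted in `BadR` lie in `E = {e ∈ H : both end points of degree < D0}`; so `|E| ≥ h` and no edge
of `E` is inside `R`: probability at most `(p⁻² + 2 D0 p⁻¹)/h` (`second_moment`). For one `x` with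
`deg x ≥ D0`: `P(R ∩ N x = ∅) = (1-p)^(deg x) ≤ (1-p)^D0` (`bw_disj`), at most `|A|` such `x`. -/
theorem badR_prob {p : ℝ} (hp0 : 0 < p) (hp1 : p ≤ 1) (A : Finset α)
    (H : Finset (Sym2 α)) (hH : ∀ e ∈ H, ¬ e.IsDiag ∧ ∀ x ∈ e, x ∈ A) (D0 h : ℕ) (hh : 1 ≤ h) :
    ∑ R ∈ A.powerset.filter (fun R => BadR H h R), bw p A R ≤
      A.card * (1 - p) ^ D0 + (p⁻¹ ^ 2 + 2 * D0 * p⁻¹) / h := by
  have hq0 : 0 ≤ 1 - p := by linarith
  have hq1 : 1 - p ≤ 1 := by linarith
  have hw : ∀ R, 0 ≤ bw p A R := fun R => bw_nonneg hp0.le hp1 A R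
  let deg : α → ℕ := fun x => (H.filter (fun e => x ∈ e)).card
  let N : α → Finset α := fun x => A.filter (fun z => s(x, z) ∈ H)
  let B : Finset α := A.filter (fun x => D0 ≤ deg x)
  let E : Finset (Sym2 α) := H.filter (fun e => ∀ x ∈ e, deg x < D0)
  have hNA : ∀ x, N x ⊆ A := fun x => Finset.filter_subset _ _
  have hNdeg : ∀ x, deg x = (N x).card := by
    intro x
    symm
    apply Finset.card_bij (fun z _ => s(x, z))
    · intro z hz
      rw [Finset.mem_filter] at hz ⊢
      exact ⟨hz.2, Sym2.mem_mk_left _ _⟩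
    · intro z _ z' _ hzz
      exact Sym2.congr_right.1 hzz
    · intro e he
      rw [Finset.mem_filter] at he
      obtain ⟨z, hz⟩ := Sym2.mem_iff_exists.1 he.2
      subst hz
      exact ⟨z, Finset.mem_filter.2 ⟨(hH _ he.1).2 z (Sym2.mem_mk_right _ _), he.1⟩, rfl⟩
  have hkey : ∀ R ∈ A.powerset, BadR H h R →
      (∃ x ∈ B, Disjoint R (N x)) ∨ (h ≤ E.card ∧ ¬ ∃ e ∈ E, ∀ x ∈ e, x ∈ R) := by
    intro R hR hbad
    by_cases hx : ∃ x ∈ B, Disjoint R (N x)
    · exact Or.inl hx
    · right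
      push Not at hx
      have hsub : H.filter (fun e => ∀ x ∈ e, ¬ ∃ z ∈ R, s(x, z) ∈ H) ⊆ E := by
        intro e he
        rw [Finset.mem_filter] at he
        refine Finset.mem_filter.2 ⟨he.1, fun x hxe => ?_⟩
        by_contra hcon
        have hxB : x ∈ B := Finset.mem_filter.2 ⟨(hH e he.1).2 x hxe, not_lt.1 hcon⟩
        have h1 := hx x hxB
        rw [Finset.not_disjoint_iff] at h1
        obtain ⟨z, hzR, hzN⟩ := h1
        exact he.2 x hxe ⟨z, hzR, (Finset.mem_filter.1 hzN).2⟩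
      refine ⟨hbad.2.trans (Finset.card_le_card hsub), ?_⟩
      rintro ⟨e, he, hin⟩
      exact hbad.1 ⟨e, (Finset.mem_filter.1 he).1, hin⟩
  have h1 := rsetC_union A.powerset (bw p A) hw B (fun R => BadR H h R)
    (fun R => h ≤ E.card ∧ ¬ ∃ e ∈ E, ∀ x ∈ e, x ∈ R) (fun x R => Disjoint R (N x)) hkey
  have h2 : ∑ x ∈ B, ∑ R ∈ A.powerset.filter (fun R => Disjoint R (N x)), bw p A R ≤
      A.card * (1 - p) ^ D0 := by
    have h3 : ∀ x ∈ B, ∑ R ∈ A.powerset.filter (fun R => Disjoint R (N x)), bw p A R ≤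
        (1 - p) ^ D0 := by
      intro x hx
      rw [bw_disj p A (N x) (hNA x), ← hNdeg]
      exact pow_le_pow_of_le_one hq0 hq1 (Finset.mem_filter.1 hx).2
    refine (Finset.sum_le_sum h3).trans ?_
    rw [Finset.sum_const, nsmul_eq_mul]
    have h4 : (B.card : ℝ) ≤ A.card := by
      exact_mod_cast Finset.card_le_card (Finset.filter_subset _ _)
    exact mul_le_mul_of_nonneg_right h4 (pow_nonneg hq0 _)
  have h5 : ∑ R ∈ A.powerset.filter (fun R => h ≤ E.card ∧ ¬ ∃ e ∈ E, ∀ x ∈ e, x ∈ R), bw p A R ≤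
      (p⁻¹ ^ 2 + 2 * D0 * p⁻¹) / h := by
    by_cases hE : h ≤ E.card
    · have h6 : A.powerset.filter (fun R => h ≤ E.card ∧ ¬ ∃ e ∈ E, ∀ x ∈ e, x ∈ R) =
          A.powerset.filter (fun R => ¬ ∃ e ∈ E, ∀ x ∈ e, x ∈ R) := by
        apply Finset.filter_congr
        intro R _
        exact ⟨fun h => h.2, fun h => ⟨hE, h⟩⟩
      rw [h6]
      apply second_moment hp0 hp1 A E _ D0 h _ hh hE
      · intro e he
        exact hH e (Finset.mem_filter.1 he).1
      · intro x _
        by_cases hdx : deg x < D0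
        · refine le_trans (Finset.card_le_card ?_) hdx.le
          intro e he
          rw [Finset.mem_filter] at he
          exact Finset.mem_filter.2 ⟨(Finset.mem_filter.1 he.1).1, he.2⟩
        · have h7 : E.filter (fun e => x ∈ e) = ∅ := by
            apply Finset.filter_eq_empty_iff.2
            intro e he hxe
            exact hdx ((Finset.mem_filter.1 he).2 x hxe)
          rw [h7, Finset.card_empty]
          exact Nat.zero_le _
    · have h6 : A.powerset.filter (fun R => h ≤ E.card ∧ ¬ ∃ e ∈ E, ∀ x ∈ e, x ∈ R) = ∅ := by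
        apply Finset.filter_eq_empty_iff.2
        intro R _ h
        exact hE h.1
      rw [h6, Finset.sum_empty]
      positivity
  linarith

/-- Existence. Proof: with `X = |A| (|A| (1-p)^D0 + (p⁻² + 2 D0 p⁻¹)/h) > 0` (an upper bound for
the expected number of bad `y`), if every `R ⊆ A` had `|R| > 3 p |A|` or more than `3 X` bad `y`,
then `1 = ∑ w ≤ ∑ w |R|/(3 p |A|) + ∑ w #bad/(3 X) ≤ 2/3`. (`A` empty: `R = ∅`.) -/
theorem exists_goodR {p : ℝ} (hp0 : 0 < p) (hp1 : p ≤ 1) (A : Finset α)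
    (H : α → Finset (Sym2 α)) (hH : ∀ y ∈ A, ∀ e ∈ H y, ¬ e.IsDiag ∧ ∀ x ∈ e, x ∈ A)
    (D0 h : ℕ) (hh : 1 ≤ h) :
    ∃ R ⊆ A, (R.card : ℝ) ≤ 3 * p * A.card ∧
      ((A.filter (fun y => BadR (H y) h R)).card : ℝ) ≤
        3 * (A.card * (A.card * (1 - p) ^ D0 + (p⁻¹ ^ 2 + 2 * D0 * p⁻¹) / h)) := by
  have hq0 : 0 ≤ 1 - p := by linarith
  have hw : ∀ R, 0 ≤ bw p A R := fun R => bw_nonneg hp0.le hp1 A R
  have hhR : (1 : ℝ) ≤ h := by exact_mod_cast hh
  rcases A.eq_empty_or_nonempty with rfl | hne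
  · exact ⟨∅, Finset.Subset.refl _, by simp, by simp⟩
  have hA : (0 : ℝ) < A.card := by exact_mod_cast Finset.card_pos.2 hne
  set Y : ℝ := A.card * (1 - p) ^ D0 + (p⁻¹ ^ 2 + 2 * D0 * p⁻¹) / h with hY
  have hY0 : 0 < Y := by
    have h1 : 0 ≤ (A.card : ℝ) * (1 - p) ^ D0 := by positivity
    have h2 : 0 < (p⁻¹ ^ 2 + 2 * D0 * p⁻¹) / h := by positivity
    linarith
  set X : ℝ := A.card * Y with hX
  have hX0 : 0 < X := mul_pos hA hY0
  by_contra hcon
  push Not at hcon
  have hbadsum : ∑ R ∈ A.powerset, bw p A R * ((A.filter (fun y => BadR (H y) h R)).card : ℝ) ≤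
      X := by
    have h1 : ∀ R ∈ A.powerset, bw p A R * ((A.filter (fun y => BadR (H y) h R)).card : ℝ) =
        ∑ y ∈ A, if BadR (H y) h R then bw p A R else 0 := by
      intro R _
      rw [← Finset.sum_filter, Finset.sum_const, nsmul_eq_mul, mul_comm]
    rw [Finset.sum_congr rfl h1, Finset.sum_comm]
    have h2 : ∀ y ∈ A, ∑ R ∈ A.powerset, (if BadR (H y) h R then bw p A R else 0) ≤ Y := by
      intro y hy
      rw [← Finset.sum_filter]
      exact badR_prob hp0 hp1 A (H y) (hH y hy) D0 h hh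
    refine (Finset.sum_le_sum h2).trans ?_
    rw [Finset.sum_const, nsmul_eq_mul]
  have h3 : ∀ R ∈ A.powerset, bw p A R ≤ bw p A R * (R.card : ℝ) * (3 * p * A.card)⁻¹ +
      bw p A R * ((A.filter (fun y => BadR (H y) h R)).card : ℝ) * (3 * X)⁻¹ := by
    intro R hR
    have hwR := hw R
    have ha : 0 ≤ bw p A R * (R.card : ℝ) * (3 * p * A.card)⁻¹ := by positivity
    have hb : 0 ≤ bw p A R * ((A.filter (fun y => BadR (H y) h R)).card : ℝ) * (3 * X)⁻¹ := by
      positivity
    by_cases hc : (R.card : ℝ) ≤ 3 * p * A.card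
    · have h4 := hcon R (Finset.mem_powerset.1 hR) hc
      have h5 : 1 ≤ ((A.filter (fun y => BadR (H y) h R)).card : ℝ) * (3 * X)⁻¹ := by
        rw [← div_eq_mul_inv, one_le_div (by positivity)]
        exact h4.le
      have h6 := mul_le_mul_of_nonneg_left h5 hwR
      rw [mul_one, ← mul_assoc] at h6
      linarith
    · have h5 : 1 ≤ (R.card : ℝ) * (3 * p * A.card)⁻¹ := by
        rw [← div_eq_mul_inv, one_le_div (by positivity)]
        exact (not_le.1 hc).le
      have h6 := mul_le_mul_of_nonneg_left h5 hwR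
      rw [mul_one, ← mul_assoc] at h6
      linarith
  have h7 := Finset.sum_le_sum h3
  rw [bw_total, Finset.sum_add_distrib, ← Finset.sum_mul, ← Finset.sum_mul, bw_card] at h7
  have h8 : p * A.card * (3 * p * A.card)⁻¹ = 1 / 3 := by
    field_simp
  have h9 : (∑ R ∈ A.powerset, bw p A R * ((A.filter (fun y => BadR (H y) h R)).card : ℝ)) *
      (3 * X)⁻¹ ≤ X * (3 * X)⁻¹ := mul_le_mul_of_nonneg_right hbadsum (by positivity)
  have h10 : X * (3 * X)⁻¹ = 1 / 3 := by
    field_simp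
  rw [h8] at h7
  rw [h10] at h9
  linarith

end C0st
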